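import Pool.Agent.H57GWR.ENUM

/-!
# Job ANAL: from r.e. relations with cardinality bounds to Kolmogorov complexity (helper48)
-/

set_option autoImplicit false

namespace Pool.Agent.H57GWR

open Finset Encodable
open Pool.Agent.H166R3.AT
open Pool.Agent.Helper578.JD

/-! ### Strings with a self-delimiting header -/

/-- the number with the binary digits `p a, ..., p (a + l - 1)` -/
def bv (p : List Bool) (a l : ℕ) : ℕ :=
  ∑ j ∈ range l, if decide (p[a + j]? = some true) = true then 2 ^ j else 0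

/-- header and body of a string -/
def dec (p : List Bool) : ℕ × ℕ :=
  (bv p (p.idxOf false + 1) (p.idxOf false),
    bv p (2 * p.idxOf false + 1) (p.length - (2 * p.idxOf false + 1)))

/-- the string with header `h` and body `m` (of length `L`) -/
def cod (h m L : ℕ) : List Bool :=
  List.replicate (Nat.size h) true ++
    false :: ((List.range (Nat.size h)).map h.testBit ++ (List.range L).map m.testBit)

theorem cod_length (h m L : ℕ) : (cod h m L).length = 2 * Nat.size h + 1 + L := by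
  simp [cod]
  omega

theorem cod_idx (h m L : ℕ) : (cod h m L).idxOf false = Nat.size h := by
  unfold cod
  rw [List.idxOf_append]
  simp

theorem sum_bits (m L : ℕ) :
    (∑ j ∈ range L, if m.testBit j = true then 2 ^ j else 0) = m % 2 ^ L := by
  induction L with
  | zero => simp [Nat.mod_one]
  | succ L ih =>
    rw [Finset.sum_range_succ, ih, Nat.testBit_eq_decide_div_mod_eq, pow_succ,
      Nat.mod_mul]
    have h2 : m / 2 ^ L % 2 < 2 := Nat.mod_lt _ (by norm_num)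
    by_cases h : m / 2 ^ L % 2 = 1
    · simp [h]
    · have h3 : m / 2 ^ L % 2 = 0 := by omega
      simp [h3]

theorem dec_cod (h m L : ℕ) (hm : m < 2 ^ L) : dec (cod h m L) = (h, m) := by
  unfold dec
  rw [cod_idx, cod_length]
  have h1 : bv (cod h m L) (Nat.size h + 1) (Nat.size h) = h := by
    have h2 : bv (cod h m L) (Nat.size h + 1) (Nat.size h) =
        ∑ j ∈ range (Nat.size h), if h.testBit j = true then 2 ^ j else 0 := by
      unfold bv
      refine Finset.sum_congr rfl fun j hj => ?_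
      rw [Finset.mem_range] at hj
      have h3 : (cod h m L)[Nat.size h + 1 + j]? = some (h.testBit j) := by
        unfold cod
        rw [List.getElem?_append_right (by simp; omega), List.length_replicate,
          show Nat.size h + 1 + j - Nat.size h = j + 1 by omega, List.getElem?_cons_succ,
          List.getElem?_append_left (by simpa using hj)]
        simp [hj]
      rw [h3]
      simp
    rw [h2, sum_bits, Nat.mod_eq_of_lt (Nat.lt_size_self h)]
  have h4 : bv (cod h m L) (2 * Nat.size h + 1) (2 * Nat.size h + 1 + L - (2 * Nat.size h + 1)) = m := by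
    rw [show 2 * Nat.size h + 1 + L - (2 * Nat.size h + 1) = L by omega]
    have h2 : bv (cod h m L) (2 * Nat.size h + 1) L =
        ∑ j ∈ range L, if m.testBit j = true then 2 ^ j else 0 := by
      unfold bv
      refine Finset.sum_congr rfl fun j hj => ?_
      rw [Finset.mem_range] at hj
      have h3 : (cod h m L)[2 * Nat.size h + 1 + j]? = some (m.testBit j) := by
        unfold cod
        rw [List.getElem?_append_right (by simp; omega), List.length_replicate,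
          show 2 * Nat.size h + 1 + j - Nat.size h = (Nat.size h + j) + 1 by omega,
          List.getElem?_cons_succ, List.getElem?_append_right (by simp)]
        simp [hj]
      rw [h3]
      simp
    rw [h2, sum_bits, Nat.mod_eq_of_lt hm]
  rw [h1, h4]

theorem bv_comp {α : Type*} [Primcodable α] {p : α → List Bool} {a l : α → ℕ}
    (hp : Computable p) (ha : Computable a) (hl : Computable l) :
    Computable fun x => bv (p x) (a x) (l x) := by
  unfold bv
  refine c_sum (α := α) (n := l)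
    (f := fun x j => if decide ((p x)[a x + j]? = some true) = true then 2 ^ j else 0) hl ?_
  have h01 : Computable fun y : α × ℕ => p y.1 := hp.comp Computable.fst
  have h02 : Computable fun y : α × ℕ => a y.1 := ha.comp Computable.fst
  have h1 : Computable fun y : α × ℕ => (p y.1)[a y.1 + y.2]? :=
    RE.cgetElem h01 (RE.cadd h02 Computable.snd)
  have h2 : Computable fun y : α × ℕ => decide ((p y.1)[a y.1 + y.2]? = some true) :=
    c_eq h1 (Computable.const (some true))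
  have h3 : Computable fun y : α × ℕ => 2 ^ y.2 := c_pow (Computable.const 2) Computable.snd
  exact c_ite h2 h3 (Computable.const 0)

theorem dec_comp : Computable dec := by
  have h1 : Computable fun p : List Bool => p.idxOf false :=
    (Primrec.list_idxOf (α := Bool)).to_comp.comp (Computable.const false) Computable.id
  have h2 : Computable fun p : List Bool => p.idxOf false + 1 := RE.cadd h1 (Computable.const 1)
  have h3 : Computable fun p : List Bool => 2 * p.idxOf false + 1 :=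
    RE.cadd (RE.cmul (Computable.const 2) h1) (Computable.const 1)
  have h4 : Computable fun p : List Bool => p.length - (2 * p.idxOf false + 1) :=
    RE.csub Computable.list_length h3
  exact (bv_comp Computable.id h2 h1).pair (bv_comp Computable.id h3 h4)

/-! ### The size of the header -/

theorem pair_lt {a b n : ℕ} (ha : a < 2 ^ n) (hb : b < 2 ^ n) : Nat.pair a b < 2 ^ (2 * n) := by
  refine lt_of_lt_of_le (Nat.pair_lt_max_add_one_sq a b) ?_
  have h1 : max a b + 1 ≤ 2 ^ n := by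
    rcases max_choice a b with h | h <;> rw [h] <;> omega
  calc (max a b + 1) ^ 2 ≤ (2 ^ n) ^ 2 := Nat.pow_le_pow_left h1 2
    _ = 2 ^ (2 * n) := by rw [← pow_mul, mul_comm]

/-- the headers: `(P, r, i, s, t, u)` -/
abbrev Hd := Par × ℕ × Bool × ℕ × ℕ × ℕ

theorem hd_size {P : Par} {r : ℕ} {i : Bool} {s t u n : ℕ} (hn : 1 ≤ n)
    (h1 : P.1 < 2 ^ n) (h2 : P.2.1 < 2 ^ n) (h3 : P.2.2.1 < 2 ^ n) (h4 : P.2.2.2 < 2 ^ n)
    (hr : r < 2 ^ n) (hs : s < 2 ^ n) (ht : t < 2 ^ n) (hu : u < 2 ^ n) :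
    Nat.size (encode ((P, r, i, s, t, u) : Hd)) ≤ 32 * n := by
  obtain ⟨p1, p2, p3, p4⟩ := P
  have mono : ∀ {x a b : ℕ}, x < 2 ^ a → a ≤ b → x < 2 ^ b := fun hx hab =>
    lt_of_lt_of_le hx (Nat.pow_le_pow_right (by norm_num) hab)
  rw [Nat.size_le]
  have hi : encode i < 2 ^ n := by
    have : (2 : ℕ) ^ 1 ≤ 2 ^ n := Nat.pow_le_pow_right (by norm_num) hn
    cases i
    · rw [encode_false]; omega
    · rw [encode_true]; omega
  simp only [encode_prod_val, encode_nat]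
  have e1 := pair_lt ht hu
  have e2 := pair_lt (mono hs (by omega : n ≤ 2 * n)) e1
  have e3 := pair_lt (mono hi (by omega : n ≤ 2 * (2 * n))) e2
  have e4 := pair_lt (mono hr (by omega : n ≤ 2 * (2 * (2 * n)))) e3
  have f1 := pair_lt h3 h4
  have f2 := pair_lt (mono h2 (by omega : n ≤ 2 * n)) f1
  have f3 := pair_lt (mono h1 (by omega : n ≤ 2 * (2 * n))) f2
  have e5 := pair_lt (mono f3 (by omega : 2 * (2 * (2 * n)) ≤ 2 * (2 * (2 * (2 * n))))) e4
  exact mono e5 (by omega)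

/-! ### The decompressors -/

/-- length of the second part of the body of `q` -/
def lt2 (τ : Hd) : ℕ := τ.2.2.2.2.1 - pa τ.1 (!τ.2.2.1)

/-- the index of a group -/
def gix (w : ℕ) (τ : Hd) (mv mp : ℕ) : ℕ := mv / 2 ^ lt2 τ * 2 ^ τ.2.2.2.2.2 + mp / 2 ^ w

/-- A machine: `fG` enumerates the groups, `κ` is the number of the bits of the program which do not describe
the group, `g` finds the element. -/
def mach (fG : Par × ℕ × Bool × ℕ × ℕ → ℕ →. ℕ) (κ : Hd → ℕ) (g : (Hd × ℕ) × ℕ × ℕ →. ℕ)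
    (p v : List Bool) : Part (List Bool) :=
  ((decode (dec v).1 : Option Hd) : Part Hd).bind fun τ =>
    (fG (τ.1, τ.2.1, τ.2.2.1, τ.2.2.2.1, τ.2.2.2.2.1)
      (gix (κ τ) τ (dec v).2 (dec p).2)).bind fun G =>
        (g ((τ, G), (dec v).2, (dec p).2)).bind fun e =>
          ((decode e : Option (List Bool)) : Part (List Bool))

theorem pa_comp {α : Type*} [Primcodable α] {P : α → Par} {i : α → Bool} (hP : Computable P)
    (hi : Computable i) : Computable fun x => pa (P x) (i x) := by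
  unfold pa
  have h1 : Computable fun x => (P x).2.1 := Computable.fst.comp (Computable.snd.comp hP :)
  have h2 : Computable fun x => (P x).1 := Computable.fst.comp hP
  exact c_ite hi h1 h2

theorem lt2_comp {α : Type*} [Primcodable α] {τ : α → Hd} (hτ : Computable τ) :
    Computable fun x => lt2 (τ x) := by
  unfold lt2
  have h1 : Computable fun x => (τ x).2.2.2.2.1 := by fun_prop
  have h2 : Computable fun x => (τ x).1 := by fun_prop
  have h3 : Computable fun x => !(τ x).2.2.1 := by fun_prop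
  exact RE.csub h1 (pa_comp h2 h3)

theorem gix_comp {α : Type*} [Primcodable α] {w : α → ℕ} {τ : α → Hd} {mv mp : α → ℕ}
    (hw : Computable w) (hτ : Computable τ) (hv : Computable mv) (hp : Computable mp) :
    Computable fun x => gix (w x) (τ x) (mv x) (mp x) := by
  unfold gix
  have h1 : Computable fun x => (τ x).2.2.2.2.2 := by fun_prop
  have h2 := lt2_comp hτ
  have h3 : Computable fun x => 2 ^ lt2 (τ x) := c_pow (Computable.const 2) h2
  have h4 : Computable fun x => 2 ^ (τ x).2.2.2.2.2 := c_pow (Computable.const 2) h1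
  have h5 : Computable fun x => 2 ^ w x := c_pow (Computable.const 2) hw
  exact c_add (c_mul (c_div hv h3) h4) (c_div hp h5)

theorem mach_partrec {fG : Par × ℕ × Bool × ℕ × ℕ → ℕ →. ℕ} {κ : Hd → ℕ}
    {g : (Hd × ℕ) × ℕ × ℕ →. ℕ} (hG : Partrec₂ fG) (hκ : Computable κ) (hg : Partrec g) :
    Partrec₂ (mach fG κ g) := by
  have hd : Computable fun x : List Bool × List Bool => dec x.2 := dec_comp.comp Computable.snd
  have hd' : Computable fun x : List Bool × List Bool => dec x.1 := dec_comp.comp Computable.fst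
  have h1 : Computable fun x : List Bool × List Bool => (decode (dec x.2).1 : Option Hd) :=
    Computable.decode.comp (Computable.fst.comp hd :)
  have h2 : Partrec fun x : List Bool × List Bool =>
      ((decode (dec x.2).1 : Option Hd) : Part Hd) := h1.ofOption
  refine Partrec.bind (f := fun x : List Bool × List Bool =>
    ((decode (dec x.2).1 : Option Hd) : Part Hd)) (g := fun x τ =>
    (fG (τ.1, τ.2.1, τ.2.2.1, τ.2.2.2.1, τ.2.2.2.2.1)
      (gix (κ τ) τ (dec x.2).2 (dec x.1).2)).bind fun G =>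
        (g ((τ, G), (dec x.2).2, (dec x.1).2)).bind fun e =>
          ((decode e : Option (List Bool)) : Part (List Bool))) h2 ?_
  have k01 : Computable fun y : (List Bool × List Bool) × Hd => y.1.2 := by fun_prop
  have k02 : Computable fun y : (List Bool × List Bool) × Hd => y.1.1 := by fun_prop
  have k1 : Computable fun y : (List Bool × List Bool) × Hd => (dec y.1.2).2 :=
    Computable.snd.comp (dec_comp.comp k01 :)
  have k2 : Computable fun y : (List Bool × List Bool) × Hd => (dec y.1.1).2 :=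
    Computable.snd.comp (dec_comp.comp k02 :)
  have k3 : Computable fun y : (List Bool × List Bool) × Hd => κ y.2 := hκ.comp Computable.snd
  have k4 : Computable fun y : (List Bool × List Bool) × Hd =>
      gix (κ y.2) y.2 (dec y.1.2).2 (dec y.1.1).2 := gix_comp k3 Computable.snd k1 k2
  have k5 : Computable fun y : (List Bool × List Bool) × Hd =>
      (y.2.1, y.2.2.1, y.2.2.2.1, y.2.2.2.2.1, y.2.2.2.2.2.1) := by fun_prop
  have k6 : Partrec fun y : (List Bool × List Bool) × Hd =>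
      fG (y.2.1, y.2.2.1, y.2.2.2.1, y.2.2.2.2.1, y.2.2.2.2.2.1)
        (gix (κ y.2) y.2 (dec y.1.2).2 (dec y.1.1).2) := Partrec₂.comp hG k5 k4
  refine Partrec.bind (f := fun y : (List Bool × List Bool) × Hd =>
      fG (y.2.1, y.2.2.1, y.2.2.2.1, y.2.2.2.2.1, y.2.2.2.2.2.1)
        (gix (κ y.2) y.2 (dec y.1.2).2 (dec y.1.1).2)) (g := fun y G =>
        (g ((y.2, G), (dec y.1.2).2, (dec y.1.1).2)).bind fun e =>
          ((decode e : Option (List Bool)) : Part (List Bool))) k6 ?_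
  have m1 : Computable fun z : ((List Bool × List Bool) × Hd) × ℕ =>
      ((z.1.2, z.2), (dec z.1.1.2).2, (dec z.1.1.1).2) := by
    have a1 : Computable fun z : ((List Bool × List Bool) × Hd) × ℕ => (dec z.1.1.2).2 :=
      k1.comp Computable.fst
    have a2 : Computable fun z : ((List Bool × List Bool) × Hd) × ℕ => (dec z.1.1.1).2 :=
      k2.comp Computable.fst
    have a3 : Computable fun z : ((List Bool × List Bool) × Hd) × ℕ => (z.1.2, z.2) := by fun_prop
    exact a3.pair (a1.pair a2)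
  have m2 : Partrec fun z : ((List Bool × List Bool) × Hd) × ℕ =>
      g ((z.1.2, z.2), (dec z.1.1.2).2, (dec z.1.1.1).2) := hg.comp m1
  refine Partrec.bind (f := fun z : ((List Bool × List Bool) × Hd) × ℕ =>
      g ((z.1.2, z.2), (dec z.1.1.2).2, (dec z.1.1.1).2)) (g := fun _ e =>
        ((decode e : Option (List Bool)) : Part (List Bool))) m2 ?_
  have n1 : Computable fun z : (((List Bool × List Bool) × Hd) × ℕ) × ℕ =>
      (decode z.2 : Option (List Bool)) := Computable.decode.comp Computable.snd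
  exact n1.ofOption

theorem mach_mem {fG : Par × ℕ × Bool × ℕ × ℕ → ℕ →. ℕ} {κ : Hd → ℕ}
    {g : (Hd × ℕ) × ℕ × ℕ →. ℕ} {τ : Hd} {mv Lv mp Lp G : ℕ} {u : List Bool}
    (hv : mv < 2 ^ Lv) (hp : mp < 2 ^ Lp)
    (hG : G ∈ fG (τ.1, τ.2.1, τ.2.2.1, τ.2.2.2.1, τ.2.2.2.2.1) (gix (κ τ) τ mv mp))
    (hu : encode u ∈ g ((τ, G), mv, mp)) :
    u ∈ mach fG κ g (cod 0 mp Lp) (cod (encode τ) mv Lv) := by
  unfold mach
  rw [dec_cod _ _ _ hv, dec_cod _ _ _ hp]
  refine Part.mem_bind_iff.2 ⟨τ, ?_, ?_⟩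
  · rw [encodek]; exact Part.mem_some τ
  refine Part.mem_bind_iff.2 ⟨G, hG, ?_⟩
  refine Part.mem_bind_iff.2 ⟨encode u, hu, ?_⟩
  rw [encodek]; exact Part.mem_some u

/-! ### The relations -/

/-- at least `2 ^ t` elements of the other side were added to `G` and `G` has at least `2 ^ s` elements -/
def RG (Dy : Par → ℕ → Bool → ℕ → ℕ → Prop) (c : Par × ℕ × Bool × ℕ × ℕ) (G : ℕ) : Prop :=
  2 ^ c.2.2.2.1 ≤ sz G ∧ ∃ l : List ℕ, l.length = 2 ^ c.2.2.2.2 ∧ l.Nodup ∧
    ∀ x ∈ l, Dy c.1 c.2.1 c.2.2.1 G x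

theorem bt_comp {α : Type*} [Primcodable α] {β v : α → ℕ} (hβ : Computable β) (hv : Computable v) :
    Computable fun x => bt (β x) (v x) := by
  unfold bt
  exact c_eq (c_mod (c_div hβ (c_pow (Computable.const 2) hv)) (Computable.const 2))
    (Computable.const 1)

theorem sz_comp {α : Type*} [Primcodable α] {G : α → ℕ} (hG : Computable G) :
    Computable fun x => sz (G x) := by
  unfold sz
  have h1 : Computable fun y : α × ℕ => G y.1 := hG.comp Computable.fst
  have h2 : Computable fun y : α × ℕ => bt (G y.1) y.2 := bt_comp h1 Computable.snd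
  exact c_count (n := G) (f := fun x v => bt (G x) v) hG h2

theorem RG_re {Dy : Par → ℕ → Bool → ℕ → ℕ → Prop}
    (hRE : REPred (fun t : Par × ℕ × Bool × ℕ × ℕ => Dy t.1 t.2.1 t.2.2.1 t.2.2.2.1 t.2.2.2.2)) :
    REPred fun t : (Par × ℕ × Bool × ℕ × ℕ) × ℕ => RG Dy t.1 t.2 := by
  unfold RG
  refine RE.and ?_ ?_
  · have h1 : Computable fun t : (Par × ℕ × Bool × ℕ × ℕ) × ℕ => t.1.2.2.2.1 := by fun_prop
    have h2 : Computable fun t : (Par × ℕ × Bool × ℕ × ℕ) × ℕ => t.2 := by fun_prop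
    exact RE.le (c_pow (Computable.const 2) h1) (sz_comp h2)
  · refine RE.ex (α := (Par × ℕ × Bool × ℕ × ℕ) × ℕ) (β := List ℕ) (p := fun t l =>
      l.length = 2 ^ t.1.2.2.2.2 ∧ l.Nodup ∧ ∀ x ∈ l, Dy t.1.1 t.1.2.1 t.1.2.2.1 t.2 x) ?_
    have h1 : Computable fun z : ((Par × ℕ × Bool × ℕ × ℕ) × ℕ) × List ℕ =>
      z.1.1.2.2.2.2 := by fun_prop
    have h2 : Computable fun z : ((Par × ℕ × Bool × ℕ × ℕ) × ℕ) × List ℕ => z.2 := by fun_prop
    have h3 : Computable fun z : ((Par × ℕ × Bool × ℕ × ℕ) × ℕ) × List ℕ => z.2.length := by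
      fun_prop
    refine RE.and (RE.eq h3 (c_pow (Computable.const 2) h1)) (RE.and (RE.cp_nodup h2) ?_)
    refine RE.all_mem (α := ((Par × ℕ × Bool × ℕ × ℕ) × ℕ) × List ℕ) (β := ℕ)
      (p := fun z x => Dy z.1.1.1 z.1.1.2.1 z.1.1.2.2.1 z.1.2 x) ?_ h2
    have h4 : Computable fun y : (((Par × ℕ × Bool × ℕ × ℕ) × ℕ) × List ℕ) × ℕ =>
      ((y.1.1.1.1, y.1.1.1.2.1, y.1.1.1.2.2.1, y.1.1.2, y.2) : Par × ℕ × Bool × ℕ × ℕ) := by
      fun_prop
    exact (RE.comp hRE h4 :)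

theorem base_re : REPred fun t : ℕ × ℕ => Base t.1 t.2 := by
  unfold Base
  refine RE.exN (α := ℕ × ℕ) (p := fun t v => bt t.1 v = true ∧ ve v = t.2) ?_
  have h1 : Computable fun y : (ℕ × ℕ) × ℕ => y.1.1 := by fun_prop
  have h2 : Computable fun y : (ℕ × ℕ) × ℕ => y.1.2 := by fun_prop
  have h3 : Computable fun y : (ℕ × ℕ) × ℕ => bt y.1.1 y.2 := bt_comp h1 Computable.snd
  have h4 : Computable fun y : (ℕ × ℕ) × ℕ => y.2 / 2 := c_div Computable.snd (Computable.const 2)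
  have h5 : Computable fun y : (ℕ × ℕ) × ℕ => ve y.2 := by
    unfold ve
    exact Computable.fst.comp (Computable.unpair.comp h4 :)
  exact RE.and (RE.of_bool h3) (RE.eq h5 h2)

theorem base_card {G : ℕ} {F : Finset ℕ} (hF : ∀ x ∈ F, Base G x) : F.card ≤ sz G := by
  unfold sz
  have h1 : F ⊆ ((range G).filter fun v => bt G v = true).image ve := by
    intro x hx
    obtain ⟨v, hv, rfl⟩ := hF x hx
    refine Finset.mem_image.2 ⟨v, Finset.mem_filter.2 ⟨Finset.mem_range.2 ?_, hv⟩, rfl⟩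
    by_contra hcon
    have h2 : G < 2 ^ v := lt_of_le_of_lt (not_lt.1 hcon) Nat.lt_two_pow_self
    unfold bt at hv
    rw [Nat.div_eq_of_lt h2] at hv
    simp at hv
  exact (Finset.card_le_card h1).trans Finset.card_image_le

theorem RG_card {Dy : Par → ℕ → Bool → ℕ → ℕ → Prop} {P : Par} {r : ℕ} {i : Bool} {s t a b : ℕ}
    (h1 : ∀ F : Finset ℕ, (∀ G ∈ F, (∃ x, Dy P r i G x) ∧ 2 ^ s ≤ sz G) →
      F.card * 2 ^ s ≤ 2 ^ a)
    (h2 : ∀ F : Finset (ℕ × ℕ), (∀ p ∈ F, Dy P r i p.1 p.2) → F.card ≤ 2 ^ b)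
    (hs : s ≤ a) (ht : t ≤ b) (F : Finset ℕ) (hF : ∀ G ∈ F, RG Dy (P, r, i, s, t) G) :
    F.card ≤ 2 ^ min (a - s) (b - t) := by
  classical
  have e1 : F.card ≤ 2 ^ (a - s) := by
    have := h1 F fun G hG => by
      obtain ⟨g1, l, g2, g3, g4⟩ := hF G hG
      have hpos : 0 < l.length := by rw [g2]; positivity
      refine ⟨⟨l[0], g4 _ (List.getElem_mem hpos)⟩, g1⟩
    have h5 : 2 ^ a = 2 ^ (a - s) * 2 ^ s := by rw [← pow_add]; congr 1; omega
    rw [h5] at this
    exact Nat.le_of_mul_le_mul_right this (by positivity)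
  have e2 : F.card ≤ 2 ^ (b - t) := by
    have hX : ∀ G, ∃ X : Finset ℕ, G ∈ F → X.card = 2 ^ t ∧ ∀ x ∈ X, Dy P r i G x := by
      intro G
      by_cases hG : G ∈ F
      · obtain ⟨g1, l, g2, g3, g4⟩ := hF G hG
        refine ⟨l.toFinset, fun _ => ⟨?_, fun x hx => g4 x (List.mem_toFinset.1 hx)⟩⟩
        rw [List.toFinset_card_of_nodup g3, g2]
      · exact ⟨∅, fun h => absurd h hG⟩
    choose X hX using hX
    have h6 := h2 ((F.sigma X).image fun p => (p.1, p.2)) (by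
      intro p hp
      obtain ⟨p', hp', rfl⟩ := Finset.mem_image.1 hp
      rw [Finset.mem_sigma] at hp'
      exact (hX _ hp'.1).2 _ hp'.2)
    rw [Finset.card_image_of_injective _ (by
      rintro ⟨p, p'⟩ ⟨q, q'⟩ h
      simp only [Prod.mk.injEq] at h
      obtain ⟨rfl, rfl⟩ := h
      rfl), Finset.card_sigma,
      Finset.sum_congr rfl (fun G hG => (hX G hG).1), Finset.sum_const, smul_eq_mul] at h6
    have h5 : 2 ^ b = 2 ^ (b - t) * 2 ^ t := by rw [← pow_add]; congr 1; omega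
    rw [h5] at h6
    exact Nat.le_of_mul_le_mul_right h6 (by positivity)
  rcases min_choice (a - s) (b - t) with h | h <;> rw [h] <;> assumption

theorem dy_fin {p : ℕ → Prop} {b : ℕ} (h : ∀ F : Finset ℕ, (∀ x ∈ F, p x) → F.card ≤ b) :
    ∃ F₀ : Finset ℕ, ∀ x, x ∈ F₀ ↔ p x := by
  have h1 : {x | p x}.Finite := by
    by_contra hcon
    obtain ⟨F, hF, hc⟩ := Set.Infinite.exists_subset_card_eq hcon (b + 1)
    have := h F fun x hx => hF hx
    omega
  exact ⟨h1.toFinset, fun x => by simp⟩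

/-! ### The theorem -/

theorem ks_le {D E : List Bool → List Bool →. List Bool} {c : ℕ}
    (h : ∀ p v u : List Bool, u ∈ E p v → ∃ q : List Bool, u ∈ D q v ∧ q.length ≤ p.length + c)
    {p v u : List Bool} (hu : u ∈ E p v) : KS D u v ≤ p.length + c := by
  obtain ⟨q, hq, hl⟩ := h p v u hu
  have h1 : q.length ∈ {m : ℕ | ∃ p : List Bool, u ∈ D p v ∧ p.length = m} := ⟨q, hq, rfl⟩
  exact le_trans (Nat.sInf_le h1) hl

theorem cat_lt {a b x y : ℕ} (ha : a < 2 ^ x) (hb : b < 2 ^ y) : a * 2 ^ y + b < 2 ^ (x + y) := by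
  have h1 : (a + 1) * 2 ^ y ≤ 2 ^ x * 2 ^ y := Nat.mul_le_mul_right _ ha
  rw [pow_add]
  rw [add_mul, one_mul] at h1
  omega

theorem cat_div {a b y : ℕ} (hb : b < 2 ^ y) : (a * 2 ^ y + b) / 2 ^ y = a := by
  rw [mul_comm, Nat.mul_add_div (by positivity), Nat.div_eq_of_lt hb, add_zero]

theorem cat_mod {a b y : ℕ} (hb : b < 2 ^ y) : (a * 2 ^ y + b) % 2 ^ y = b := by
  rw [mul_comm, Nat.mul_add_mod, Nat.mod_eq_of_lt hb]

/-- number of the bits for the base element -/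
def kB (τ : Hd) : ℕ := τ.2.2.2.1 + 1

/-- number of the bits for the other element -/
def kD (τ : Hd) : ℕ := min (τ.2.2.2.2.1 + 1) (pa τ.1 (!τ.2.2.1) + 1)

/-- the base element -/
def gB (fB : ℕ → ℕ →. ℕ) : (Hd × ℕ) × ℕ × ℕ →. ℕ :=
  fun y => fB y.1.2 (y.2.2 % 2 ^ kB y.1.1)

/-- the other element -/
def gD (fD : Par × ℕ × Bool × ℕ → ℕ →. ℕ) : (Hd × ℕ) × ℕ × ℕ →. ℕ :=
  fun y => fD (y.1.1.1, y.1.1.2.1, y.1.1.2.2.1, y.1.2)
    (y.2.1 % 2 ^ lt2 y.1.1 * 2 ^ (pa y.1.1.1 (!y.1.1.2.2.1) + 1) + y.2.2 % 2 ^ kD y.1.1)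

theorem kB_comp : Computable kB := by
  unfold kB
  have h1 : Computable fun τ : Hd => τ.2.2.2.1 := by fun_prop
  exact RE.cadd h1 (Computable.const 1)

theorem kD_comp : Computable kD := by
  unfold kD
  have h1 : Computable fun τ : Hd => τ.2.2.2.2.1 := by fun_prop
  have h2 : Computable fun τ : Hd => τ.1 := by fun_prop
  have h3 : Computable fun τ : Hd => !τ.2.2.1 := by fun_prop
  exact RE.cmin (RE.cadd h1 (Computable.const 1)) (RE.cadd (pa_comp h2 h3) (Computable.const 1))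

theorem gB_partrec {fB : ℕ → ℕ →. ℕ} (h : Partrec₂ fB) : Partrec (gB fB) := by
  have h1 : Computable fun y : (Hd × ℕ) × ℕ × ℕ => y.1.2 := by fun_prop
  have h2 : Computable fun y : (Hd × ℕ) × ℕ × ℕ => y.2.2 := by fun_prop
  have h3 : Computable fun y : (Hd × ℕ) × ℕ × ℕ => y.1.1 := by fun_prop
  have h4 : Computable fun y : (Hd × ℕ) × ℕ × ℕ => kB y.1.1 := kB_comp.comp h3
  have h5 : Computable fun y : (Hd × ℕ) × ℕ × ℕ => y.2.2 % 2 ^ kB y.1.1 :=
    c_mod h2 (c_pow (Computable.const 2) h4)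
  have h6 : Partrec fun y : (Hd × ℕ) × ℕ × ℕ => fB y.1.2 (y.2.2 % 2 ^ kB y.1.1) :=
    (Partrec₂.comp h h1 h5 :)
  exact h6

theorem gD_partrec {fD : Par × ℕ × Bool × ℕ → ℕ →. ℕ} (h : Partrec₂ fD) : Partrec (gD fD) := by
  have h1 : Computable fun y : (Hd × ℕ) × ℕ × ℕ =>
    (y.1.1.1, y.1.1.2.1, y.1.1.2.2.1, y.1.2) := by fun_prop
  have h2 : Computable fun y : (Hd × ℕ) × ℕ × ℕ => y.2.2 := by fun_prop
  have h2' : Computable fun y : (Hd × ℕ) × ℕ × ℕ => y.2.1 := by fun_prop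
  have h3 : Computable fun y : (Hd × ℕ) × ℕ × ℕ => y.1.1 := by fun_prop
  have h3' : Computable fun y : (Hd × ℕ) × ℕ × ℕ => y.1.1.1 := by fun_prop
  have h3'' : Computable fun y : (Hd × ℕ) × ℕ × ℕ => !y.1.1.2.2.1 := by fun_prop
  have h4 : Computable fun y : (Hd × ℕ) × ℕ × ℕ => kD y.1.1 := kD_comp.comp h3
  have h5 : Computable fun y : (Hd × ℕ) × ℕ × ℕ => y.2.2 % 2 ^ kD y.1.1 :=
    c_mod h2 (c_pow (Computable.const 2) h4)
  have h6 : Computable fun y : (Hd × ℕ) × ℕ × ℕ => lt2 y.1.1 := lt2_comp h3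
  have h7 : Computable fun y : (Hd × ℕ) × ℕ × ℕ => y.2.1 % 2 ^ lt2 y.1.1 :=
    c_mod h2' (c_pow (Computable.const 2) h6)
  have h8 : Computable fun y : (Hd × ℕ) × ℕ × ℕ => 2 ^ (pa y.1.1.1 (!y.1.1.2.2.1) + 1) :=
    c_pow (Computable.const 2) (c_add (pa_comp h3' h3'') (Computable.const 1))
  have h9 : Computable fun y : (Hd × ℕ) × ℕ × ℕ =>
      y.2.1 % 2 ^ lt2 y.1.1 * 2 ^ (pa y.1.1.1 (!y.1.1.2.2.1) + 1) + y.2.2 % 2 ^ kD y.1.1 :=
    c_add (c_mul h7 h8) h5
  have h10 : Partrec fun y : (Hd × ℕ) × ℕ × ℕ => fD (y.1.1.1, y.1.1.2.1, y.1.1.2.2.1, y.1.2)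
    (y.2.1 % 2 ^ lt2 y.1.1 * 2 ^ (pa y.1.1.1 (!y.1.1.2.2.1) + 1) + y.2.2 % 2 ^ kD y.1.1) :=
    (Partrec₂.comp h h1 h9 :)
  exact h10

theorem anal_side (D : List Bool → List Bool →. List Bool) (hD : OptCond D)
    (Dy : Par → ℕ → Bool → ℕ → ℕ → Prop) (c₀ : ℕ)
    (hRE : REPred (fun t : Par × ℕ × Bool × ℕ × ℕ => Dy t.1 t.2.1 t.2.2.1 t.2.2.2.1 t.2.2.2.2))
    (H1 : ∀ (P : Par) (r : ℕ) (i : Bool) (s : ℕ) (F : Finset ℕ),
      (∀ G ∈ F, (∃ x, Dy P r i G x) ∧ 2 ^ s ≤ sz G) →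
      F.card * 2 ^ s ≤ 2 ^ (pg P + pa P i + c₀ * (pk P + Nat.size (NN (pa P) (pg P) (pk P)))))
    (H2 : ∀ (P : Par) (r : ℕ) (i : Bool) (F : Finset (ℕ × ℕ)), (∀ p ∈ F, Dy P r i p.1 p.2) →
      F.card ≤ 2 ^ (pg P + pa P (!i) + c₀ * (pk P + Nat.size (NN (pa P) (pg P) (pk P)))))
    (H3 : ∀ (P : Par) (r : ℕ) (i : Bool) (G x : ℕ), Dy P r i G x →
      sz G ≤ 2 ^ (pa P i + c₀ * (pk P + Nat.size (NN (pa P) (pg P) (pk P))))) :
    ∃ d : ℕ, ∀ (P : Par) (i : Bool) (e e' : List Bool) (r G : ℕ),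
      r < 2 * NN (pa P) (pg P) (pk P) → Base G (encode e) → Dy P r i G (encode e') →
      ∃ q : List Bool, KS D q [] ≤ pg P + d * (pk P + Nat.size (NN (pa P) (pg P) (pk P))) ∧
        KS D e q ≤ pa P i + d * (pk P + Nat.size (NN (pa P) (pg P) (pk P))) ∧
        KS D e' q ≤ pa P (!i) + d * (pk P + Nat.size (NN (pa P) (pg P) (pk P))) := by
  classical
  obtain ⟨fG, hfG, hG⟩ := enum (Par × ℕ × Bool × ℕ × ℕ) (RG Dy) (RG_re hRE)
  obtain ⟨fB, hfB, hB⟩ := enum ℕ Base base_re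
  have hre2 : REPred (fun t : (Par × ℕ × Bool × ℕ) × ℕ =>
      Dy t.1.1 t.1.2.1 t.1.2.2.1 t.1.2.2.2 t.2) := by
    have h4 : Computable fun t : (Par × ℕ × Bool × ℕ) × ℕ =>
      ((t.1.1, t.1.2.1, t.1.2.2.1, t.1.2.2.2, t.2) : Par × ℕ × Bool × ℕ × ℕ) := by
      fun_prop
    exact (RE.comp hRE h4 :)
  obtain ⟨fD, hfD, hDD⟩ := enum (Par × ℕ × Bool × ℕ)
    (fun c x => Dy c.1 c.2.1 c.2.2.1 c.2.2.2 x) hre2
  obtain ⟨c1, hc1⟩ := hD.2 (fun p _ => Part.some p) Computable.fst.partrec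
  obtain ⟨c2, hc2⟩ := hD.2 _ (mach_partrec hfG kB_comp (gB_partrec hfB))
  obtain ⟨c3, hc3⟩ := hD.2 _ (mach_partrec hfG kD_comp (gD_partrec hfD))
  refine ⟨129 + 64 * Nat.size (1 + 2 * c₀) + c1 + c2 + c3 + 2 + c₀, ?_⟩
  intro P i e e' r G hr hBe hDe
  -- the parameters
  obtain ⟨N, hN⟩ : ∃ N, N = NN (pa P) (pg P) (pk P) := ⟨_, rfl⟩
  have hN' : N = P.1 + P.2.1 + P.2.2.1 + P.2.2.2 + 10 := by
    rw [hN]; simp [NN, pa, pg, pk]
  have hpai : pa P i + pg P + pk P ≤ N := by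
    rw [hN']; unfold pa pg pk; split_ifs <;> omega
  have hpai' : pa P (!i) + pg P + pk P ≤ N := by
    rw [hN']; unfold pa pg pk; split_ifs <;> omega
  rw [← hN] at hr ⊢
  have H1' := H1 P r i
  have H2' := H2 P r i
  have H3' := H3 P r i G _ hDe
  rw [← hN] at H1' H2' H3'
  obtain ⟨K, hK⟩ : ∃ K, K = pk P + Nat.size N := ⟨_, rfl⟩
  obtain ⟨o, ho⟩ : ∃ o, o = c₀ * K := ⟨_, rfl⟩
  obtain ⟨A, hA⟩ : ∃ A, A = pa P i := ⟨_, rfl⟩
  obtain ⟨A', hA'⟩ : ∃ A', A' = pa P (!i) := ⟨_, rfl⟩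
  obtain ⟨g, hg⟩ : ∃ g, g = pg P := ⟨_, rfl⟩
  rw [← hK, ← ho, ← hA, ← hg] at H1'
  rw [← hK, ← ho, ← hA', ← hg] at H2'
  rw [← hK, ← ho, ← hA] at H3'
  rw [← hK, ← hA, ← hA', ← hg]
  rw [← hA, ← hg] at hpai
  rw [← hA', ← hg] at hpai'
  -- the sizes
  have hszpos : 1 ≤ sz G := by
    have := base_card (G := G) (F := {encode e}) (fun x hx => by
      rw [Finset.mem_singleton] at hx; rw [hx]; exact hBe)
    simpa using this
  have hcard2 : ∀ F : Finset ℕ, (∀ x ∈ F, Dy P r i G x) → F.card ≤ 2 ^ (g + A' + o) := by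
    intro F hF
    have := H2' (F.image fun x => (G, x)) (by
      intro p hp
      obtain ⟨x, hx, rfl⟩ := Finset.mem_image.1 hp
      exact hF x hx)
    rwa [Finset.card_image_of_injective _ (by
      intro a b hab
      simpa using hab)] at this
  obtain ⟨F₀, hF₀⟩ := dy_fin hcard2
  have hF₀pos : 1 ≤ F₀.card := Finset.card_pos.2 ⟨_, (hF₀ _).2 hDe⟩
  obtain ⟨s, hs⟩ : ∃ s, s = Nat.log 2 (sz G) := ⟨_, rfl⟩
  obtain ⟨t, ht⟩ : ∃ t, t = Nat.log 2 F₀.card := ⟨_, rfl⟩
  have hs1 : 2 ^ s ≤ sz G := by rw [hs]; exact Nat.pow_log_le_self 2 (by omega)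
  have hs2 : sz G < 2 ^ (s + 1) := by rw [hs]; exact Nat.lt_pow_succ_log_self (by norm_num) _
  have ht1 : 2 ^ t ≤ F₀.card := by rw [ht]; exact Nat.pow_log_le_self 2 (by omega)
  have ht2 : F₀.card < 2 ^ (t + 1) := by rw [ht]; exact Nat.lt_pow_succ_log_self (by norm_num) _
  have hsA : s ≤ A + o := (Nat.pow_le_pow_iff_right (by norm_num)).1 (hs1.trans H3')
  have htA : t ≤ g + A' + o :=
    (Nat.pow_le_pow_iff_right (by norm_num)).1 (ht1.trans (hcard2 F₀ fun x hx => (hF₀ x).1 hx))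
  have hRG : RG Dy (P, r, i, s, t) G := by
    refine ⟨hs1, ?_⟩
    obtain ⟨X, hX, hXc⟩ := Finset.exists_subset_card_eq ht1
    refine ⟨X.toList, by rw [Finset.length_toList, hXc], Finset.nodup_toList _, fun x hx => ?_⟩
    exact (hF₀ x).1 (hX (Finset.mem_toList.1 hx))
  obtain ⟨h', hh'⟩ : ∃ h', h' = min (g + A + o - s) (g + A' + o - t) := ⟨_, rfl⟩
  obtain ⟨mG, hmG, hmG'⟩ := hG (P, r, i, s, t) (2 ^ h') (by
    intro F hF
    rw [hh']
    exact RG_card (H1' s) H2' (by omega) htA F hF) G hRG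
  obtain ⟨mB, hmB, hmB'⟩ := hB G (2 ^ (s + 1)) (fun F hF => (base_card hF).trans hs2.le) _ hBe
  obtain ⟨mD, hmD, hmD'⟩ := hDD (P, r, i, G) (2 ^ (t + 1)) (fun F hF =>
    (Finset.card_le_card fun x hx => (hF₀ x).2 (hF x hx)).trans ht2.le) _ hDe
  obtain ⟨u, hu⟩ : ∃ u, u = h' - (g + o) := ⟨_, rfl⟩
  obtain ⟨w, hw⟩ : ∃ w, w = min (t + 1) (A' + 1) := ⟨_, rfl⟩
  -- the bodies
  have b1 : mG / 2 ^ u < 2 ^ (h' - u) := by
    apply Nat.div_lt_of_lt_mul
    rw [← pow_add, show u + (h' - u) = h' by omega]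
    exact hmG
  have b2 : mD / 2 ^ (A' + 1) < 2 ^ (t - A') := by
    apply Nat.div_lt_of_lt_mul
    rw [← pow_add]
    exact lt_of_lt_of_le hmD (Nat.pow_le_pow_right (by norm_num) (by omega))
  have b3 : mG % 2 ^ u < 2 ^ u := Nat.mod_lt _ (by positivity)
  have b4 : mD % 2 ^ (A' + 1) < 2 ^ w := by
    rcases min_choice (t + 1) (A' + 1) with h | h
    · rw [hw, h]; exact lt_of_le_of_lt (Nat.mod_le _ _) hmD
    · rw [hw, h]; exact Nat.mod_lt _ (by positivity)
  have hv := cat_lt b1 b2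
  have hpB := cat_lt b3 hmB
  have hpD := cat_lt b3 b4
  have hlt2 : lt2 (P, r, i, s, t, u) = t - A' := by rw [hA']; rfl
  have hkB : kB (P, r, i, s, t, u) = s + 1 := rfl
  have hkD : kD (P, r, i, s, t, u) = w := by rw [hw, hA']; rfl
  have gixB : gix (kB (P, r, i, s, t, u)) (P, r, i, s, t, u)
      (mG / 2 ^ u * 2 ^ (t - A') + mD / 2 ^ (A' + 1)) (mG % 2 ^ u * 2 ^ (s + 1) + mB) = mG := by
    unfold gix
    rw [hlt2, hkB, cat_div b2, cat_div hmB]
    exact Nat.div_add_mod' mG (2 ^ u)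
  have gixD : gix (kD (P, r, i, s, t, u)) (P, r, i, s, t, u)
      (mG / 2 ^ u * 2 ^ (t - A') + mD / 2 ^ (A' + 1))
      (mG % 2 ^ u * 2 ^ w + mD % 2 ^ (A' + 1)) = mG := by
    unfold gix
    rw [hlt2, hkD, cat_div b2, cat_div b4]
    exact Nat.div_add_mod' mG (2 ^ u)
  have memB : e ∈ mach fG kB (gB fB) (cod 0 (mG % 2 ^ u * 2 ^ (s + 1) + mB) (u + (s + 1)))
      (cod (encode ((P, r, i, s, t, u) : Hd)) (mG / 2 ^ u * 2 ^ (t - A') + mD / 2 ^ (A' + 1))
        (h' - u + (t - A'))) := by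
    refine mach_mem (G := G) hv hpB ?_ ?_
    · rw [gixB]; exact hmG'
    · unfold gB
      dsimp only
      rw [hkB, cat_mod hmB]
      exact hmB'
  have memD : e' ∈ mach fG kD (gD fD)
      (cod 0 (mG % 2 ^ u * 2 ^ w + mD % 2 ^ (A' + 1)) (u + w))
      (cod (encode ((P, r, i, s, t, u) : Hd)) (mG / 2 ^ u * 2 ^ (t - A') + mD / 2 ^ (A' + 1))
        (h' - u + (t - A'))) := by
    refine mach_mem (G := G) hv hpD ?_ ?_
    · rw [gixD]; exact hmG'
    · unfold gD
      dsimp only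
      rw [hkD, hlt2, ← hA', cat_mod b2, cat_mod b4, Nat.div_add_mod']
      exact hmD'
  have k1 := ks_le hc1 (p := cod (encode ((P, r, i, s, t, u) : Hd))
    (mG / 2 ^ u * 2 ^ (t - A') + mD / 2 ^ (A' + 1)) (h' - u + (t - A'))) (v := [])
    (Part.mem_some _)
  have k2 := ks_le hc2 memB
  have k3 := ks_le hc3 memD
  rw [cod_length] at k1 k2 k3
  rw [Nat.size_zero] at k2 k3
  -- the size of the header
  have hNpos : 10 ≤ N := by omega
  have hsizeN : Nat.size N ≤ N := Nat.size_le.2 Nat.lt_two_pow_self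
  have hNlt : N < 2 ^ Nat.size N := Nat.lt_size_self N
  have hσ : 1 ≤ Nat.size N := by
    by_contra hcon
    have : Nat.size N = 0 := by omega
    rw [this] at hNlt
    omega
  obtain ⟨z, hz⟩ : ∃ z, z = Nat.size (1 + 2 * c₀) := ⟨_, rfl⟩
  have hzlt : 1 + 2 * c₀ < 2 ^ z := by rw [hz]; exact Nat.lt_size_self _
  have ho2 : o ≤ 2 * c₀ * N := by
    rw [ho]
    have : K ≤ 2 * N := by omega
    calc c₀ * K ≤ c₀ * (2 * N) := Nat.mul_le_mul_left _ this
      _ = 2 * c₀ * N := by ring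
  have hbig : (1 + 2 * c₀) * N < 2 ^ (Nat.size N + z + 1) := by
    calc (1 + 2 * c₀) * N < 2 ^ z * 2 ^ Nat.size N := Nat.mul_lt_mul'' hzlt hNlt
      _ = 2 ^ (Nat.size N + z) := by rw [← pow_add, add_comm]
      _ ≤ 2 ^ (Nat.size N + z + 1) := Nat.pow_le_pow_right (by norm_num) (by omega)
  have hbig1 : N + o < 2 ^ (Nat.size N + z + 1) := by
    refine lt_of_le_of_lt ?_ hbig
    rw [add_mul, one_mul]; omega
  have hr2 : r < 2 ^ (Nat.size N + z + 1) := by
    calc r < 2 * N := hr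
      _ ≤ 2 ^ Nat.size N * 2 := by omega
      _ = 2 ^ (Nat.size N + 1) := by rw [pow_succ]
      _ ≤ 2 ^ (Nat.size N + z + 1) := Nat.pow_le_pow_right (by norm_num) (by omega)
  have hhead : Nat.size (encode ((P, r, i, s, t, u) : Hd)) ≤ 32 * (Nat.size N + z + 1) := by
    apply hd_size (by omega)
    · omega
    · omega
    · omega
    · omega
    · exact hr2
    · omega
    · omega
    · omega
  have hKpos : 1 ≤ K := by omega
  have hσK : Nat.size N ≤ K := by omega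
  have hX : ∀ X : ℕ, X ≤ X * K := fun X => Nat.le_mul_of_pos_right _ hKpos
  refine ⟨_, k1.trans ?_, k2.trans ?_, k3.trans ?_⟩
  · have e1 : h' - u + (t - A') ≤ g + o := by omega
    have e2 := hX (64 * z + 65 + c1)
    have e3 : (129 + 64 * Nat.size (1 + 2 * c₀) + c1 + c2 + c3 + 2 + c₀) * K =
        64 * K + (64 * z + 65 + c1) * K + (c2 + c3 + 2) * K + o := by
      rw [← hz, ho]; ring
    rw [e3]
    omega
  · have e1 : u + (s + 1) ≤ A + o + 1 := by omega
    have e2 := hX (2 + c2)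
    have e3 : (129 + 64 * Nat.size (1 + 2 * c₀) + c1 + c2 + c3 + 2 + c₀) * K =
        (2 + c2) * K + (129 + 64 * z + c1 + c3) * K + o := by
      rw [← hz, ho]; ring
    rw [e3]
    omega
  · have e1 : u + w ≤ A' + 1 := by omega
    have e2 := hX (2 + c3)
    have e3 : (129 + 64 * Nat.size (1 + 2 * c₀) + c1 + c2 + c3 + 2 + c₀) * K =
        (2 + c3) * K + (129 + 64 * z + c1 + c2) * K + o := by
      rw [← hz, ho]; ring
    rw [e3]
    omega

theorem anal : S_ANAL := by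
  intro D hD Dy c₀ hRE H1 H2 H3
  obtain ⟨d, hd⟩ := anal_side D hD Dy c₀ hRE H1 H2 H3
  refine ⟨d, fun P x y r G hr h => ?_⟩
  rcases h with ⟨hb, hdy⟩ | ⟨hb, hdy⟩
  · exact hd P false x y r G hr hb hdy
  · obtain ⟨q, h1, h2, h3⟩ := hd P true y x r G hr hb hdy
    exact ⟨q, h1, h3, h2⟩

end Pool.Agent.H57GWR
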