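import Pool.Agent.H57GWR.Tr

/-!
# Project GWR: the assembly T1, T2, T3, T4
-/

set_option autoImplicit false

namespace Pool.Agent.H57GWR

open Finset
open Pool.Agent.H166R3.AT (bex ball bex_iff ball_iff)
open scoped Classical

section

variable {I : ℕ → ℕ → ℕ → Bool → ℕ → Bool} {a : Bool → ℕ} {g k : ℕ}

lemma Wt_iff {r z γ J u : ℕ} : Wt I a g k r z γ J u = true ↔
    Ver I k z = true ∧ idx I k z / 2 ^ r % 2 = 1 ∧ FamL I a g k (Bm I k r z) γ = true ∧
      CovL I a g k z (Bm I k r z) γ J = true ∧ bt J u = true ∧ u < UU (Bm I k r z) := by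
  simp [Wt, and_assoc]

lemma FamL_Fam {β γ : ℕ} (h : FamL I a g k β γ = true) : Fam I a g k β γ = true := by
  rw [FamL, Bool.and_eq_true] at h; exact h.1

lemma CovL_Cov {z β γ J : ℕ} (h : CovL I a g k z β γ J = true) : Cov I a g k z β γ J = true := by
  rw [CovL, Bool.and_eq_true] at h; exact h.1

/-- T4 for versions -/
lemma main4 (hfam : S_FAM) (hcov : S_COV) (hL : Legal I a g) {v z : ℕ} (hv : Ver I k v = true) (hz : Ver I k z = true)
    (hi : vi v ≠ vi z) (hlt : v < z) (hA : Agr I a g k z v = true) :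
    ∃ r < 2 * NN a g k, ∃ G, bt G v = true ∧ DynZ I a g k r (vi v) G z := by
  obtain ⟨r, hr, h1, h2⟩ := high_bit (2 * NN a g k) (idx I k v) (idx I k z) (idx_lt hlt hv) (idx_bound hL z)
  refine ⟨r, hr, ?_⟩
  have hvB : v ∈ els (Bm I k r z) := mem_block.2 (inB_iff.2 ⟨hv, hi, h2⟩)
  obtain ⟨γ, hγ⟩ := famL_exists (k := k) hfam hL r z
  obtain ⟨J, hJ⟩ := covL_exists hcov hL (r := r) hz (FamL_Fam hγ)
  obtain ⟨-, h4, -⟩ := Cov_iff.1 (CovL_Cov hJ)
  obtain ⟨p, hp, hvp⟩ := h4 ⟨v, hvB⟩ hA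
  rw [mem_gset] at hp
  rw [mem_RR] at hvp
  refine ⟨ct I (Bm I k r z) (p.1.1 * Bm I k r z + p.2.1), ?_, ?_, γ, J, _, ?_, rfl⟩
  · rw [bt_ct, grp, Bool.and_eq_true, un_div p.2.2, un_mod p.2.2]
    exact ⟨mem_els.1 hvB, hvp⟩
  · revert hi
    cases vi v <;> cases vi z <;> simp
  · exact Wt_iff.2 ⟨hz, h1, hγ, hJ, hp, un_lt p.1.2 p.2.2⟩

theorem t4 (hfam : S_FAM) (hcov : S_COV) : S_T4 := by
  intro I a g k hL x y s hs
  obtain ⟨v, z, hv, hz, hvi, hve, hzi, hze, hA, hA'⟩ := pair I a g k hL x y s hs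
  have hne : v ≠ z := by
    intro h
    rw [h, hzi] at hvi
    exact absurd hvi (by simp)
  rcases lt_or_gt_of_ne hne with h | h
  · obtain ⟨r, hr, G, h1, h2⟩ := main4 hfam hcov hL hv hz (by rw [hvi, hzi]; simp) h hA'
    rw [hvi] at h2
    exact ⟨r, hr, G, Or.inl ⟨⟨v, h1, hve⟩, ⟨z, hze, h2⟩⟩⟩
  · obtain ⟨r, hr, G, h1, h2⟩ := main4 hfam hcov hL hz hv (by rw [hvi, hzi]; simp) h hA
    rw [hzi] at h2
    exact ⟨r, hr, G, Or.inr ⟨⟨z, h1, hze⟩, ⟨v, hve, h2⟩⟩⟩

lemma gc_eq (β u : ℕ) : gc I β u = ((els β).filter fun v => prof I v (u / β) (u % β) = true).card := by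
  rw [gc]
  refine congrArg card ?_
  ext v
  rw [mem_filter, mem_filter, mem_els, grp, Bool.and_eq_true, mem_range]
  exact ⟨fun h => h.2, fun h => ⟨bt_lt h.1, h⟩⟩

theorem t3 : S_T3 := by
  intro I a g k hL r i G x h
  obtain ⟨z, hzx, hzi, γ, J, u, hW, rfl⟩ := h
  rw [Wt_iff] at hW
  set β := Bm I k r z with hβ
  have hu : u / β < 2 ^ β := by
    have hβ0 : 0 < β := by
      rcases Nat.eq_zero_or_pos β with h0 | h0
      · have := hW.2.2.2.2.2
        rw [h0] at this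
        simp [UU] at this
      · exact h0
    rw [Nat.div_lt_iff_lt_mul hβ0]
    exact hW.2.2.2.2.2
  have h1 := blk I a g k hL (!vi z) (els β) β (u / β) (u % β)
    (fun v hv => ⟨(block_ver hv).1, (block_ver hv).2, le_trans (vf_le v) (bt_lt (mem_els.1 hv)).le⟩) hu
  rw [sz_ct]
  rw [gc_eq]
  rw [hzi, Bool.not_not] at h1
  exact h1

/-- the additions of one version -/
lemma fiber2 {r v γ J u₀ : ℕ} (i : Bool) (hW₀ : Wt I a g k r v γ J u₀ = true) (F : Finset (ℕ × ℕ))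
    (hF : ∀ p ∈ F, p.2 = ve v ∧ DynZ I a g k r i p.1 v) :
    (F.card : ℝ) ≤ Ka a g k + Kb a g k * ((mz I v : ℝ) / 2 ^ v) := by
  rw [Wt_iff] at hW₀
  have h1 : F.card ≤ (gset (Bm I k r v) J).card := by
    have h2 : ∀ p ∈ F, ∃ q ∈ gset (Bm I k r v) J,
        p.1 = ct I (Bm I k r v) (q.1.1 * Bm I k r v + q.2.1) := by
      intro p hp
      obtain ⟨-, -, γ', J', u, hW, hG⟩ := hF p hp
      rw [Wt_iff] at hW
      have hγ : γ' = γ := FamL_unique hW.2.2.1 hW₀.2.2.1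
      rw [hγ] at hW
      have hJ : J' = J := CovL_unique hW.2.2.2.1 hW₀.2.2.2.1
      rw [hJ] at hW
      obtain ⟨q, hq1, hq2⟩ := (exists_un (fun u => bt J u = true ∧ p.1 = ct I (Bm I k r v) u)).1
        ⟨u, hW.2.2.2.2.2, hW.2.2.2.2.1, hG⟩
      exact ⟨q, mem_gset.2 hq1, hq2⟩
    have h3 : F ⊆ (gset (Bm I k r v) J).image (fun q => (ct I (Bm I k r v) (q.1.1 * Bm I k r v + q.2.1), ve v)) := by
      intro p hp
      obtain ⟨q, hq1, hq2⟩ := h2 p hp
      rw [mem_image]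
      exact ⟨q, hq1, Prod.ext hq2.symm (hF p hp).1.symm⟩
    exact le_trans (card_le_card h3) card_image_le
  have h5 := (Cov_iff.1 (CovL_Cov hW₀.2.2.2.1)).2.2
  generalize (gset (Bm I k r v) J).card = c at h1 h5
  generalize mz I v = m at h5 ⊢
  generalize Ka a g k = A at h5 ⊢
  generalize Kb a g k = B at h5 ⊢
  have h6 : (2 ^ v : ℝ) * (c : ℝ) ≤ A * 2 ^ v + B * m := by
    exact_mod_cast h5
  have h7 : (c : ℝ) ≤ A + B * ((m : ℝ) / 2 ^ v) := by
    have h8 : (0 : ℝ) < 2 ^ v := by positivity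
    have h9 : (A : ℝ) + B * ((m : ℝ) / 2 ^ v) = (A * 2 ^ v + B * m) / 2 ^ v := by
      field_simp
    rw [h9, le_div_iff₀ h8]
    linarith
  have h10 : (F.card : ℝ) ≤ c := by exact_mod_cast h1
  exact le_trans h10 h7

theorem t2 : S_T2 := by
  intro I a g k hL r i F hF
  have hch : ∀ p : ℕ × ℕ, ∃ z, p ∈ F → ve z = p.2 ∧ DynZ I a g k r i p.1 z := by
    intro p
    by_cases hp : p ∈ F
    · obtain ⟨z, hz⟩ := hF p hp
      exact ⟨z, fun _ => hz⟩
    · exact ⟨0, fun h => absurd h hp⟩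
  choose z hz using hch
  set Z := F.image z with hZ
  have hZv : ∀ v ∈ Z, Ver I k v = true ∧ vi v = !i := by
    intro v hv
    obtain ⟨p, hp, rfl⟩ := mem_image.1 hv
    obtain ⟨-, h1, γ, J, u, hW, -⟩ := hz p hp
    exact ⟨(Wt_iff.1 hW).1, h1⟩
  -- the fibers
  have hfib : ∀ v ∈ Z, ((F.filter fun p => z p = v).card : ℝ) ≤ Ka a g k + Kb a g k * ((mz I v : ℝ) / 2 ^ v) := by
    intro v hv
    obtain ⟨p₀, hp₀, h₀⟩ := mem_image.1 hv
    obtain ⟨-, -, γ, J, u₀, hW₀, -⟩ := hz p₀ hp₀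
    rw [h₀] at hW₀
    apply fiber2 i hW₀
    intro p hp
    rw [mem_filter] at hp
    have h1 := hz p hp.1
    rw [hp.2] at h1
    exact ⟨h1.1.symm, h1.2⟩
  have h1 : F.card = ∑ v ∈ Z, (F.filter fun p => z p = v).card :=
    card_eq_sum_card_fiberwise (fun p hp => mem_image_of_mem _ hp)
  have h2 : (F.card : ℝ) ≤ Ka a g k * Z.card + Kb a g k * ∑ v ∈ Z, (mz I v : ℝ) / 2 ^ v := by
    rw [h1]
    push_cast
    calc ∑ v ∈ Z, ((F.filter fun p => z p = v).card : ℝ)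
        ≤ ∑ v ∈ Z, (Ka a g k + Kb a g k * ((mz I v : ℝ) / 2 ^ v)) := sum_le_sum hfib
      _ = _ := by rw [sum_add_distrib, ← mul_sum, sum_const, nsmul_eq_mul]; ring
  have h3 := mass I a g k hL (!i) Z hZv
  have h4 := num I a g k hL (!i) Z hZv
  have h5 : (Z.card : ℝ) ≤ NN a g k * 2 ^ (k + 3) * 2 ^ (g + a (!i)) := by exact_mod_cast h4
  have h6 : (F.card : ℝ) ≤ ((Ka a g k * 2 ^ (k + 3) + Kb a g k) * NN a g k * 2 ^ (g + a (!i)) : ℕ) := by
    push_cast
    calc (F.card : ℝ) ≤ Ka a g k * Z.card + Kb a g k * ∑ v ∈ Z, (mz I v : ℝ) / 2 ^ v := h2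
      _ ≤ Ka a g k * (NN a g k * 2 ^ (k + 3) * 2 ^ (g + a (!i))) + Kb a g k * (NN a g k * 2 ^ (g + a (!i))) :=
        add_le_add (mul_le_mul_of_nonneg_left h5 (by positivity)) (mul_le_mul_of_nonneg_left h3 (by positivity))
      _ = _ := by ring
  exact_mod_cast h6

theorem t1 : S_T1 := by
  intro I a g k hL r i s F hF
  have hch : ∀ G : ℕ, ∃ p : ℕ × ℕ × ℕ × ℕ, G ∈ F → vi p.1 = !i ∧ Wt I a g k r p.1 p.2.1 p.2.2.1 p.2.2.2 = true ∧
      G = ct I (Bm I k r p.1) p.2.2.2 := by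
    intro G
    by_cases hG : G ∈ F
    · obtain ⟨⟨x, z, -, h1, γ, J, u, h2, h3⟩, -⟩ := hF G hG
      exact ⟨(z, γ, J, u), fun _ => ⟨h1, h2, h3⟩⟩
    · exact ⟨(0, 0, 0, 0), fun h => absurd h hG⟩
  choose p hp using hch
  let β : ℕ → ℕ := fun G => Bm I k r (p G).1
  set BB := F.image β with hBB
  -- each block
  have hblk : ∀ b ∈ BB, (∑ G ∈ F.filter (fun G => β G = b), (sz G : ℝ)) ≤
      2 * Pp a g k * ∑ v ∈ els b, (mz I v : ℝ) / 2 ^ v := by
    intro b hb
    obtain ⟨G₀, hG₀, h₀⟩ := mem_image.1 hb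
    obtain ⟨hi₀, hW₀, hc₀⟩ := hp G₀ hG₀
    rw [Wt_iff] at hW₀
    have hbe : Bm I k r (p G₀).1 = b := h₀
    rw [hbe] at hW₀
    set γ := (p G₀).2.1 with hγ
    have hFam := FamL_Fam hW₀.2.2.1
    -- the sum over the fiber
    have h1 : ∑ G ∈ F.filter (fun G => β G = b), sz G ≤ ∑ u ∈ range (UU b), (if bt γ u = true then gc I b u else 0) := by
      have h2 : ∀ G ∈ F.filter (fun G => β G = b), (p G).2.2.2 ∈ (range (UU b)).filter (fun u => bt γ u = true) ∧
          G = ct I b (p G).2.2.2 := by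
        intro G hG
        rw [mem_filter] at hG
        obtain ⟨hi, hW, hc⟩ := hp G hG.1
        rw [Wt_iff] at hW
        have hbG : Bm I k r (p G).1 = b := hG.2
        rw [hbG] at hW hc
        have hγ' : (p G).2.1 = γ := FamL_unique hW.2.2.1 hW₀.2.2.1
        rw [hγ'] at hW
        have hC := CovL_Cov hW.2.2.2.1
        rw [Cov, Bool.and_eq_true, Bool.and_eq_true, ball_iff] at hC
        have h3 := hC.1.1 _ hW.2.2.2.2.2
        rw [hW.2.2.2.2.1] at h3
        simp only [Bool.not_true, Bool.false_or] at h3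
        exact ⟨mem_filter.2 ⟨mem_range.2 hW.2.2.2.2.2, h3⟩, hc⟩
      rw [← sum_filter]
      calc ∑ G ∈ F.filter (fun G => β G = b), sz G
          = ∑ G ∈ F.filter (fun G => β G = b), gc I b (p G).2.2.2 := by
            apply sum_congr rfl
            intro G hG
            conv_lhs => rw [(h2 G hG).2]
            rw [sz_ct]
        _ = ∑ u ∈ (F.filter (fun G => β G = b)).image (fun G => (p G).2.2.2), gc I b u := by
            rw [sum_image]
            intro G hG G' hG' h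
            rw [(h2 G hG).2, (h2 G' hG').2]
            simp only at h
            rw [h]
        _ ≤ ∑ u ∈ (range (UU b)).filter (fun u => bt γ u = true), gc I b u := by
            apply sum_le_sum_of_subset
            intro u hu
            obtain ⟨G, hG, rfl⟩ := mem_image.1 hu
            exact (h2 G hG).1
    have h2 : 2 ^ b * ∑ u ∈ range (UU b), (if bt γ u = true then gc I b u else 0) ≤
        2 * Pp a g k * ∑ u ∈ range (UU b), gc I b u := by
      rw [Fam, Bool.and_eq_true, decide_eq_true_eq] at hFam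
      exact hFam.1
    have h3 : ∑ u ∈ range (UU b), gc I b u = ∑ v ∈ els b, mS I b v := by
      rw [UU, ← sum_un]
      have h4 : ∀ x : Fin (2 ^ b) × Fin b, gc I b (x.1.1 * b + x.2.1) =
          ∑ v ∈ els b, (if prof I v x.1.1 x.2.1 = true then 1 else 0) := by
        intro x
        rw [← card_RR, RR, card_sub (els b) (fun v => prof I v x.1.1 x.2.1 = true), card_filter]
      simp only [h4]
      rw [sum_comm]
      apply sum_congr rfl
      intro v hv
      rw [mS, Fintype.sum_prod_type, Finset.sum_range]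
      apply sum_congr rfl
      intro w _
      rw [card_filter, Finset.sum_range]
    have h4 : ∀ v ∈ els b, ((mS I b v : ℕ) : ℝ) = 2 ^ b * ((mz I v : ℝ) / 2 ^ v) := by
      intro v hv
      have hb' := (bt_lt (mem_els.1 hv)).le
      have h5 := mS_eq hL (v := v) (S := b) (le_trans (vf_le v) hb') (le_trans (vb_le v) hb')
      have h6 : (2 ^ v : ℝ) * (mS I b v : ℝ) = 2 ^ b * mz I v := by exact_mod_cast h5
      have h7 : (0 : ℝ) < 2 ^ v := by positivity
      field_simp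
      linarith
    have h5 : (2 ^ b : ℝ) * (∑ G ∈ F.filter (fun G => β G = b), (sz G : ℝ)) ≤
        2 ^ b * (2 * Pp a g k * ∑ v ∈ els b, (mz I v : ℝ) / 2 ^ v) := by
      have h6 : 2 ^ b * ∑ G ∈ F.filter (fun G => β G = b), sz G ≤ 2 * Pp a g k * ∑ v ∈ els b, mS I b v := by
        rw [← h3]
        exact le_trans (Nat.mul_le_mul_left _ h1) h2
      have h7 : (2 ^ b : ℝ) * (∑ G ∈ F.filter (fun G => β G = b), (sz G : ℝ)) ≤
          2 * Pp a g k * ∑ v ∈ els b, (mS I b v : ℝ) := by exact_mod_cast h6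
      refine le_trans h7 (le_of_eq ?_)
      rw [sum_congr rfl h4, ← mul_sum]
      ring
    exact le_of_mul_le_mul_left h5 (by positivity)
  -- disjointness of the blocks
  have hdis : (BB : Set ℕ).PairwiseDisjoint els := by
    intro b hb b' hb' hne
    rw [Function.onFun, disjoint_left]
    intro v hv hv'
    apply hne
    obtain ⟨G, hG, rfl⟩ := mem_image.1 hb
    obtain ⟨G', hG', rfl⟩ := mem_image.1 hb'
    exact block_eq (by rw [(hp G hG).1, (hp G' hG').1]) hv hv'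
  have h1 : (F.card * 2 ^ s : ℝ) ≤ 2 * Pp a g k * ∑ v ∈ BB.biUnion els, (mz I v : ℝ) / 2 ^ v := by
    calc (F.card * 2 ^ s : ℝ) = ∑ G ∈ F, (2 ^ s : ℝ) := by rw [sum_const, nsmul_eq_mul]
      _ ≤ ∑ G ∈ F, (sz G : ℝ) := by
        apply sum_le_sum
        intro G hG
        exact_mod_cast (hF G hG).2
      _ = ∑ b ∈ BB, ∑ G ∈ F.filter (fun G => β G = b), (sz G : ℝ) :=
        (sum_fiberwise_of_maps_to (fun G hG => mem_image_of_mem _ hG) _).symm
      _ ≤ ∑ b ∈ BB, 2 * Pp a g k * ∑ v ∈ els b, (mz I v : ℝ) / 2 ^ v := sum_le_sum hblk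
      _ = 2 * Pp a g k * ∑ v ∈ BB.biUnion els, (mz I v : ℝ) / 2 ^ v := by
        rw [sum_biUnion hdis, mul_sum]
  have h2 := mass I a g k hL i (BB.biUnion els) (by
    intro v hv
    obtain ⟨b, hb, hv⟩ := mem_biUnion.1 hv
    obtain ⟨G, hG, rfl⟩ := mem_image.1 hb
    have h3 := block_ver hv
    rw [(hp G hG).1, Bool.not_not] at h3
    exact h3)
  have h3 : (F.card * 2 ^ s : ℝ) ≤ ((2 * Pp a g k * NN a g k * 2 ^ (g + a i) : ℕ) : ℝ) := by
    push_cast
    calc (F.card * 2 ^ s : ℝ) ≤ 2 * Pp a g k * ∑ v ∈ BB.biUnion els, (mz I v : ℝ) / 2 ^ v := h1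
      _ ≤ 2 * Pp a g k * (NN a g k * 2 ^ (g + a i)) := mul_le_mul_of_nonneg_left h2 (by positivity)
      _ = _ := by ring
  exact_mod_cast h3

end

end Pool.Agent.H57GWR
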