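import Pool.Agent.H57GWR.PAIR

/-!
# Project GWR: bitmasks, blocks, translation of the families into numbers
-/

set_option autoImplicit false

namespace Pool.Agent.H57GWR

open Finset
open Pool.Agent.H166R3.AT (bex ball bex_iff ball_iff)

/-! ### Bitmasks -/

lemma bm_lt (p : ℕ → Bool) (z : ℕ) : ∑ v ∈ range z, (if p v = true then 2 ^ v else 0) < 2 ^ z := by
  induction z with
  | zero => simp
  | succ z ih =>
    rw [sum_range_succ, pow_succ]
    split_ifs <;> omega

lemma bt_iff {β v : ℕ} : bt β v = true ↔ β / 2 ^ v % 2 = 1 := by simp [bt]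

lemma bt_sum (p : ℕ → Bool) (z v : ℕ) :
    bt (∑ v ∈ range z, (if p v = true then 2 ^ v else 0)) v = true ↔ v < z ∧ p v = true := by
  induction z with
  | zero => simp [bt]
  | succ z ih =>
    rw [sum_range_succ]
    set A := ∑ v ∈ range z, (if p v = true then 2 ^ v else 0) with hA
    have hlt : A < 2 ^ z := bm_lt p z
    rw [bt_iff] at ih ⊢
    rcases lt_trichotomy v z with h | h | h
    · obtain ⟨d, rfl⟩ := Nat.exists_eq_add_of_lt h
      have h1 : (A + if p (v + d + 1) = true then 2 ^ (v + d + 1) else 0) / 2 ^ v % 2 = A / 2 ^ v % 2 := by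
        split_ifs with hp
        · have h2 : A + 2 ^ (v + d + 1) = A + 2 ^ v * (2 * 2 ^ d) := by rw [pow_add, pow_add]; ring
          rw [h2, Nat.add_mul_div_left _ _ (by positivity)]
          omega
        · rw [add_zero]
      rw [h1, ih]
      constructor
      · rintro ⟨a, b⟩; exact ⟨by omega, b⟩
      · rintro ⟨_, b⟩; exact ⟨h, b⟩
    · subst h
      split_ifs with hp
      · rw [Nat.add_div_right _ (by positivity), Nat.div_eq_of_lt hlt]
        simp [hp]
      · rw [add_zero, Nat.div_eq_of_lt hlt]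
        simp [hp]
    · have h1 : (A + if p z = true then 2 ^ z else 0) < 2 ^ v := by
        have h2 : 2 ^ (z + 1) ≤ 2 ^ v := Nat.pow_le_pow_right (by norm_num) h
        rw [pow_succ] at h2
        split_ifs <;> omega
      rw [Nat.div_eq_of_lt h1]
      constructor
      · intro h3; norm_num at h3
      · rintro ⟨h3, _⟩; omega

lemma bt_lt {β v : ℕ} (h : bt β v = true) : v < β := by
  rw [bt_iff] at h
  have h1 : β / 2 ^ v ≠ 0 := by
    intro h0; rw [h0] at h; norm_num at h
  have h2 : 2 ^ v ≤ β := by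
    by_contra hcon
    exact h1 (Nat.div_eq_of_lt (by omega))
  exact lt_of_lt_of_le Nat.lt_two_pow_self h2

/-- elements of a bitmask -/
def els (β : ℕ) : Finset ℕ := (range β).filter fun v => bt β v = true

lemma mem_els {β v : ℕ} : v ∈ els β ↔ bt β v = true := by
  rw [els, mem_filter, mem_range]
  exact ⟨fun h => h.2, fun h => ⟨bt_lt h, h⟩⟩

lemma sz_eq (G : ℕ) : sz G = (els G).card := rfl

section

variable {I : ℕ → ℕ → ℕ → Bool → ℕ → Bool} {a : Bool → ℕ} {g k : ℕ}

lemma bt_ct {β u v : ℕ} : bt (ct I β u) v = true ↔ grp I β u v = true := by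
  rw [ct, bt_sum]
  refine ⟨fun h => h.2, fun h => ⟨?_, h⟩⟩
  rw [grp, Bool.and_eq_true] at h
  exact bt_lt h.1

lemma sz_ct (β u : ℕ) : sz (ct I β u) = gc I β u := by
  rw [sz_eq, gc]
  congr 1
  ext v
  rw [mem_els, bt_ct, mem_filter, mem_range]
  refine ⟨fun h => ⟨?_, h⟩, fun h => h.2⟩
  rw [grp, Bool.and_eq_true] at h
  exact bt_lt h.1

lemma inB_iff {r z v : ℕ} : inB I k r z v = true ↔
    Ver I k v = true ∧ vi v ≠ vi z ∧ idx I k v / 2 ^ r + 1 = idx I k z / 2 ^ r := by
  simp [inB, and_assoc]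

lemma idx_mono {u v : ℕ} (h : u ≤ v) : idx I k u ≤ idx I k v := by
  apply card_le_card
  intro x hx
  rw [mem_filter, mem_range] at hx ⊢
  exact ⟨by omega, hx.2⟩

lemma idx_lt {u v : ℕ} (h : u < v) (hu : Ver I k u = true) : idx I k u < idx I k v := by
  apply card_lt_card
  rw [ssubset_iff_of_subset]
  · exact ⟨u, mem_filter.2 ⟨mem_range.2 h, hu⟩, fun h => by simp at h⟩
  · intro x hx
    rw [mem_filter, mem_range] at hx ⊢
    exact ⟨by omega, hx.2⟩

lemma inB_lt {r z v : ℕ} (h : inB I k r z v = true) : v < z := by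
  rw [inB_iff] at h
  by_contra hcon
  have h1 : idx I k z ≤ idx I k v := idx_mono (by omega)
  have h2 := Nat.div_le_div_right (c := 2 ^ r) h1
  omega

lemma mem_block {r z v : ℕ} : v ∈ els (Bm I k r z) ↔ inB I k r z v = true := by
  rw [mem_els, Bm, bt_sum]
  exact ⟨fun h => h.2, fun h => ⟨inB_lt h, h⟩⟩

lemma block_ver {r z v : ℕ} (h : v ∈ els (Bm I k r z)) : Ver I k v = true ∧ vi v = !vi z := by
  rw [mem_block, inB_iff] at h
  refine ⟨h.1, ?_⟩
  have := h.2.1
  revert this
  cases vi v <;> cases vi z <;> simp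

lemma block_eq {r z z' v : ℕ} (hi : vi z = vi z') (h : v ∈ els (Bm I k r z)) (h' : v ∈ els (Bm I k r z')) :
    Bm I k r z = Bm I k r z' := by
  rw [mem_block, inB_iff] at h h'
  have h1 : idx I k z / 2 ^ r = idx I k z' / 2 ^ r := by rw [← h.2.2, ← h'.2.2]
  have h2 : (range z).filter (fun v => inB I k r z v = true) = (range z').filter (fun v => inB I k r z' v = true) := by
    ext u
    rw [mem_filter, mem_filter, mem_range, mem_range]
    have h3 : inB I k r z u = true ↔ inB I k r z' u = true := by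
      rw [inB_iff, inB_iff, h1, hi]
    constructor
    · rintro ⟨_, h4⟩
      exact ⟨inB_lt (h3.1 h4), h3.1 h4⟩
    · rintro ⟨_, h4⟩
      exact ⟨inB_lt (h3.2 h4), h3.2 h4⟩
  rw [Bm, Bm, ← sum_filter, ← sum_filter, h2]

/-! ### The highest bit where two numbers differ -/

lemma high_bit (R : ℕ) : ∀ m n : ℕ, m < n → n < 2 ^ R → ∃ r < R, n / 2 ^ r % 2 = 1 ∧ m / 2 ^ r + 1 = n / 2 ^ r := by
  induction R with
  | zero => intro m n h1 h2; simp at h2; omega
  | succ R ih =>
    intro m n h1 h2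
    rcases (by omega : m / 2 = n / 2 ∨ m / 2 < n / 2) with h | h
    · refine ⟨0, Nat.succ_pos R, ?_, ?_⟩
      · rw [pow_zero, Nat.div_one]; omega
      · rw [pow_zero, Nat.div_one, Nat.div_one]; omega
    · rw [pow_succ] at h2
      obtain ⟨r, hr, h3, h4⟩ := ih (m / 2) (n / 2) h (by omega)
      refine ⟨r + 1, by omega, ?_, ?_⟩
      · rwa [pow_succ', ← Nat.div_div_eq_div_mul]
      · rwa [pow_succ', ← Nat.div_div_eq_div_mul, ← Nat.div_div_eq_div_mul]

/-! ### Numerical facts about the constants -/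

lemma ten_le_NN : 10 ≤ NN a g k := by unfold NN; omega

lemma two_pow_bound (i : Bool) : NN a g k * 2 ^ (k + 3) * 2 ^ (g + a i) ≤ 2 ^ (2 * NN a g k - 1) := by
  have h1 : NN a g k ≤ 2 ^ (NN a g k) := Nat.lt_two_pow_self.le
  have h2 : k + 3 + (g + a i) ≤ NN a g k - 1 := by
    unfold NN
    cases i <;> omega
  calc NN a g k * 2 ^ (k + 3) * 2 ^ (g + a i) = NN a g k * 2 ^ (k + 3 + (g + a i)) := by rw [pow_add 2 (k + 3)]; ring
    _ ≤ 2 ^ (NN a g k) * 2 ^ (NN a g k - 1) := Nat.mul_le_mul h1 (Nat.pow_le_pow_right (by norm_num) h2)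
    _ = 2 ^ (2 * NN a g k - 1) := by
      rw [← pow_add]
      congr 1
      have := ten_le_NN (a := a) (g := g) (k := k)
      omega

lemma two_pow_bound2 (i : Bool) : NN a g k * 2 ^ (k + 3) * 2 ^ (g + a i) < 2 ^ (2 * NN a g k - 1) := by
  have h1 : NN a g k < 2 ^ (NN a g k) := Nat.lt_two_pow_self
  have h2 : k + 3 + (g + a i) ≤ NN a g k - 1 := by
    unfold NN
    cases i <;> omega
  calc NN a g k * 2 ^ (k + 3) * 2 ^ (g + a i) = NN a g k * 2 ^ (k + 3 + (g + a i)) := by rw [pow_add 2 (k + 3)]; ring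
    _ < 2 ^ (NN a g k) * 2 ^ (k + 3 + (g + a i)) := Nat.mul_lt_mul_of_pos_right h1 (by positivity)
    _ ≤ 2 ^ (NN a g k) * 2 ^ (NN a g k - 1) := Nat.mul_le_mul_left _ (Nat.pow_le_pow_right (by norm_num) h2)
    _ = 2 ^ (2 * NN a g k - 1) := by
      rw [← pow_add]
      congr 1
      have := ten_le_NN (a := a) (g := g) (k := k)
      omega

lemma idx_bound (hL : Legal I a g) (z : ℕ) : idx I k z < 2 ^ (2 * NN a g k) := by
  have h1 : idx I k z ≤ ((range z).filter fun u => Ver I k u = true ∧ vi u = false).card +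
      ((range z).filter fun u => Ver I k u = true ∧ vi u = true).card := by
    refine le_trans (card_le_card ?_) (card_union_le _ _)
    intro u hu
    rw [mem_filter] at hu
    rw [mem_union, mem_filter, mem_filter]
    cases h : vi u
    · exact Or.inl ⟨hu.1, hu.2, rfl⟩
    · exact Or.inr ⟨hu.1, hu.2, rfl⟩
  have h2 := num I a g k hL false ((range z).filter fun u => Ver I k u = true ∧ vi u = false)
    (fun v hv => (mem_filter.1 hv).2)
  have h3 := num I a g k hL true ((range z).filter fun u => Ver I k u = true ∧ vi u = true)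
    (fun v hv => (mem_filter.1 hv).2)
  have h4 := two_pow_bound2 (a := a) (g := g) (k := k) false
  have h5 := two_pow_bound2 (a := a) (g := g) (k := k) true
  have h6 : 2 ^ (2 * NN a g k) = 2 ^ (2 * NN a g k - 1) + 2 ^ (2 * NN a g k - 1) := by
    have h7 : 2 * NN a g k = (2 * NN a g k - 1) + 1 := by
      have := ten_le_NN (a := a) (g := g) (k := k)
      omega
    conv_lhs => rw [h7, pow_succ]
    ring
  rw [h6]
  omega

lemma els_block_card (hL : Legal I a g) (r z : ℕ) : (els (Bm I k r z)).card ≤ 2 ^ (2 * NN a g k) := by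
  have h1 := num I a g k hL (!vi z) (els (Bm I k r z)) (fun v hv => block_ver hv)
  refine le_trans h1 (le_trans (two_pow_bound _) (Nat.pow_le_pow_right (by norm_num) (by omega)))

end

end Pool.Agent.H57GWR
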