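import Pool.Agent.H57GWR.Stm

/-!
# Project GWR, job COV: dyadic pigeonhole and greedy cover
-/

set_option autoImplicit false

namespace Pool.Agent.H57GWR

open Finset
open scoped Classical

namespace COV

/-- greedy cover -/
theorem greedy {W V : Type} (R : W → Finset V) (γ : Finset W) (K : ℕ) (hK : 2 ≤ K)
    (A : V → Prop)
    (h : ∀ S : Finset V, S.Nonempty → (∀ v ∈ S, A v) → ∃ u ∈ γ, S.card ≤ K * (R u ∩ S).card) :
    ∀ (r : ℕ) (S : Finset V), (∀ v ∈ S, A v) → S.card * (K - 1) ^ r < K ^ r →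
      ∃ J ⊆ γ, J.card ≤ r ∧ ∀ v ∈ S, ∃ u ∈ J, v ∈ R u := by
  intro r
  induction r with
  | zero =>
    intro S _ hc
    simp only [pow_zero, mul_one, Nat.lt_one_iff, Finset.card_eq_zero] at hc
    subst hc
    exact ⟨∅, Finset.empty_subset _, by simp, by simp⟩
  | succ r ih =>
    intro S hS hc
    by_cases hne : S.Nonempty
    · obtain ⟨u, hu, hcard⟩ := h S hne hS
      have h1 : (S \ R u).card + (R u ∩ S).card = S.card := by
        rw [Finset.inter_comm]
        exact Finset.card_sdiff_add_card_inter S (R u)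
      have h2 : K * (S \ R u).card ≤ (K - 1) * S.card := by
        obtain ⟨K', rfl⟩ : ∃ K', K = K' + 1 := ⟨K - 1, by omega⟩
        rw [Nat.add_sub_cancel]
        nlinarith
      have h3 : (S \ R u).card * (K - 1) ^ r < K ^ r := by
        have h4 : K * ((S \ R u).card * (K - 1) ^ r) < K * K ^ r := by
          calc K * ((S \ R u).card * (K - 1) ^ r) = (K * (S \ R u).card) * (K - 1) ^ r := by ring
            _ ≤ ((K - 1) * S.card) * (K - 1) ^ r := Nat.mul_le_mul_right _ h2
            _ = S.card * (K - 1) ^ (r + 1) := by ring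
            _ < K ^ (r + 1) := hc
            _ = K * K ^ r := by ring
        exact lt_of_mul_lt_mul_left h4 (Nat.zero_le _)
      obtain ⟨J, hJ, hJc, hJv⟩ := ih (S \ R u) (fun v hv => hS v (Finset.mem_sdiff.1 hv).1) h3
      refine ⟨insert u J, Finset.insert_subset hu hJ, (Finset.card_insert_le _ _).trans (by omega), ?_⟩
      intro v hv
      by_cases hvu : v ∈ R u
      · exact ⟨u, Finset.mem_insert_self _ _, hvu⟩
      · obtain ⟨u', hu', hv'⟩ := hJv v (Finset.mem_sdiff.2 ⟨hv, hvu⟩)
        exact ⟨u', Finset.mem_insert_of_mem hu', hv'⟩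
    · rw [Finset.not_nonempty_iff_eq_empty] at hne
      subst hne
      exact ⟨∅, Finset.empty_subset _, by simp, by simp⟩

theorem pow_bound (K : ℕ) (hK : 2 ≤ K) : 2 * (K - 1) ^ K ≤ K ^ K := by
  obtain ⟨k, rfl⟩ : ∃ k, K = k + 1 := ⟨K - 1, by omega⟩
  rw [Nat.add_sub_cancel]
  -- (k+1)^(k+1) ≥ k^(k+1) + (k+1) k^k
  have h1 : (k : ℕ) ^ (k + 1) + (k + 1) * k ^ k ≤ (k + 1) ^ (k + 1) := by
    have h2 := add_pow (k : ℕ) 1 (k + 1)
    rw [h2]
    have h3 : ∑ m ∈ ({k, k + 1} : Finset ℕ), k ^ m * 1 ^ (k + 1 - m) * (k + 1).choose m ≤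
        ∑ m ∈ range (k + 1 + 1), k ^ m * 1 ^ (k + 1 - m) * (k + 1).choose m := by
      refine Finset.sum_le_sum_of_subset ?_
      intro m hm
      simp only [Finset.mem_insert, Finset.mem_singleton] at hm
      rw [Finset.mem_range]
      omega
    rw [Finset.sum_pair (by omega)] at h3
    have h4 : (k + 1).choose k = k + 1 := by
      rw [Nat.choose_symm_of_eq_add (show k + 1 = k + 1 from rfl)]
      simp
    simp only [one_pow, mul_one, Nat.choose_self, h4, Nat.cast_id] at h3 ⊢
    refine le_trans (le_of_eq ?_) h3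
    ring
  calc 2 * k ^ (k + 1) = k ^ (k + 1) + k * k ^ k := by ring
    _ ≤ k ^ (k + 1) + (k + 1) * k ^ k := by nlinarith [Nat.zero_le (k ^ k)]
    _ ≤ _ := h1

theorem card_prod {A B : Type} [Fintype A] [Fintype B] (p : A × B → Prop) [DecidablePred p]
    [∀ a, DecidablePred fun b => p (a, b)] :
    (univ.filter p).card = ∑ a : A, (univ.filter fun b => p (a, b)).card := by
  simp_rw [Finset.card_filter]
  rw [Fintype.sum_prod_type]

end COV

open COV in
theorem cov : S_COV := by
  intro Ω Ω' Q V _ _ _ _ _ _ π R pz γ L ρ T D M hfib hγ hV hρ hT hD hM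
  set m := ∑ w', (pz w').card with hm
  set N' := Fintype.card Ω' with hN'
  have hN'pos : 0 < N' := Fintype.card_pos
  have hNpos : 0 < Fintype.card Ω := Fintype.card_pos
  -- the scale `i0`
  have hex : ∃ i, 2 * T * m ≤ 2 ^ i * N' := ⟨M, by nlinarith [Nat.zero_le (T * m)]⟩
  obtain ⟨i0, hi0, hi0M, hi0max⟩ : ∃ i0, 2 * T * m ≤ 2 ^ i0 * N' ∧ i0 ≤ M ∧
      (2 ^ i0 * N' ≤ N' + 4 * T * m) := by
    refine ⟨Nat.find hex, Nat.find_spec hex, ?_, ?_⟩
    · exact Nat.find_min' hex (by nlinarith [Nat.zero_le (T * m)])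
    · rcases Nat.eq_zero_or_pos (Nat.find hex) with h0 | h0
      · rw [h0]; nlinarith [Nat.zero_le (T * m)]
      · have h1 := Nat.find_min hex (m := Nat.find hex - 1) (by omega)
        rw [not_le] at h1
        have h2 : 2 ^ (Nat.find hex) = 2 * 2 ^ (Nat.find hex - 1) := by
          rw [← pow_succ']; congr 1; omega
        rw [h2]
        nlinarith
  set K := 2 * ρ * 2 ^ i0 with hK
  have hK2 : 2 ≤ K := by
    have : 1 ≤ 2 ^ i0 := Nat.one_le_two_pow
    rw [hK]; nlinarith
  -- the key step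
  have key : ∀ S : Finset V, S.Nonempty →
      (∀ v ∈ S, N' ≤ T * (univ.filter fun w' => ∃ q ∈ pz w', v ∈ R (π w') q).card) →
      ∃ u ∈ γ, S.card ≤ K * (R u.1 u.2 ∩ S).card := by
    intro S hS hSA
    have hSpos : 0 < S.card := Finset.card_pos.2 hS
    -- the pairs
    let pr : Finset (Ω' × Q) := univ.filter fun x => x.2 ∈ pz x.1
    have hprcard : pr.card = m := by
      rw [hm]
      show (univ.filter fun x : Ω' × Q => x.2 ∈ pz x.1).card = _
      rw [card_prod (fun x : Ω' × Q => x.2 ∈ pz x.1)]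
      refine Finset.sum_congr rfl fun w' _ => ?_
      congr 1
      ext q
      simp
    let a : Ω' × Q → ℕ := fun x => (R (π x.1) x.2 ∩ S).card
    have ha : ∀ x, a x ≤ S.card := fun x => Finset.card_le_card Finset.inter_subset_right
    -- the total
    have htot : S.card * N' ≤ T * ∑ x ∈ pr, a x := by
      have h1 : ∑ v ∈ S, (univ.filter fun w' => ∃ q ∈ pz w', v ∈ R (π w') q).card ≤ ∑ x ∈ pr, a x := by
        have h2 : ∑ x ∈ pr, a x = ∑ v ∈ S, (pr.filter fun x => v ∈ R (π x.1) x.2).card := by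
          have h3 : ∀ x, a x = ∑ v ∈ S, if v ∈ R (π x.1) x.2 then 1 else 0 := by
            intro x
            show (R (π x.1) x.2 ∩ S).card = _
            rw [← Finset.card_filter]
            congr 1
            ext v
            simp [and_comm]
          rw [Finset.sum_congr rfl fun x _ => h3 x, Finset.sum_comm]
          refine Finset.sum_congr rfl fun v _ => ?_
          rw [Finset.card_filter]
        rw [h2]
        refine Finset.sum_le_sum fun v _ => ?_
        have h4 : (univ.filter fun w' => ∃ q ∈ pz w', v ∈ R (π w') q) ⊆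
            (pr.filter fun x => v ∈ R (π x.1) x.2).image Prod.fst := by
          intro w' hw'
          rw [Finset.mem_filter] at hw'
          obtain ⟨_, q, hq, hv⟩ := hw'
          rw [Finset.mem_image]
          exact ⟨(w', q), by simp [pr, hq, hv], rfl⟩
        exact (Finset.card_le_card h4).trans Finset.card_image_le
      calc S.card * N' = ∑ v ∈ S, N' := by rw [Finset.sum_const, smul_eq_mul]
        _ ≤ ∑ v ∈ S, T * (univ.filter fun w' => ∃ q ∈ pz w', v ∈ R (π w') q).card :=
            Finset.sum_le_sum hSA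
        _ = T * ∑ v ∈ S, (univ.filter fun w' => ∃ q ∈ pz w', v ∈ R (π w') q).card := by
            rw [Finset.mul_sum]
        _ ≤ _ := Nat.mul_le_mul_left _ h1
    -- high pairs
    have hhigh : S.card * N' ≤ 2 * T * ∑ x ∈ pr.filter (fun x => S.card ≤ 2 ^ i0 * a x), a x := by
      have h1 : ∑ x ∈ pr, a x = ∑ x ∈ pr.filter (fun x => S.card ≤ 2 ^ i0 * a x), a x +
          ∑ x ∈ pr.filter (fun x => ¬ S.card ≤ 2 ^ i0 * a x), a x :=
        (Finset.sum_filter_add_sum_filter_not _ _ _).symm
      have h2 : 2 ^ i0 * ∑ x ∈ pr.filter (fun x => ¬ S.card ≤ 2 ^ i0 * a x), a x ≤ m * S.card := by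
        rw [Finset.mul_sum]
        refine (Finset.sum_le_sum (g := fun _ => S.card) fun x hx => ?_).trans ?_
        · rw [Finset.mem_filter] at hx
          exact le_of_lt (not_le.1 hx.2)
        · rw [Finset.sum_const, smul_eq_mul, ← hprcard]
          exact Nat.mul_le_mul_right _ (Finset.card_filter_le _ _)
      have h3 : 2 * T * ∑ x ∈ pr.filter (fun x => ¬ S.card ≤ 2 ^ i0 * a x), a x ≤ S.card * N' := by
        have h4 : 2 ^ i0 * (2 * T * ∑ x ∈ pr.filter (fun x => ¬ S.card ≤ 2 ^ i0 * a x), a x) ≤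
            2 ^ i0 * (S.card * N') := by
          calc _ = 2 * T * (2 ^ i0 * ∑ x ∈ pr.filter (fun x => ¬ S.card ≤ 2 ^ i0 * a x), a x) := by ring
            _ ≤ 2 * T * (m * S.card) := Nat.mul_le_mul_left _ h2
            _ = (2 * T * m) * S.card := by ring
            _ ≤ (2 ^ i0 * N') * S.card := Nat.mul_le_mul_right _ hi0
            _ = _ := by ring
        exact le_of_mul_le_mul_left h4 (by positivity)
      nlinarith
    -- dyadic pigeonhole
    let N : ℕ → ℕ := fun i => (pr.filter fun x => S.card ≤ 2 ^ i * a x).card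
    have hdy : 2 ^ i0 * ∑ x ∈ pr.filter (fun x => S.card ≤ 2 ^ i0 * a x), a x ≤
        ∑ i ∈ range (i0 + 1), 2 ^ (i0 - i) * (N i * (2 * S.card)) := by
      have h1 : ∀ x ∈ pr.filter (fun x => S.card ≤ 2 ^ i0 * a x),
          2 ^ i0 * a x ≤ ∑ i ∈ range (i0 + 1), if S.card ≤ 2 ^ i * a x then 2 ^ (i0 - i) * (2 * S.card) else 0 := by
        intro x hx
        rw [Finset.mem_filter] at hx
        have hexi : ∃ i, S.card ≤ 2 ^ i * a x := ⟨i0, hx.2⟩
        have hj := Nat.find_spec hexi
        have hj0 : Nat.find hexi ≤ i0 := Nat.find_min' hexi hx.2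
        have hj2 : 2 ^ (Nat.find hexi) * a x ≤ 2 * S.card := by
          rcases Nat.eq_zero_or_pos (Nat.find hexi) with h0 | h0
          · rw [h0]; have := ha x; omega
          · have h1 := Nat.find_min hexi (m := Nat.find hexi - 1) (by omega)
            rw [not_le] at h1
            have h2 : 2 ^ (Nat.find hexi) = 2 * 2 ^ (Nat.find hexi - 1) := by
              rw [← pow_succ']; congr 1; omega
            rw [h2]
            nlinarith
        refine le_trans ?_ (Finset.single_le_sum (f := fun i => if S.card ≤ 2 ^ i * a x then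
          2 ^ (i0 - i) * (2 * S.card) else 0) (fun i _ => Nat.zero_le _)
          (Finset.mem_range.2 (Nat.lt_succ_of_le hj0)))
        rw [if_pos hj]
        calc 2 ^ i0 * a x = 2 ^ (i0 - Nat.find hexi) * (2 ^ (Nat.find hexi) * a x) := by
              rw [← mul_assoc, ← pow_add]; congr 2; omega
          _ ≤ _ := Nat.mul_le_mul_left _ hj2
      rw [Finset.mul_sum]
      refine (Finset.sum_le_sum h1).trans ?_
      rw [Finset.sum_comm]
      refine Finset.sum_le_sum fun i _ => ?_
      rw [← Finset.sum_filter, Finset.sum_const, smul_eq_mul]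
      have h2 : ((pr.filter (fun x => S.card ≤ 2 ^ i0 * a x)).filter
          (fun x => S.card ≤ 2 ^ i * a x)).card ≤ N i :=
        Finset.card_le_card (by
          intro x hx
          rw [Finset.mem_filter, Finset.mem_filter] at hx
          exact Finset.mem_filter.2 ⟨hx.1.1, hx.2⟩)
      calc _ ≤ N i * (2 ^ (i0 - i) * (2 * S.card)) := Nat.mul_le_mul_right _ h2
        _ = _ := by ring
    obtain ⟨i, hi, hNi⟩ : ∃ i ≤ i0, 2 ^ i * N' ≤ 4 * T * (i0 + 1) * N i := by
      by_contra hcon
      push Not at hcon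
      have h1 : ∑ i ∈ range (i0 + 1), 2 ^ (i0 - i) * (N i * (2 * S.card)) * (2 * T * (i0 + 1)) <
          ∑ i ∈ range (i0 + 1), 2 ^ i0 * (N' * S.card) := by
        refine Finset.sum_lt_sum_of_nonempty (by simp) fun i hi => ?_
        have hi' : i ≤ i0 := by have := Finset.mem_range.1 hi; omega
        have h2 := hcon i hi'
        calc 2 ^ (i0 - i) * (N i * (2 * S.card)) * (2 * T * (i0 + 1)) =
            2 ^ (i0 - i) * S.card * (4 * T * (i0 + 1) * N i) := by ring
          _ < 2 ^ (i0 - i) * S.card * (2 ^ i * N') :=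
              Nat.mul_lt_mul_of_pos_left h2 (by positivity)
          _ = (2 ^ (i0 - i) * 2 ^ i) * (N' * S.card) := by ring
          _ = 2 ^ i0 * (N' * S.card) := by
              rw [← pow_add]; congr 2; omega
      rw [Finset.sum_const, Finset.card_range, smul_eq_mul, ← Finset.sum_mul] at h1
      have h3 : (2 ^ i0 * ∑ x ∈ pr.filter (fun x => S.card ≤ 2 ^ i0 * a x), a x) * (2 * T * (i0 + 1)) <
          (i0 + 1) * (2 ^ i0 * (N' * S.card)) := lt_of_le_of_lt (Nat.mul_le_mul_right _ hdy) h1
      have h4 : (i0 + 1) * (2 ^ i0 * (N' * S.card)) ≤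
          (2 ^ i0 * ∑ x ∈ pr.filter (fun x => S.card ≤ 2 ^ i0 * a x), a x) * (2 * T * (i0 + 1)) := by
        calc (i0 + 1) * (2 ^ i0 * (N' * S.card)) = (i0 + 1) * 2 ^ i0 * (S.card * N') := by ring
          _ ≤ (i0 + 1) * 2 ^ i0 * (2 * T * ∑ x ∈ pr.filter (fun x => S.card ≤ 2 ^ i0 * a x), a x) :=
              Nat.mul_le_mul_left _ hhigh
          _ = _ := by ring
      omega
    -- pass to `Ω × Q`
    have hNN : N i * Fintype.card Ω ≤
        N' * (univ.filter fun u : Ω × Q => S.card ≤ 2 ^ i * (R u.1 u.2 ∩ S).card).card := by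
      have h1 : N i ≤ ∑ w' : Ω', (univ.filter fun q : Q => S.card ≤ 2 ^ i * (R (π w') q ∩ S).card).card := by
        have h2 : (pr.filter fun x => S.card ≤ 2 ^ i * a x) ⊆
            (univ.filter fun x : Ω' × Q => S.card ≤ 2 ^ i * (R (π x.1) x.2 ∩ S).card) := by
          intro x hx
          rw [Finset.mem_filter] at hx ⊢
          exact ⟨Finset.mem_univ _, hx.2⟩
        refine (Finset.card_le_card h2).trans ?_
        rw [card_prod (fun x : Ω' × Q => S.card ≤ 2 ^ i * (R (π x.1) x.2 ∩ S).card)]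
      have h3 : ∑ w' : Ω', (univ.filter fun q : Q => S.card ≤ 2 ^ i * (R (π w') q ∩ S).card).card =
          ∑ w : Ω, (univ.filter fun w' => π w' = w).card *
            (univ.filter fun q : Q => S.card ≤ 2 ^ i * (R w q ∩ S).card).card := by
        rw [← Finset.sum_fiberwise (s := univ) (g := π)]
        refine Finset.sum_congr rfl fun w _ => ?_
        rw [← smul_eq_mul, ← Finset.sum_const]
        refine Finset.sum_congr rfl fun w' hw' => ?_
        rw [(Finset.mem_filter.1 hw').2]
      have h4 : (univ.filter fun u : Ω × Q => S.card ≤ 2 ^ i * (R u.1 u.2 ∩ S).card).card =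
          ∑ w : Ω, (univ.filter fun q : Q => S.card ≤ 2 ^ i * (R w q ∩ S).card).card := by
        rw [card_prod (fun x : Ω × Q => S.card ≤ 2 ^ i * (R x.1 x.2 ∩ S).card)]
      rw [h3] at h1
      calc N i * Fintype.card Ω ≤ (∑ w : Ω, (univ.filter fun w' => π w' = w).card *
            (univ.filter fun q : Q => S.card ≤ 2 ^ i * (R w q ∩ S).card).card) * Fintype.card Ω :=
            Nat.mul_le_mul_right _ h1
        _ = ∑ w : Ω, N' * (univ.filter fun q : Q => S.card ≤ 2 ^ i * (R w q ∩ S).card).card := by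
            rw [Finset.sum_mul]
            refine Finset.sum_congr rfl fun w _ => ?_
            rw [← hfib w]; ring
        _ = _ := by rw [h4, Finset.mul_sum]
    have hfin : 2 ^ i * Fintype.card Ω ≤
        D * (univ.filter fun u : Ω × Q => S.card ≤ 2 ^ i * (R u.1 u.2 ∩ S).card).card := by
      have h1 : N' * (2 ^ i * Fintype.card Ω) ≤
          N' * (D * (univ.filter fun u : Ω × Q => S.card ≤ 2 ^ i * (R u.1 u.2 ∩ S).card).card) := by
        calc N' * (2 ^ i * Fintype.card Ω) = (2 ^ i * N') * Fintype.card Ω := by ring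
          _ ≤ (4 * T * (i0 + 1) * N i) * Fintype.card Ω := Nat.mul_le_mul_right _ hNi
          _ ≤ (D * N i) * Fintype.card Ω := by
              refine Nat.mul_le_mul_right _ (Nat.mul_le_mul_right _ ?_)
              refine le_trans ?_ hD
              exact Nat.mul_le_mul_left _ (by omega)
          _ = D * (N i * Fintype.card Ω) := by ring
          _ ≤ D * (N' * (univ.filter fun u : Ω × Q => S.card ≤ 2 ^ i * (R u.1 u.2 ∩ S).card).card) :=
              Nat.mul_le_mul_left _ hNN
          _ = _ := by ring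
      exact le_of_mul_le_mul_left h1 hN'pos
    obtain ⟨u, hu, hcu⟩ := hγ S hS i (by omega) hfin
    refine ⟨u, hu, hcu.trans ?_⟩
    rw [hK]
    refine Nat.mul_le_mul_right _ (Nat.mul_le_mul_left _ ?_)
    exact Nat.pow_le_pow_right (by norm_num) hi
  -- greedy
  let A : V → Prop := fun v => N' ≤ T * (univ.filter fun w' => ∃ q ∈ pz w', v ∈ R (π w') q).card
  have hgr := greedy (fun u : Ω × Q => R u.1 u.2) γ K hK2 A (fun S hS hSA => key S hS hSA)
    (K * L + 1) (univ.filter A) (fun v hv => (Finset.mem_filter.1 hv).2) ?_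
  · obtain ⟨J, hJ, hJc, hJv⟩ := hgr
    refine ⟨J, hJ, fun v hv => hJv v (Finset.mem_filter.2 ⟨Finset.mem_univ _, hv⟩), ?_⟩
    have h1 : N' * J.card ≤ N' * (K * L + 1) := Nat.mul_le_mul_left _ hJc
    have h2 : N' * K ≤ 2 * ρ * (N' + 4 * T * m) := by
      rw [hK]
      calc N' * (2 * ρ * 2 ^ i0) = 2 * ρ * (2 ^ i0 * N') := by ring
        _ ≤ _ := Nat.mul_le_mul_left _ hi0max
    calc N' * J.card ≤ N' * (K * L + 1) := h1
      _ = (N' * K) * L + N' := by ring
      _ ≤ (2 * ρ * (N' + 4 * T * m)) * L + N' := by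
          exact Nat.add_le_add_right (Nat.mul_le_mul_right _ h2) _
      _ = (1 + 2 * ρ * L) * N' + 8 * ρ * L * T * m := by ring
      _ ≤ (2 + 2 * ρ * L) * N' + 8 * ρ * L * T * m := by
          refine Nat.add_le_add_right (Nat.mul_le_mul_right _ ?_) _
          omega
  · have h1 : (univ.filter A).card ≤ 2 ^ L := (Finset.card_le_univ _).trans hV
    have h2 : 2 ^ L * (K - 1) ^ (K * L) ≤ K ^ (K * L) := by
      rw [pow_mul (K - 1) K L, pow_mul K K L, ← mul_pow]
      exact Nat.pow_le_pow_left (pow_bound K hK2) L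
    calc (univ.filter A).card * (K - 1) ^ (K * L + 1) ≤ 2 ^ L * (K - 1) ^ (K * L + 1) :=
          Nat.mul_le_mul_right _ h1
      _ = (2 ^ L * (K - 1) ^ (K * L)) * (K - 1) := by rw [pow_succ]; ring
      _ ≤ K ^ (K * L) * (K - 1) := Nat.mul_le_mul_right _ h2
      _ < K ^ (K * L) * K := Nat.mul_lt_mul_of_pos_left (by omega) (by positivity)
      _ = K ^ (K * L + 1) := by rw [pow_succ]

end Pool.Agent.H57GWR
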