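import Pool.Agent.H57GWR.Stm2

/-!
# Project GWR: DYNRE
-/

set_option autoImplicit false

namespace Pool.Agent.H57GWR

open Finset
open Pool.Agent.H166R3.AT

section

variable {α : Type} [Primcodable α]

lemma c_bne {f g : α → Bool} (hf : Computable f) (hg : Computable g) : Computable (fun x => f x != g x) :=
  (c_not (c_eq hf hg)).of_eq fun x => by cases f x <;> cases g x <;> rfl

lemma k_vi {v : α → ℕ} (hv : Computable v) : Computable (fun x => vi (v x)) := by
  unfold vi
  exact c_eq (c_mod hv (Computable.const 2)) (Computable.const 1)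

lemma k_half {v : α → ℕ} (hv : Computable v) : Computable (fun x => v x / 2) := c_div hv (Computable.const 2)

lemma k_ve {v : α → ℕ} (hv : Computable v) : Computable (fun x => ve (v x)) := by
  unfold ve
  have := k_half hv
  fun_prop

lemma k_vj {v : α → ℕ} (hv : Computable v) : Computable (fun x => vj (v x)) := by
  unfold vj
  have := k_half hv
  fun_prop

lemma k_vl {v : α → ℕ} (hv : Computable v) : Computable (fun x => vl (v x)) := by
  unfold vl
  have := k_half hv
  fun_prop

lemma k_vb {v : α → ℕ} (hv : Computable v) : Computable (fun x => vb (v x)) := by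
  unfold vb
  have := k_half hv
  fun_prop

lemma k_vf {v : α → ℕ} (hv : Computable v) : Computable (fun x => vf (v x)) := by
  unfold vf
  have := k_half hv
  fun_prop

lemma k_bt {β v : α → ℕ} (hβ : Computable β) (hv : Computable v) : Computable (fun x => bt (β x) (v x)) := by
  unfold bt
  exact c_eq (c_mod (c_div hβ (c_pow (Computable.const 2) hv)) (Computable.const 2)) (Computable.const 1)

lemma k_sc {β σ : α → ℕ} (hβ : Computable β) (hσ : Computable σ) : Computable (fun x => sc (β x) (σ x)) := by
  unfold sc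
  refine c_count (n := β) (f := fun x v => bt (β x) v && bt (σ x) v) hβ ?_
  exact c_and (k_bt (hβ.comp Computable.fst) Computable.snd) (k_bt (hσ.comp Computable.fst) Computable.snd)

lemma k_UU {β : α → ℕ} (hβ : Computable β) : Computable (fun x => UU (β x)) := by
  unfold UU
  exact c_mul (c_pow (Computable.const 2) hβ) hβ

/-! ### The constants -/

lemma k_pa0 {P : α → Par} (hP : Computable P) : Computable (fun x => pa (P x) false) := by
  simp only [pa, Bool.false_eq_true, if_false]
  fun_prop

lemma k_pa1 {P : α → Par} (hP : Computable P) : Computable (fun x => pa (P x) true) := by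
  simp only [pa, if_true]
  fun_prop

lemma k_pg {P : α → Par} (hP : Computable P) : Computable (fun x => pg (P x)) := by
  unfold pg
  fun_prop

lemma k_pk {P : α → Par} (hP : Computable P) : Computable (fun x => pk (P x)) := by
  unfold pk
  fun_prop

lemma k_NN {P : α → Par} (hP : Computable P) : Computable (fun x => NN (pa (P x)) (pg (P x)) (pk (P x))) := by
  unfold NN
  exact c_add (c_add (c_add (c_add (k_pa0 hP) (k_pa1 hP)) (k_pg hP)) (k_pk hP)) (Computable.const 10)

lemma k_2k {P : α → Par} (hP : Computable P) : Computable (fun x => 2 ^ (pk (P x))) :=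
  c_pow (Computable.const 2) (k_pk hP)

lemma k_Th {P : α → Par} (hP : Computable P) : Computable (fun x => Th (pa (P x)) (pg (P x)) (pk (P x))) := by
  unfold Th
  exact c_mul (c_pow (Computable.const 2) (c_add (k_pk hP) (Computable.const 1))) (c_pow (k_NN hP) (Computable.const 2))

lemma k_Dn {P : α → Par} (hP : Computable P) : Computable (fun x => Dn (pa (P x)) (pg (P x)) (pk (P x))) := by
  unfold Dn
  exact c_mul (k_2k hP) (c_pow (k_NN hP) (Computable.const 5))

lemma k_Ro {P : α → Par} (hP : Computable P) : Computable (fun x => Ro (pa (P x)) (pg (P x)) (pk (P x))) := by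
  unfold Ro
  exact c_mul (Computable.const 40) (k_NN hP)

lemma k_Im {P : α → Par} (hP : Computable P) : Computable (fun x => Im (pa (P x)) (pg (P x)) (pk (P x))) := by
  unfold Im
  exact c_mul (Computable.const 4) (k_NN hP)

lemma k_Pp {P : α → Par} (hP : Computable P) : Computable (fun x => Pp (pa (P x)) (pg (P x)) (pk (P x))) := by
  unfold Pp
  exact c_mul (k_2k hP) (c_pow (k_NN hP) (Computable.const 13))

lemma k_Ka {P : α → Par} (hP : Computable P) : Computable (fun x => Ka (pa (P x)) (pg (P x)) (pk (P x))) := by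
  unfold Ka
  exact c_pow (k_NN hP) (Computable.const 5)

lemma k_Kb {P : α → Par} (hP : Computable P) : Computable (fun x => Kb (pa (P x)) (pg (P x)) (pk (P x))) := by
  unfold Kb
  exact c_mul (k_2k hP) (c_pow (k_NN hP) (Computable.const 8))

end

section

variable {In : Par → ℕ → ℕ → ℕ → Bool → ℕ → Bool}
  (hIn : Computable (fun t : Par × ℕ × ℕ × ℕ × Bool × ℕ => In t.1 t.2.1 t.2.2.1 t.2.2.2.1 t.2.2.2.2.1 t.2.2.2.2.2))

include hIn

lemma k_In {α : Type} [Primcodable α] {P : α → Par} {s w q : α → ℕ} {i : α → Bool} {e : α → ℕ} (hP : Computable P)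
    (hs : Computable s) (hw : Computable w) (hq : Computable q) (hi : Computable i) (he : Computable e) :
    Computable (fun x => In (P x) (s x) (w x) (q x) (i x) (e x)) :=
  hIn.comp (hP.pair (hs.pair (hw.pair (hq.pair (hi.pair he)))))

lemma k_cnt {α : Type} [Primcodable α] {P : α → Par} {s : α → ℕ} {i : α → Bool} {e : α → ℕ} (hP : Computable P)
    (hs : Computable s) (hi : Computable i) (he : Computable e) :
    Computable (fun x => cnt (In (P x)) (s x) (i x) (e x)) := by
  unfold cnt
  refine c_sum (n := fun x => 2 ^ s x)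
    (f := fun x w => ((range (s x)).filter fun q => In (P x) (s x) w q (i x) (e x) = true).card)
    (c_pow (Computable.const 2) hs) ?_
  refine c_count (n := fun p : α × ℕ => s p.1) (f := fun p q => In (P p.1) (s p.1) p.2 q (i p.1) (e p.1))
    (hs.comp Computable.fst) ?_
  exact k_In hIn (by fun_prop) (by fun_prop) (by fun_prop) (by fun_prop) (by fun_prop) (by fun_prop)

lemma k_rch {α : Type} [Primcodable α] {P : α → Par} {n s : α → ℕ} {i : α → Bool} {e : α → ℕ} (hP : Computable P)
    (hn : Computable n) (hs : Computable s) (hi : Computable i) (he : Computable e) :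
    Computable (fun x => rch (In (P x)) (pk (P x)) (n x) (s x) (i x) (e x)) := by
  unfold rch
  exact c_le (c_mul hn (c_pow (Computable.const 2) hs))
    (c_mul (k_cnt hIn hP hs hi he) (c_pow (Computable.const 2) (c_add (k_pk hP) (Computable.const 3))))

lemma k_fst {α : Type} [Primcodable α] {P : α → Par} {n s : α → ℕ} {i : α → Bool} {e : α → ℕ} (hP : Computable P)
    (hn : Computable n) (hs : Computable s) (hi : Computable i) (he : Computable e) :
    Computable (fun x => fst (In (P x)) (pk (P x)) (n x) (s x) (i x) (e x)) := by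
  unfold fst
  refine c_and (k_rch hIn hP hn hs hi he) ?_
  refine c_ball (n := s) (f := fun x s' => !rch (In (P x)) (pk (P x)) (n x) s' (i x) (e x)) hs ?_
  exact c_not (k_rch hIn (by fun_prop) (by fun_prop) (by fun_prop) (by fun_prop) (by fun_prop))

lemma k_Ver {α : Type} [Primcodable α] {P : α → Par} {v : α → ℕ} (hP : Computable P) (hv : Computable v) :
    Computable (fun x => Ver (In (P x)) (pk (P x)) (v x)) := by
  unfold Ver
  exact c_and
    (k_fst hIn hP (c_mul (c_add (k_vl hv) (Computable.const 1)) (c_pow (Computable.const 2) (k_vj hv)))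
      (k_vf hv) (k_vi hv) (k_ve hv))
    (k_fst hIn hP (c_mul (k_vl hv) (c_pow (Computable.const 2) (k_vj hv))) (k_vb hv) (k_vi hv) (k_ve hv))

lemma k_prof {α : Type} [Primcodable α] {P : α → Par} {v w q : α → ℕ} (hP : Computable P) (hv : Computable v)
    (hw : Computable w) (hq : Computable q) : Computable (fun x => prof (In (P x)) (v x) (w x) (q x)) := by
  unfold prof
  exact c_and
    (k_In hIn hP (k_vf hv) (c_mod hw (c_pow (Computable.const 2) (k_vf hv))) hq (k_vi hv) (k_ve hv))
    (c_not (k_In hIn hP (k_vb hv) (c_mod hw (c_pow (Computable.const 2) (k_vb hv))) hq (k_vi hv) (k_ve hv)))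

lemma k_idx {α : Type} [Primcodable α] {P : α → Par} {v : α → ℕ} (hP : Computable P) (hv : Computable v) :
    Computable (fun x => idx (In (P x)) (pk (P x)) (v x)) := by
  unfold idx
  refine c_count (n := v) (f := fun x u => Ver (In (P x)) (pk (P x)) u) hv ?_
  exact k_Ver hIn (by fun_prop) (by fun_prop)

lemma k_inB {α : Type} [Primcodable α] {P : α → Par} {r z v : α → ℕ} (hP : Computable P) (hr : Computable r)
    (hz : Computable z) (hv : Computable v) : Computable (fun x => inB (In (P x)) (pk (P x)) (r x) (z x) (v x)) := by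
  unfold inB
  exact c_and (c_and (k_Ver hIn hP hv) (c_bne (k_vi hv) (k_vi hz)))
    (c_eq (c_add (c_div (k_idx hIn hP hv) (c_pow (Computable.const 2) hr)) (Computable.const 1))
      (c_div (k_idx hIn hP hz) (c_pow (Computable.const 2) hr)))

lemma k_Bm {α : Type} [Primcodable α] {P : α → Par} {r z : α → ℕ} (hP : Computable P) (hr : Computable r)
    (hz : Computable z) : Computable (fun x => Bm (In (P x)) (pk (P x)) (r x) (z x)) := by
  unfold Bm
  refine c_sum (n := z) (f := fun x v => if inB (In (P x)) (pk (P x)) (r x) (z x) v = true then 2 ^ v else 0) hz ?_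
  exact c_ite (k_inB hIn (by fun_prop) (by fun_prop) (by fun_prop) (by fun_prop))
    (c_pow (Computable.const 2) Computable.snd) (Computable.const 0)

lemma k_grp {α : Type} [Primcodable α] {P : α → Par} {β u v : α → ℕ} (hP : Computable P) (hβ : Computable β)
    (hu : Computable u) (hv : Computable v) : Computable (fun x => grp (In (P x)) (β x) (u x) (v x)) := by
  unfold grp
  exact c_and (k_bt hβ hv) (k_prof hIn hP hv (c_div hu hβ) (c_mod hu hβ))

lemma k_gc {α : Type} [Primcodable α] {P : α → Par} {β u : α → ℕ} (hP : Computable P) (hβ : Computable β)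
    (hu : Computable u) : Computable (fun x => gc (In (P x)) (β x) (u x)) := by
  unfold gc
  refine c_count (n := β) (f := fun x v => grp (In (P x)) (β x) (u x) v) hβ ?_
  exact k_grp hIn (by fun_prop) (by fun_prop) (by fun_prop) (by fun_prop)

lemma k_gcS {α : Type} [Primcodable α] {P : α → Par} {β σ u : α → ℕ} (hP : Computable P) (hβ : Computable β)
    (hσ : Computable σ) (hu : Computable u) : Computable (fun x => gcS (In (P x)) (β x) (σ x) (u x)) := by
  unfold gcS
  refine c_count (n := β) (f := fun x v => (grp (In (P x)) (β x) (u x) v && bt (σ x) v)) hβ ?_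
  exact c_and (k_grp hIn (by fun_prop) (by fun_prop) (by fun_prop) (by fun_prop))
    (k_bt (hσ.comp Computable.fst) Computable.snd)

lemma k_Fam {α : Type} [Primcodable α] {P : α → Par} {β γ : α → ℕ} (hP : Computable P) (hβ : Computable β)
    (hγ : Computable γ) : Computable (fun x => Fam (In (P x)) (pa (P x)) (pg (P x)) (pk (P x)) (β x) (γ x)) := by
  unfold Fam
  refine c_and (c_le (c_mul (c_pow (Computable.const 2) hβ) ?_) (c_mul (c_mul (Computable.const 2) (k_Pp hP)) ?_)) ?_
  · refine c_sum (n := fun x => UU (β x)) (f := fun x u => if bt (γ x) u = true then gc (In (P x)) (β x) u else 0)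
      (k_UU hβ) ?_
    exact c_ite (k_bt (hγ.comp Computable.fst) Computable.snd)
      (k_gc hIn (by fun_prop) (by fun_prop) (by fun_prop)) (Computable.const 0)
  · refine c_sum (n := fun x => UU (β x)) (f := fun x u => gc (In (P x)) (β x) u) (k_UU hβ) ?_
    exact k_gc hIn (by fun_prop) (by fun_prop) (by fun_prop)
  · refine c_ball (n := fun x => 2 ^ β x) (f := fun x σ => decide (sc (β x) σ = 0) ||
      ball (Im (pa (P x)) (pg (P x)) (pk (P x)) + 1) (fun i =>
        !decide (2 ^ i * 2 ^ β x ≤ Dn (pa (P x)) (pg (P x)) (pk (P x)) *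
            ((range (UU (β x))).filter fun u => decide (sc (β x) σ ≤ 2 ^ i * gcS (In (P x)) (β x) σ u) = true).card) ||
          bex (UU (β x)) (fun u => bt (γ x) u &&
            decide (sc (β x) σ ≤ 2 * Ro (pa (P x)) (pg (P x)) (pk (P x)) * 2 ^ i * gcS (In (P x)) (β x) σ u))))
      (c_pow (Computable.const 2) hβ) ?_
    refine c_or (c_eq (k_sc (hβ.comp Computable.fst) Computable.snd) (Computable.const 0)) ?_
    refine c_ball (n := fun y : α × ℕ => Im (pa (P y.1)) (pg (P y.1)) (pk (P y.1)) + 1)
      (f := fun y i => !decide (2 ^ i * 2 ^ β y.1 ≤ Dn (pa (P y.1)) (pg (P y.1)) (pk (P y.1)) *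
            ((range (UU (β y.1))).filter fun u =>
              decide (sc (β y.1) y.2 ≤ 2 ^ i * gcS (In (P y.1)) (β y.1) y.2 u) = true).card) ||
          bex (UU (β y.1)) (fun u => bt (γ y.1) u &&
            decide (sc (β y.1) y.2 ≤ 2 * Ro (pa (P y.1)) (pg (P y.1)) (pk (P y.1)) * 2 ^ i *
              gcS (In (P y.1)) (β y.1) y.2 u)))
      (c_add (k_Im (hP.comp Computable.fst)) (Computable.const 1)) ?_
    refine c_or (c_not (c_le (c_mul (c_pow (Computable.const 2) Computable.snd)
      (c_pow (Computable.const 2) (by fun_prop))) (c_mul (k_Dn (by fun_prop)) ?_))) ?_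
    · refine c_count (n := fun t : (α × ℕ) × ℕ => UU (β t.1.1))
        (f := fun t u => decide (sc (β t.1.1) t.1.2 ≤ 2 ^ t.2 * gcS (In (P t.1.1)) (β t.1.1) t.1.2 u))
        (k_UU (by fun_prop)) ?_
      exact c_le (k_sc (by fun_prop) (by fun_prop)) (c_mul (c_pow (Computable.const 2) (by fun_prop))
        (k_gcS hIn (by fun_prop) (by fun_prop) (by fun_prop) (by fun_prop)))
    · refine c_bex (n := fun t : (α × ℕ) × ℕ => UU (β t.1.1))
        (f := fun t u => bt (γ t.1.1) u && decide (sc (β t.1.1) t.1.2 ≤
          2 * Ro (pa (P t.1.1)) (pg (P t.1.1)) (pk (P t.1.1)) * 2 ^ t.2 * gcS (In (P t.1.1)) (β t.1.1) t.1.2 u))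
        (k_UU (by fun_prop)) ?_
      exact c_and (k_bt (by fun_prop) (by fun_prop)) (c_le (k_sc (by fun_prop) (by fun_prop))
        (c_mul (c_mul (c_mul (Computable.const 2) (k_Ro (by fun_prop))) (c_pow (Computable.const 2) (by fun_prop)))
        (k_gcS hIn (by fun_prop) (by fun_prop) (by fun_prop) (by fun_prop))))

lemma k_FamL {α : Type} [Primcodable α] {P : α → Par} {β γ : α → ℕ} (hP : Computable P) (hβ : Computable β)
    (hγ : Computable γ) : Computable (fun x => FamL (In (P x)) (pa (P x)) (pg (P x)) (pk (P x)) (β x) (γ x)) := by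
  unfold FamL
  refine c_and (k_Fam hIn hP hβ hγ) ?_
  refine c_ball (n := γ) (f := fun x γ' => !Fam (In (P x)) (pa (P x)) (pg (P x)) (pk (P x)) (β x) γ') hγ ?_
  exact c_not (k_Fam hIn (by fun_prop) (by fun_prop) (by fun_prop))

lemma k_agr {α : Type} [Primcodable α] {P : α → Par} {z v : α → ℕ} (hP : Computable P) (hz : Computable z)
    (hv : Computable v) : Computable (fun x => agr (In (P x)) (z x) (v x)) := by
  unfold agr
  refine c_count (n := fun x => 2 ^ (z x + v x))
    (f := fun x w => bex (z x + v x) (fun q => prof (In (P x)) (z x) w q && prof (In (P x)) (v x) w q))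
    (c_pow (Computable.const 2) (c_add hz hv)) ?_
  refine c_bex (n := fun y : α × ℕ => z y.1 + v y.1)
    (f := fun y q => prof (In (P y.1)) (z y.1) y.2 q && prof (In (P y.1)) (v y.1) y.2 q)
    (c_add (by fun_prop) (by fun_prop)) ?_
  exact c_and (k_prof hIn (by fun_prop) (by fun_prop) (by fun_prop) (by fun_prop))
    (k_prof hIn (by fun_prop) (by fun_prop) (by fun_prop) (by fun_prop))

lemma k_Agr {α : Type} [Primcodable α] {P : α → Par} {z v : α → ℕ} (hP : Computable P) (hz : Computable z)
    (hv : Computable v) : Computable (fun x => Agr (In (P x)) (pa (P x)) (pg (P x)) (pk (P x)) (z x) (v x)) := by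
  unfold Agr
  exact c_le (c_pow (Computable.const 2) (c_add hz hv)) (c_mul (k_Th hP) (k_agr hIn hP hz hv))

lemma k_mz {α : Type} [Primcodable α] {P : α → Par} {z : α → ℕ} (hP : Computable P) (hz : Computable z) :
    Computable (fun x => mz (In (P x)) (z x)) := by
  unfold mz
  refine c_sum (n := fun x => 2 ^ z x)
    (f := fun x w => ((range (z x)).filter fun q => prof (In (P x)) (z x) w q = true).card)
    (c_pow (Computable.const 2) hz) ?_
  refine c_count (n := fun p : α × ℕ => z p.1) (f := fun p q => prof (In (P p.1)) (z p.1) p.2 q)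
    (hz.comp Computable.fst) ?_
  exact k_prof hIn (by fun_prop) (by fun_prop) (by fun_prop) (by fun_prop)

lemma k_Cov {α : Type} [Primcodable α] {P : α → Par} {z β γ J : α → ℕ} (hP : Computable P) (hz : Computable z)
    (hβ : Computable β) (hγ : Computable γ) (hJ : Computable J) :
    Computable (fun x => Cov (In (P x)) (pa (P x)) (pg (P x)) (pk (P x)) (z x) (β x) (γ x) (J x)) := by
  unfold Cov
  refine c_and (c_and ?_ ?_) (c_le (c_mul (c_pow (Computable.const 2) hz) ?_)
    (c_add (c_mul (k_Ka hP) (c_pow (Computable.const 2) hz)) (c_mul (k_Kb hP) (k_mz hIn hP hz))))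
  · refine c_ball (n := fun x => UU (β x)) (f := fun x u => !bt (J x) u || bt (γ x) u) (k_UU hβ) ?_
    exact c_or (c_not (k_bt (by fun_prop) (by fun_prop))) (k_bt (by fun_prop) (by fun_prop))
  · refine c_ball (n := β) (f := fun x v =>
      !(bt (β x) v && Agr (In (P x)) (pa (P x)) (pg (P x)) (pk (P x)) (z x) v) ||
        bex (UU (β x)) (fun u => bt (J x) u && prof (In (P x)) v (u / β x) (u % β x))) hβ ?_
    refine c_or (c_not (c_and (k_bt (by fun_prop) (by fun_prop))
      (k_Agr hIn (by fun_prop) (by fun_prop) (by fun_prop)))) ?_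
    refine c_bex (n := fun y : α × ℕ => UU (β y.1))
      (f := fun y u => bt (J y.1) u && prof (In (P y.1)) y.2 (u / β y.1) (u % β y.1)) (k_UU (by fun_prop)) ?_
    exact c_and (k_bt (by fun_prop) (by fun_prop)) (k_prof hIn (by fun_prop) (by fun_prop)
      (c_div (by fun_prop) (by fun_prop)) (c_mod (by fun_prop) (by fun_prop)))
  · refine c_count (n := fun x => UU (β x)) (f := fun x u => bt (J x) u) (k_UU hβ) ?_
    exact k_bt (by fun_prop) (by fun_prop)

lemma k_CovL {α : Type} [Primcodable α] {P : α → Par} {z β γ J : α → ℕ} (hP : Computable P) (hz : Computable z)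
    (hβ : Computable β) (hγ : Computable γ) (hJ : Computable J) :
    Computable (fun x => CovL (In (P x)) (pa (P x)) (pg (P x)) (pk (P x)) (z x) (β x) (γ x) (J x)) := by
  unfold CovL
  refine c_and (k_Cov hIn hP hz hβ hγ hJ) ?_
  refine c_ball (n := J)
    (f := fun x J' => !Cov (In (P x)) (pa (P x)) (pg (P x)) (pk (P x)) (z x) (β x) (γ x) J') hJ ?_
  exact c_not (k_Cov hIn (by fun_prop) (by fun_prop) (by fun_prop) (by fun_prop) (by fun_prop))

lemma k_ct {α : Type} [Primcodable α] {P : α → Par} {β u : α → ℕ} (hP : Computable P) (hβ : Computable β)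
    (hu : Computable u) : Computable (fun x => ct (In (P x)) (β x) (u x)) := by
  unfold ct
  refine c_sum (n := β) (f := fun x v => if grp (In (P x)) (β x) (u x) v = true then 2 ^ v else 0) hβ ?_
  exact c_ite (k_grp hIn (by fun_prop) (by fun_prop) (by fun_prop) (by fun_prop))
    (c_pow (Computable.const 2) Computable.snd) (Computable.const 0)

lemma k_Wt {α : Type} [Primcodable α] {P : α → Par} {r z γ J u : α → ℕ} (hP : Computable P) (hr : Computable r)
    (hz : Computable z) (hγ : Computable γ) (hJ : Computable J) (hu : Computable u) :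
    Computable (fun x => Wt (In (P x)) (pa (P x)) (pg (P x)) (pk (P x)) (r x) (z x) (γ x) (J x) (u x)) := by
  unfold Wt
  have hB := k_Bm hIn hP hr hz
  exact c_and (c_and (c_and (c_and (c_and (k_Ver hIn hP hz)
    (c_eq (c_mod (c_div (k_idx hIn hP hz) (c_pow (Computable.const 2) hr)) (Computable.const 2)) (Computable.const 1)))
    (k_FamL hIn hP hB hγ)) (k_CovL hIn hP hz hB hγ hJ)) (k_bt hJ hu)) (c_lt hu (k_UU hB))

end

theorem dynre : S_DYNRE := by
  intro In hIn
  rw [Pool.Agent.Helper578.JD.RE.re_iff]
  refine ⟨fun t n => decide (ve n.unpair.1 = t.2.2.2.2) && decide (vi n.unpair.1 = !t.2.2.1) &&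
    Wt (In t.1) (pa t.1) (pg t.1) (pk t.1) t.2.1 n.unpair.1 n.unpair.2.unpair.1 n.unpair.2.unpair.2.unpair.1
      n.unpair.2.unpair.2.unpair.2 &&
    decide (t.2.2.2.1 = ct (In t.1) (Bm (In t.1) (pk t.1) t.2.1 n.unpair.1) n.unpair.2.unpair.2.unpair.2), ?_, ?_⟩
  · refine c_and (c_and (c_and (c_eq (k_ve (by fun_prop)) (by fun_prop))
      (c_eq (k_vi (by fun_prop)) (c_not (by fun_prop)))) ?_) ?_
    · exact k_Wt hIn (by fun_prop) (by fun_prop) (by fun_prop) (by fun_prop) (by fun_prop) (by fun_prop)
    · exact c_eq (by fun_prop) (k_ct hIn (by fun_prop) (k_Bm hIn (by fun_prop) (by fun_prop) (by fun_prop))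
        (by fun_prop))
  · intro t
    constructor
    · rintro ⟨z, h1, h2, γ, J, u, h3, h4⟩
      refine ⟨Nat.pair z (Nat.pair γ (Nat.pair J u)), ?_⟩
      simp only [Nat.unpair_pair, Bool.and_eq_true, decide_eq_true_eq]
      exact ⟨⟨⟨h1, h2⟩, h3⟩, h4⟩
    · rintro ⟨n, h⟩
      simp only [Bool.and_eq_true, decide_eq_true_eq] at h
      exact ⟨_, h.1.1.1, h.1.1.2, _, _, _, h.1.2, h.2⟩

end Pool.Agent.H57GWR
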