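import Mathlib
import Pool.Agent.H166R3.AT.CT

/-!
# Project GWR (helper57, MP_17b90d_lc): random oracles do not change the Gray–Wyner profile

Finite combinatorics. `I s w q i e` (a Boolean) means: at stage `s`, for the oracles whose first `s` bits are the binary
digits of `w < 2 ^ s`, it is known that the string `q` has complexity `≤ g` and that the string number `e` has complexity
`≤ a i` given `q` (`i = false`: it is a left string `x`, `i = true`: it is a right string `y`). All strings are numbers.

For a string `e` of the side `i`, `cnt s i e / 2 ^ s` is the average (over the oracles) number of the `q` with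
`I s w q i e`; a *version* of `e` is the set of all memberships that appear between the moment where this average
reaches `l 2 ^ j / 2 ^ κ` and the moment where it reaches `(l + 1) 2 ^ j / 2 ^ κ` (`κ = k + 3`).
The versions are numbered in the order of their codes; the number is `idx`. For a version `z` and a level `r` such that the
bit number `r` of `idx z` is `1`, `Bm r z` is the set (a bitmask) of the versions `v` of the other side with
`idx v / 2 ^ r + 1 = idx z / 2 ^ r`.
A *family* `γ` for a set `β` of versions is a set of pairs `u = w * β + q` (`w < 2 ^ β`, `q < β`); the pair `u` defines the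
group `{v ∈ β | prof v w q}`.
-/

set_option autoImplicit false

namespace Pool.Agent.H57GWR

open Finset
open Pool.Agent.H166R3.AT (bex ball bex_iff ball_iff)

/-! ### Constants -/

/-- the size parameter -/
def NN (a : Bool → ℕ) (g k : ℕ) : ℕ := a false + a true + g + k + 10

/-- `1 / θ` -/
def Th (a : Bool → ℕ) (g k : ℕ) : ℕ := 2 ^ (k + 1) * NN a g k ^ 2

/-- `1 / δ` -/
def Dn (a : Bool → ℕ) (g k : ℕ) : ℕ := 2 ^ k * NN a g k ^ 5

/-- the number of batches -/
def Ro (a : Bool → ℕ) (g k : ℕ) : ℕ := 40 * NN a g k

/-- the number of the dyadic scales of richness -/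
def Im (a : Bool → ℕ) (g k : ℕ) : ℕ := 4 * NN a g k

/-- the overhead of the families -/
def Pp (a : Bool → ℕ) (g k : ℕ) : ℕ := 2 ^ k * NN a g k ^ 13

/-- the overhead of the covers -/
def Ka (a : Bool → ℕ) (g k : ℕ) : ℕ := NN a g k ^ 5

/-- the overhead of the covers -/
def Kb (a : Bool → ℕ) (g k : ℕ) : ℕ := 2 ^ k * NN a g k ^ 8

/-! ### Legal enumerations -/

/-- The properties of the enumeration `I`. -/
structure Legal (I : ℕ → ℕ → ℕ → Bool → ℕ → Bool) (a : Bool → ℕ) (g : ℕ) : Prop where
  small : ∀ s w q i e, I s w q i e = true → q < s ∧ e < s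
  mono : ∀ s w q i e, w < 2 ^ s → I s w q i e = true →
    I (s + 1) w q i e = true ∧ I (s + 1) (w + 2 ^ s) q i e = true
  labels : ∀ s w, w < 2 ^ s → ((range s).filter fun q => ∃ i, ∃ e < s, I s w q i e = true).card ≤ 2 ^ g
  elems : ∀ s w q i, w < 2 ^ s → ((range s).filter fun e => I s w q i e = true).card ≤ 2 ^ a i

section

variable (I : ℕ → ℕ → ℕ → Bool → ℕ → Bool) (a : Bool → ℕ) (g k : ℕ)

/-! ### Versions -/

/-- number of pairs (oracle prefix, `q`) -/
def cnt (s : ℕ) (i : Bool) (e : ℕ) : ℕ :=
  ∑ w ∈ range (2 ^ s), ((range s).filter fun q => I s w q i e = true).card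

/-- the mass at stage `s` is at least `n / 2 ^ κ` -/
def rch (n s : ℕ) (i : Bool) (e : ℕ) : Bool := decide (n * 2 ^ s ≤ cnt I s i e * 2 ^ (k + 3))

/-- side of a version -/
def vi (v : ℕ) : Bool := decide (v % 2 = 1)
/-- the string of a version -/
def ve (v : ℕ) : ℕ := (v / 2).unpair.1
/-- scale of a version -/
def vj (v : ℕ) : ℕ := (v / 2).unpair.2.unpair.1
/-- number of a version -/
def vl (v : ℕ) : ℕ := (v / 2).unpair.2.unpair.2.unpair.1
/-- first stage of a version -/
def vb (v : ℕ) : ℕ := (v / 2).unpair.2.unpair.2.unpair.2.unpair.1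
/-- last stage of a version -/
def vf (v : ℕ) : ℕ := (v / 2).unpair.2.unpair.2.unpair.2.unpair.2

/-- `s` is the first stage where the mass is at least `n / 2 ^ κ` -/
def fst (n s : ℕ) (i : Bool) (e : ℕ) : Bool :=
  rch I k n s i e && ball s (fun s' => !rch I k n s' i e)

/-- the code `v` is a version -/
def Ver (v : ℕ) : Bool :=
  fst I k ((vl v + 1) * 2 ^ vj v) (vf v) (vi v) (ve v) && fst I k (vl v * 2 ^ vj v) (vb v) (vi v) (ve v)

/-- the memberships of a version, for the oracles with prefix `w` (at least `vf v` bits) -/
def prof (v w q : ℕ) : Bool :=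
  I (vf v) (w % 2 ^ vf v) q (vi v) (ve v) && !I (vb v) (w % 2 ^ vb v) q (vi v) (ve v)

/-- the position of a version in the list of all versions -/
def idx (v : ℕ) : ℕ := ((range v).filter fun u => Ver I k u = true).card

/-! ### Blocks -/

/-- `v` (which is less than `z`) belongs to the block of level `r` on the left of `z`, on the other side -/
def inB (r z v : ℕ) : Bool :=
  Ver I k v && (vi v != vi z) && decide (idx I k v / 2 ^ r + 1 = idx I k z / 2 ^ r)

/-- the block as a bitmask -/
def Bm (r z : ℕ) : ℕ := ∑ v ∈ range z, if inB I k r z v = true then 2 ^ v else 0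

/-- bit number `v` of `β` -/
def bt (β v : ℕ) : Bool := decide (β / 2 ^ v % 2 = 1)

/-- `v` belongs to the group of `u` -/
def grp (β u v : ℕ) : Bool := bt β v && prof I v (u / β) (u % β)

/-- size of the group of `u` -/
def gc (β u : ℕ) : ℕ := ((range β).filter fun v => grp I β u v = true).card

/-- size of the intersection of the group of `u` with `β ∩ σ` -/
def gcS (β σ u : ℕ) : ℕ := ((range β).filter fun v => (grp I β u v && bt σ v) = true).card

/-- size of `β ∩ σ` -/
def sc (β σ : ℕ) : ℕ := ((range β).filter fun v => (bt β v && bt σ v) = true).card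

/-- number of codes of groups -/
def UU (β : ℕ) : ℕ := 2 ^ β * β

/-- `γ` is a good family for `β` -/
def Fam (β γ : ℕ) : Bool :=
  decide (2 ^ β * ∑ u ∈ range (UU β), (if bt γ u = true then gc I β u else 0) ≤
      2 * Pp a g k * ∑ u ∈ range (UU β), gc I β u) &&
    ball (2 ^ β) (fun σ => decide (sc β σ = 0) || ball (Im a g k + 1) (fun i =>
      !decide (2 ^ i * 2 ^ β ≤ Dn a g k *
          ((range (UU β)).filter fun u => decide (sc β σ ≤ 2 ^ i * gcS I β σ u) = true).card) ||
        bex (UU β) (fun u => bt γ u && decide (sc β σ ≤ 2 * Ro a g k * 2 ^ i * gcS I β σ u))))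

/-- the least good family -/
def FamL (β γ : ℕ) : Bool := Fam I a g k β γ && ball γ (fun γ' => !Fam I a g k β γ')

/-! ### Covers -/

/-- number of oracle prefixes for which `z` and `v` are together -/
def agr (z v : ℕ) : ℕ :=
  ((range (2 ^ (z + v))).filter fun w =>
    bex (z + v) (fun q => prof I z w q && prof I v w q) = true).card

/-- `z` and `v` are together with probability at least `θ` -/
def Agr (z v : ℕ) : Bool := decide (2 ^ (z + v) ≤ Th a g k * agr I z v)

/-- mass of a version, times `2 ^ z` -/
def mz (z : ℕ) : ℕ := ∑ w ∈ range (2 ^ z), ((range z).filter fun q => prof I z w q = true).card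

/-- `J` is a cover for `z` (a subfamily of `γ`) -/
def Cov (z β γ J : ℕ) : Bool :=
  ball (UU β) (fun u => !bt J u || bt γ u) &&
    ball β (fun v => !(bt β v && Agr I a g k z v) ||
      bex (UU β) (fun u => bt J u && prof I v (u / β) (u % β))) &&
    decide (2 ^ z * ((range (UU β)).filter fun u => bt J u = true).card ≤
      Ka a g k * 2 ^ z + Kb a g k * mz I z)

/-- the least cover -/
def CovL (z β γ J : ℕ) : Bool := Cov I a g k z β γ J && ball J (fun J' => !Cov I a g k z β γ J')

/-- the content of the group of `u` as a bitmask -/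
def ct (β u : ℕ) : ℕ := ∑ v ∈ range β, if grp I β u v = true then 2 ^ v else 0

/-- `u` is a group of the cover of `z` at level `r` -/
def Wt (r z γ J u : ℕ) : Bool :=
  Ver I k z && decide (idx I k z / 2 ^ r % 2 = 1) && FamL I a g k (Bm I k r z) γ &&
    CovL I a g k z (Bm I k r z) γ J && bt J u && decide (u < UU (Bm I k r z))

/-- the version `z` is added to the group with content `G`, which consists of versions of the side `i` -/
def DynZ (r : ℕ) (i : Bool) (G z : ℕ) : Prop :=
  vi z = !i ∧ ∃ γ J u, Wt I a g k r z γ J u = true ∧ G = ct I (Bm I k r z) u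

/-- the string `x` is added to the group with content `G` -/
def Dyn (r : ℕ) (i : Bool) (G x : ℕ) : Prop := ∃ z, ve z = x ∧ DynZ I a g k r i G z

/-- number of the elements of a bitmask -/
def sz (G : ℕ) : ℕ := ((range G).filter fun v => bt G v = true).card

/-- the string `y` belongs to the content `G` -/
def Base (G y : ℕ) : Prop := ∃ v, bt G v = true ∧ ve v = y

end

end Pool.Agent.H57GWR
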