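import Pool.Agent.H57GWR.Stm2

/-!
# Job ENUM: numbering of the elements of r.e. sets (helper48)
-/

set_option autoImplicit false

namespace Pool.Agent.H57GWR

open Finset
open Pool.Agent.H166R3.AT
open Pool.Agent.Helper578.JD

/-- `z` is the first code of a pair `(x, n)` with `q (c, x) n` -/
def hit {α : Type} (q : α × ℕ → ℕ → Bool) (c : α) (z : ℕ) : Bool :=
  q (c, z.unpair.1) z.unpair.2 &&
    ball z (fun z' => !(decide (z'.unpair.1 = z.unpair.1) && q (c, z'.unpair.1) z'.unpair.2))

theorem enum : S_ENUM := by
  intro α _ R hR
  obtain ⟨q, hq, h⟩ := RE.re_iff.1 hR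
  have hq1 : Computable fun t : (α × ℕ) × ℕ => q t.1 t.2 := hq
  -- computability
  have hu1 : Computable fun t : α × ℕ => t.2.unpair := Computable.unpair.comp Computable.snd
  have hhit : Computable fun t : α × ℕ => hit q t.1 t.2 := by
    have g1 : Computable fun t : α × ℕ => ((t.1, t.2.unpair.1), t.2.unpair.2) :=
      (Computable.fst.pair (Computable.fst.comp hu1)).pair (Computable.snd.comp hu1)
    have g2 : Computable fun t : α × ℕ => q (t.1, t.2.unpair.1) t.2.unpair.2 := (hq1.comp g1 :)
    have hu2 : Computable fun t : (α × ℕ) × ℕ => t.2.unpair :=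
      Computable.unpair.comp Computable.snd
    have hu3 : Computable fun t : (α × ℕ) × ℕ => t.1.2.unpair :=
      Computable.unpair.comp (Computable.snd.comp Computable.fst)
    have g4 : Computable fun t : (α × ℕ) × ℕ => decide (t.2.unpair.1 = t.1.2.unpair.1) :=
      c_eq (Computable.fst.comp hu2) (Computable.fst.comp hu3)
    have g5 : Computable fun t : (α × ℕ) × ℕ => (t.1.1, t.2) :=
      (Computable.fst.comp Computable.fst).pair Computable.snd
    have g6 : Computable fun t : (α × ℕ) × ℕ => q (t.1.1, t.2.unpair.1) t.2.unpair.2 := (g2.comp g5 :)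
    have g7 : Computable fun t : (α × ℕ) × ℕ =>
        !(decide (t.2.unpair.1 = t.1.2.unpair.1) && q (t.1.1, t.2.unpair.1) t.2.unpair.2) :=
      c_not (c_and g4 g6)
    have g8 : Computable fun t : α × ℕ => ball t.2 (fun z' =>
        !(decide (z'.unpair.1 = t.2.unpair.1) && q (t.1, z'.unpair.1) z'.unpair.2)) :=
      c_ball (α := α × ℕ) (n := fun t => t.2) (f := fun t z' =>
        !(decide (z'.unpair.1 = t.2.unpair.1) && q (t.1, z'.unpair.1) z'.unpair.2))
        Computable.snd g7
    exact c_and g2 g8
  have g5 : Computable fun t : (α × ℕ) × ℕ => (t.1.1, t.2) :=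
    (Computable.fst.comp Computable.fst).pair Computable.snd
  have hhit2 : Computable fun t : (α × ℕ) × ℕ => hit q t.1.1 t.2 := (hhit.comp g5 :)
  have hcn : Computable fun t : α × ℕ =>
      ((range t.2).filter fun z' => hit q t.1 z' = true).card :=
    c_count (α := α × ℕ) (n := fun t => t.2) (f := fun t z' => hit q t.1 z') Computable.snd hhit2
  let tst : α × ℕ → ℕ → Bool := fun t z =>
    hit q t.1 z && decide (((range z).filter fun z' => hit q t.1 z' = true).card = t.2)
  have htst : Computable₂ tst := by
    have h2 : Computable fun t : (α × ℕ) × ℕ =>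
        ((range t.2).filter fun z' => hit q t.1.1 z' = true).card := (hcn.comp g5 :)
    have h3 : Computable fun t : (α × ℕ) × ℕ => t.1.2 := Computable.snd.comp Computable.fst
    have h4 : Computable fun t : (α × ℕ) × ℕ =>
      decide (((range t.2).filter fun z' => hit q t.1.1 z' = true).card = t.1.2) := c_eq h2 h3
    exact c_and hhit2 h4
  refine ⟨fun c m => (Nat.rfind fun z => Part.some (tst (c, m) z)).map fun z => z.unpair.1,
    ?_, ?_⟩
  · refine Partrec.map (Partrec.rfind htst.partrec₂) ?_
    exact Computable.fst.comp (Computable.unpair.comp Computable.snd)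
  intro c M hM x hx
  have hex : ∃ z : ℕ, z.unpair.1 = x ∧ q (c, z.unpair.1) z.unpair.2 = true := by
    obtain ⟨n, hn⟩ := (h (c, x)).1 hx
    exact ⟨Nat.pair x n, by simp, by simpa using hn⟩
  classical
  obtain ⟨hz1, hz2⟩ := Nat.find_spec hex
  set z := Nat.find hex with hz
  have hhz : hit q c z = true := by
    unfold hit
    rw [Bool.and_eq_true, ball_iff]
    refine ⟨hz2, fun z' hz' => ?_⟩
    have h1 := Nat.find_min hex hz'
    rw [Bool.not_eq_true', Bool.and_eq_false_iff, decide_eq_false_iff_not]
    by_contra hcon
    push Not at hcon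
    exact h1 ⟨hcon.1.trans hz1, by simpa using hcon.2⟩
  have hcount : ((range z).filter fun z' => hit q c z' = true).card < M := by
    have h2 : (((range (z + 1)).filter fun z' => hit q c z' = true).image
        fun z' => z'.unpair.1).card ≤ M := by
      apply hM
      intro y hy
      rw [Finset.mem_image] at hy
      obtain ⟨z', hz', rfl⟩ := hy
      rw [Finset.mem_filter] at hz'
      have h3 := hz'.2
      unfold hit at h3
      rw [Bool.and_eq_true] at h3
      exact (h (c, z'.unpair.1)).2 ⟨_, h3.1⟩
    rw [Finset.card_image_of_injOn] at h2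
    · rw [Finset.range_add_one, Finset.filter_insert, if_pos hhz, Finset.card_insert_of_notMem
        (by simp)] at h2
      omega
    · have key : ∀ a b : ℕ, hit q c a = true → hit q c b = true → a.unpair.1 = b.unpair.1 →
          ¬ a < b := by
        intro a b ha hb hab hlt
        unfold hit at ha hb
        rw [Bool.and_eq_true] at ha hb
        have h4 := ball_iff.1 hb.2 a hlt
        rw [Bool.not_eq_true', Bool.and_eq_false_iff, decide_eq_false_iff_not] at h4
        rcases h4 with h4 | h4
        · exact h4 hab
        · rw [ha.1] at h4; exact Bool.noConfusion h4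
      intro a ha b hb hab
      have ha' := (Finset.mem_filter.1 (Finset.mem_coe.1 ha)).2
      have hb' := (Finset.mem_filter.1 (Finset.mem_coe.1 hb)).2
      have h5 := key a b ha' hb' hab
      have h6 := key b a hb' ha' hab.symm
      omega
  refine ⟨_, hcount, ?_⟩
  rw [Part.mem_map_iff]
  refine ⟨z, ?_, hz1⟩
  refine Nat.mem_rfind.2 ⟨?_, ?_⟩
  · simp [tst, hhz]
  · intro z' hz'
    have hfalse : tst (c, ((range z).filter fun z' => hit q c z' = true).card) z' = false := by
      by_contra hcon
      rw [Bool.not_eq_false] at hcon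
      simp only [tst, Bool.and_eq_true, decide_eq_true_iff] at hcon
      obtain ⟨h7, h8⟩ := hcon
      have h9 : (insert z' ((range z').filter fun z' => hit q c z' = true)) ⊆
          ((range z).filter fun z' => hit q c z' = true) := by
        intro y hy
        rw [Finset.mem_insert, Finset.mem_filter, Finset.mem_range] at hy
        rw [Finset.mem_filter, Finset.mem_range]
        rcases hy with rfl | ⟨h10, h11⟩
        · exact ⟨hz', h7⟩
        · exact ⟨by omega, h11⟩
      have h12 := Finset.card_le_card h9
      rw [Finset.card_insert_of_notMem (by simp)] at h12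
      omega
    simp [hfalse]

end Pool.Agent.H57GWR
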