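import Pool.Agent.H57GWR.ORC

/-!
# Project GWR, job EXO: optimal machines exist
-/

set_option autoImplicit false

namespace Pool.Agent.H57GWR

open Finset MeasureTheory Nat.Partrec
open Pool.Agent.Helper578.JD.RE
open Pool.Agent.H166R3.AT (bex ball bex_iff ball_iff c_bex c_ball c_le c_lt c_eq c_div c_mod c_pow c_and c_not)

namespace EXO

open ORC (dcd isS dcd_encode isS_encode c_dcd)

/-- the number of leading ones -/
def hd (p : List Bool) : ℕ := (p.takeWhile (fun b => b)).length

/-- the rest -/
def tl (p : List Bool) : List Bool := p.drop (hd p + 1)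

theorem hd_mk (e : ℕ) (p : List Bool) : hd (List.replicate e true ++ false :: p) = e := by
  unfold hd
  induction e with
  | zero => simp
  | succ e ih => rw [List.replicate_succ, List.cons_append, List.takeWhile_cons_of_pos rfl, List.length_cons, ih]

theorem tl_mk (e : ℕ) (p : List Bool) : tl (List.replicate e true ++ false :: p) = p := by
  unfold tl
  rw [hd_mk]
  rw [List.drop_append, List.drop_eq_nil_of_le (by simp)]
  simp

theorem c_hd : Computable hd :=
  (Primrec.list_length.comp (Primrec.list_takeWhile (p := fun b : Bool => b) Primrec.id)).to_comp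

theorem c_tl : Computable tl := by
  have h : Computable₂ (List.drop : ℕ → List Bool → List Bool) := Primrec.list_drop.to_comp
  exact h.comp (Computable.succ.comp c_hd) Computable.id

/-- the plain machine -/
def DD (p v : List Bool) : Part (List Bool) :=
  (Code.eval (Denumerable.ofNat Code (hd p)) (Encodable.encode (tl p, v))).bind
    fun n => ((Encodable.decode n : Option (List Bool)) : Part (List Bool))

theorem optDD : OptCond DD := by
  refine ⟨?_, ?_⟩
  · have h1 : Partrec (fun x : List Bool × List Bool =>
        Code.eval (Denumerable.ofNat Code (hd x.1)) (Encodable.encode (tl x.1, x.2))) := by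
      refine Partrec₂.comp Code.eval_part ((Computable.ofNat Code).comp (c_hd.comp Computable.fst)) ?_
      exact Computable.encode.comp (Computable.pair (c_tl.comp Computable.fst) Computable.snd)
    have h2 : Computable₂ (fun (_ : List Bool × List Bool) (n : ℕ) =>
        (Encodable.decode n : Option (List Bool))) := Computable.decode.comp Computable.snd
    exact Partrec.bind h1 h2.ofOption
  · intro E hE
    obtain ⟨c, hc⟩ := Nat.Partrec.Code.exists_code.1 hE
    refine ⟨Encodable.encode c + 1, fun p v u hu => ?_⟩
    refine ⟨List.replicate (Encodable.encode c) true ++ false :: p, ?_, ?_⟩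
    · have h1 : Code.eval c (Encodable.encode (p, v)) = (E p v).map Encodable.encode := by
        rw [hc]; simp
      unfold DD
      rw [hd_mk, tl_mk, Denumerable.ofNat_encode, h1, Part.mem_bind_iff]
      refine ⟨Encodable.encode u, Part.mem_map _ hu, ?_⟩
      simp
    · simp
      omega

/-- type of axioms -/
abbrev Ax := List Bool × List Bool × List Bool × List Bool

/-- at the stage `m` the axiom with a part `σ` of the oracle has been enumerated -/
def hit (e : ℕ) (σ p v : List Bool) (u : List Bool) (m : ℕ) : Bool :=
  bex (m + 1) (fun n => wst Ax e m (σ.take n, p, v, u))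

/-- the same for the string number `c` -/
def hitc (e : ℕ) (σ p v : List Bool) (c : ℕ) (m : ℕ) : Bool :=
  decide (c < m) && isS c && hit e σ p v (dcd c) m

/-- the axioms of the universal machine: `m = σ.length` is the first stage with a hit, and `u` is the first hit -/
def ux (t : Ax) : Bool :=
  hitc (hd t.2.1) t.1 (tl t.2.1) t.2.2.1 (Encodable.encode t.2.2.2) t.1.length &&
    ball t.1.length (fun m => ball m (fun c => !hitc (hd t.2.1) t.1 (tl t.2.1) t.2.2.1 c m)) &&
    ball (Encodable.encode t.2.2.2) (fun c => !hitc (hd t.2.1) t.1 (tl t.2.1) t.2.2.1 c t.1.length)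

theorem c_hit {α : Type} [Primcodable α] {e m : α → ℕ} {σ p v u : α → List Bool} (he : Computable e)
    (hσ : Computable σ) (hp : Computable p) (hv : Computable v) (hu : Computable u) (hm : Computable m) :
    Computable (fun a => hit (e a) (σ a) (p a) (v a) (u a) (m a)) := by
  unfold hit
  refine c_bex (Computable.succ.comp hm) ?_
  have hf : Computable (fun x : α × ℕ => x.1) := Computable.fst
  have hs : Computable (fun x : α × ℕ => x.2) := Computable.snd
  have ht : Computable₂ (List.take : ℕ → List Bool → List Bool) := Primrec.list_take.to_comp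
  have h1 : Computable (fun x : α × ℕ => ((σ x.1).take x.2)) := ht.comp hs (hσ.comp hf)
  have h2 : Computable (fun x : α × ℕ => (((σ x.1).take x.2, p x.1, v x.1, u x.1) : Ax)) :=
    Computable.pair h1 (Computable.pair (hp.comp hf) (Computable.pair (hv.comp hf) (hu.comp hf)))
  have h3 : Computable (fun x : α × ℕ => (((e x.1, m x.1), (((σ x.1).take x.2, p x.1, v x.1, u x.1) : Ax)) :
      (ℕ × ℕ) × Ax)) :=
    Computable.pair (Computable.pair (he.comp hf) (hm.comp hf)) h2
  exact Computable.comp (f := fun p : (ℕ × ℕ) × Ax => wst Ax p.1.1 p.1.2 p.2)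
    (g := fun x : α × ℕ => (((e x.1, m x.1), (((σ x.1).take x.2, p x.1, v x.1, u x.1) : Ax)) :
      (ℕ × ℕ) × Ax)) wst_comp h3

theorem c_hitc {α : Type} [Primcodable α] {e m c : α → ℕ} {σ p v : α → List Bool} (he : Computable e)
    (hσ : Computable σ) (hp : Computable p) (hv : Computable v) (hc : Computable c) (hm : Computable m) :
    Computable (fun a => hitc (e a) (σ a) (p a) (v a) (c a) (m a)) := by
  unfold hitc
  have hisS : Computable isS := by
    have := c_eq (α := ℕ) (f := fun n => Encodable.encode (dcd n)) (g := fun n => n)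
      (Computable.encode.comp c_dcd) Computable.id
    exact this.of_eq fun n => rfl
  exact c_and (c_and (c_lt hc hm) (hisS.comp hc)) (c_hit he hσ hp hv (c_dcd.comp hc) hm)

theorem c_ux : Computable ux := by
  have hσ : Computable (fun t : Ax => t.1) := Computable.fst
  have hp : Computable (fun t : Ax => t.2.1) := by fun_prop
  have hv : Computable (fun t : Ax => t.2.2.1) := by fun_prop
  have hu : Computable (fun t : Ax => t.2.2.2) := by fun_prop
  have he : Computable (fun t : Ax => hd t.2.1) := c_hd.comp hp
  have htl : Computable (fun t : Ax => tl t.2.1) := c_tl.comp hp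
  have hl : Computable (fun t : Ax => t.1.length) := Computable.list_length.comp hσ
  have hc : Computable (fun t : Ax => Encodable.encode t.2.2.2) := Computable.encode.comp hu
  unfold ux
  refine c_and (c_and ?_ ?_) ?_
  · exact c_hitc he hσ htl hv hc hl
  · refine c_ball hl ?_
    have hf1 : Computable (fun x : Ax × ℕ => x.1) := Computable.fst
    refine c_ball (α := Ax × ℕ) Computable.snd ?_
    have hf : Computable (fun x : (Ax × ℕ) × ℕ => x.1.1) := Computable.fst.comp Computable.fst
    exact c_not (c_hitc (α := (Ax × ℕ) × ℕ) (he.comp hf) (hσ.comp hf) (htl.comp hf) (hv.comp hf)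
      Computable.snd (Computable.snd.comp Computable.fst))
  · refine c_ball hc ?_
    have hf : Computable (fun x : Ax × ℕ => x.1) := Computable.fst
    exact c_not (c_hitc (α := Ax × ℕ) (he.comp hf) (hσ.comp hf) (htl.comp hf) (hv.comp hf)
      Computable.snd (hl.comp hf))

theorem ini_length (A : ℕ → Bool) (n : ℕ) : (ini A n).length = n := by simp [ini]

theorem ini_take (A : ℕ → Bool) {n m : ℕ} (h : n ≤ m) : (ini A m).take n = ini A n := by
  unfold ini
  rw [← List.map_take, List.take_range, min_eq_left h]

theorem hit_congr {e m : ℕ} {p v u : List Bool} {A : ℕ → Bool} {n n' : ℕ} (h : m ≤ n) (h' : m ≤ n') :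
    hit e (ini A n) p v u m = hit e (ini A n') p v u m := by
  have h1 : ∀ i < m + 1, wst Ax e m ((ini A n).take i, p, v, u) = wst Ax e m ((ini A n').take i, p, v, u) := by
    intro i hi
    rw [ini_take A (by omega), ini_take A (by omega)]
  unfold hit
  rw [Bool.eq_iff_iff, bex_iff, bex_iff]
  constructor
  · rintro ⟨i, hi, h2⟩; exact ⟨i, hi, by rw [← h1 i hi]; exact h2⟩
  · rintro ⟨i, hi, h2⟩; exact ⟨i, hi, by rw [h1 i hi]; exact h2⟩

theorem hitc_congr {e m c : ℕ} {p v : List Bool} {A : ℕ → Bool} {n n' : ℕ} (h : m ≤ n) (h' : m ≤ n') :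
    hitc e (ini A n) p v c m = hitc e (ini A n') p v c m := by
  unfold hitc
  rw [hit_congr h h']

theorem ux_iff {A : ℕ → Bool} {n : ℕ} {p v u : List Bool} : ux (ini A n, p, v, u) = true ↔
    hitc (hd p) (ini A n) (tl p) v (Encodable.encode u) n = true ∧
    (∀ m < n, ∀ c < m, hitc (hd p) (ini A m) (tl p) v c m = false) ∧
    (∀ c < Encodable.encode u, hitc (hd p) (ini A n) (tl p) v c n = false) := by
  unfold ux
  dsimp only
  rw [Bool.and_eq_true, Bool.and_eq_true, ball_iff, ball_iff, ini_length, and_assoc]
  refine and_congr Iff.rfl (and_congr ?_ ?_)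
  · refine forall_congr' fun m => ?_
    refine forall_congr' fun hm => ?_
    rw [ball_iff]
    refine forall_congr' fun c => ?_
    refine forall_congr' fun hc => ?_
    rw [hitc_congr (le_of_lt hm) (le_refl m)]
    simp
  · refine forall_congr' fun c => ?_
    refine forall_congr' fun hc => ?_
    simp

theorem hitc_lt {e m c : ℕ} {σ p v : List Bool} (h : hitc e σ p v c m = true) : c < m := by
  unfold hitc at h
  rw [Bool.and_eq_true, Bool.and_eq_true, decide_eq_true_iff] at h
  exact h.1.1

theorem ux_unique {A : ℕ → Bool} {n n' : ℕ} {p v u u' : List Bool} (h : ux (ini A n, p, v, u) = true)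
    (h' : ux (ini A n', p, v, u') = true) : u = u' := by
  rw [ux_iff] at h h'
  obtain ⟨h1, h2, h3⟩ := h
  obtain ⟨h1', h2', h3'⟩ := h'
  have hn : n = n' := by
    rcases lt_trichotomy n n' with hlt | heq | hgt
    · have := h2' n hlt _ (hitc_lt h1)
      rw [h1] at this; exact absurd this (by simp)
    · exact heq
    · have := h2 n' hgt _ (hitc_lt h1')
      rw [h1'] at this; exact absurd this (by simp)
  subst hn
  have hc : Encodable.encode u = Encodable.encode u' := by
    rcases lt_trichotomy (Encodable.encode u) (Encodable.encode u') with hlt | heq | hgt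
    · have := h3' _ hlt
      rw [h1] at this; exact absurd this (by simp)
    · exact heq
    · have := h3 _ hgt
      rw [h1'] at this; exact absurd this (by simp)
  exact Encodable.encode_injective hc

/-- the universal oracle machine -/
noncomputable def VV (A : ℕ → Bool) (p v : List Bool) : Part (List Bool) :=
  ⟨∃ u, ∃ n, ux (ini A n, p, v, u) = true, fun h => Classical.choose h⟩

theorem mem_VV {A : ℕ → Bool} {p v u : List Bool} : u ∈ VV A p v ↔ ∃ n, ux (ini A n, p, v, u) = true := by
  unfold VV
  rw [Part.mem_mk_iff]
  constructor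
  · rintro ⟨h, rfl⟩
    exact Classical.choose_spec h
  · rintro ⟨n, hn⟩
    have h : ∃ u, ∃ n, ux (ini A n, p, v, u) = true := ⟨u, n, hn⟩
    refine ⟨h, ?_⟩
    obtain ⟨m, hm⟩ := Classical.choose_spec h
    exact ux_unique hm hn

theorem optVV : OptOracle VV := by
  refine ⟨⟨{t | ux t = true}, of_bool c_ux, fun A p v u => mem_VV⟩, ?_⟩
  intro E hE
  obtain ⟨W, hW, hEW⟩ := hE
  obtain ⟨e, he⟩ := wst_univ hW
  refine ⟨e + 1, fun A p v u hu => ?_⟩
  refine ⟨List.replicate e true ++ false :: p, ?_, by simp; omega⟩
  -- every hit is an output of `E`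
  have hE1 : ∀ m u', hit e (ini A m) p v u' m = true → u' ∈ E A p v := by
    intro m u' h
    unfold hit at h
    rw [bex_iff] at h
    obtain ⟨n, hn, h⟩ := h
    rw [ini_take A (by omega)] at h
    rw [hEW]
    exact ⟨n, (he _).2 ⟨m, h⟩⟩
  -- there is a hit
  have hE2 : ∃ m, ∃ c, hitc e (ini A m) p v c m = true := by
    obtain ⟨n, hn⟩ := (hEW A p v u).1 hu
    obtain ⟨s, hs⟩ := (he _).1 hn
    refine ⟨n + s + Encodable.encode u + 1, Encodable.encode u, ?_⟩
    unfold hitc
    rw [Bool.and_eq_true, Bool.and_eq_true, decide_eq_true_iff, dcd_encode]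
    refine ⟨⟨by omega, isS_encode u⟩, ?_⟩
    unfold hit
    rw [bex_iff]
    refine ⟨n, by omega, ?_⟩
    rw [ini_take A (by omega)]
    exact wst_mono (by omega) hs
  classical
  have hm := Nat.find_spec hE2
  set m := Nat.find hE2 with hmdef
  have hc := Nat.find_spec hm
  set c := Nat.find hm with hcdef
  have h := hc
  unfold hitc at h
  rw [Bool.and_eq_true, Bool.and_eq_true, decide_eq_true_iff] at h
  have huu : dcd c = u := Part.mem_unique (hE1 m _ h.2) hu
  have hceq : c = Encodable.encode u := by
    have h2 := h.1.2
    unfold isS at h2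
    rw [decide_eq_true_iff, huu] at h2
    exact h2.symm
  rw [mem_VV]
  refine ⟨m, ?_⟩
  rw [ux_iff, hd_mk, tl_mk, ← hceq]
  refine ⟨hc, ?_, ?_⟩
  · intro m' hm' c' _
    have := Nat.find_min hE2 hm'
    by_contra hcon
    exact this ⟨c', by simpa using hcon⟩
  · intro c' hc'
    have := Nat.find_min hm hc'
    simpa using this

end EXO

theorem exo : S_EXO := by
  refine ⟨⟨_, EXO.optDD⟩, ⟨_, EXO.optVV⟩, ⟨fun x y => List.replicate (Encodable.encode (x, y)) true, ?_, ?_⟩⟩
  · have h1 : Computable (fun t : List Bool × List Bool => Encodable.encode t) := Computable.encode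
    have h2 : Primrec (fun n : ℕ => (List.range n).map (fun _ => true)) :=
      Primrec.list_map Primrec.list_range (Primrec.const true).to₂
    have h3 : Computable (fun t : List Bool × List Bool =>
        (List.range (Encodable.encode t)).map (fun _ => true)) := h2.to_comp.comp h1
    refine h3.of_eq fun t => ?_
    rw [List.map_const', List.length_range]
  · intro x y x' y' h
    have h1 := congrArg List.length h
    rw [List.length_replicate, List.length_replicate] at h1
    have h2 := Encodable.encode_injective h1
    exact ⟨congrArg Prod.fst h2, congrArg Prod.snd h2⟩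

end Pool.Agent.H57GWR
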