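import Pool.Agent.H57GWR.Stm

/-!
# Project GWR, job FAM: existence of a good family
-/

set_option autoImplicit false

namespace Pool.Agent.H57GWR

open Finset
open scoped Classical

namespace FAM

/-- number of functions with all values in a set -/
theorem card_all {X : Type} [Fintype X] (k : ℕ) (p : X → Prop) [DecidablePred p]
    [DecidablePred fun f : Fin k → X => ∀ t, p (f t)] :
    (univ.filter fun f : Fin k → X => ∀ t, p (f t)).card = (univ.filter p).card ^ k := by
  have h1 : (univ.filter fun f : Fin k → X => ∀ t, p (f t)) =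
      Fintype.piFinset (fun _ : Fin k => univ.filter p) := by
    ext f
    simp [Fintype.mem_piFinset]
  rw [h1, Fintype.card_piFinset_const]

theorem card_not {X : Type} [Fintype X] (p : X → Prop) [DecidablePred p] [DecidablePred fun x => ¬ p x] :
    (univ.filter fun x => ¬ p x).card = Fintype.card X - (univ.filter p).card := by
  have h := Finset.card_filter_add_card_filter_not (s := (univ : Finset X)) p
  rw [Finset.card_univ] at h
  omega

/-- number of functions with a given value -/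
theorem card_eq {X : Type} [Fintype X] (k : ℕ) (t : Fin k) (x : X)
    [DecidablePred fun f : Fin k → X => f t = x] :
    (univ.filter fun f : Fin k → X => f t = x).card * Fintype.card X = Fintype.card X ^ k := by
  have h1 : (univ.filter fun f : Fin k → X => f t = x) =
      Fintype.piFinset (fun j : Fin k => if j = t then ({x} : Finset X) else univ) := by
    ext f
    simp only [mem_filter, mem_univ, true_and, Fintype.mem_piFinset]
    constructor
    · intro h j
      by_cases hj : j = t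
      · subst hj; simp [h]
      · simp [hj]
    · intro h
      have := h t
      simpa using this
  rw [h1, Fintype.card_piFinset, ← Finset.mul_prod_erase univ _ (Finset.mem_univ t)]
  have h2 : ∏ j ∈ univ.erase t, (if j = t then ({x} : Finset X) else univ).card =
      ∏ j ∈ univ.erase t, Fintype.card X := by
    refine Finset.prod_congr rfl fun j hj => ?_
    rw [if_neg (Finset.ne_of_mem_erase hj), Finset.card_univ]
  rw [h2, Finset.prod_const, Finset.card_erase_of_mem (Finset.mem_univ t), Finset.card_univ, Fintype.card_fin,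
    if_pos rfl, Finset.card_singleton, one_mul, ← pow_succ]
  congr 1
  have := t.2
  omega

/-- every batch meets the group -/
def hit {V : Type} {ρ m : ℕ} (G : Finset V) (T : Fin ρ → Fin m → V) : Prop := ∀ b, ∃ c, T b c ∈ G

/-- number of maps with values in `S` which hit `G` -/
theorem card_hit {V : Type} (S G : Finset V) (ρ m : ℕ)
    [DecidablePred fun T : Fin ρ → Fin m → {x // x ∈ S} => ∀ b, ∃ c, (T b c : V) ∈ G] :
    ((univ.filter fun T : Fin ρ → Fin m → {x // x ∈ S} => ∀ b, ∃ c, (T b c : V) ∈ G).card : ℝ) =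
      ((S.card : ℝ) ^ m - ((S.card : ℝ) - (G ∩ S).card) ^ m) ^ ρ := by
  rw [card_all ρ (fun t : Fin m → {x // x ∈ S} => ∃ c, (t c : V) ∈ G)]
  push_cast
  congr 1
  have h1 : (univ.filter fun t : Fin m → {x // x ∈ S} => ¬ ∃ c, (t c : V) ∈ G).card =
      (univ.filter fun x : {x // x ∈ S} => ¬ ((x : V) ∈ G)).card ^ m := by
    rw [← card_all m (fun x : {x // x ∈ S} => ¬ ((x : V) ∈ G))]
    congr 1
    ext t
    simp only [mem_filter, mem_univ, true_and, not_exists]
  have h2 := Finset.card_filter_add_card_filter_not (s := (univ : Finset (Fin m → {x // x ∈ S})))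
    (fun t => ∃ c, (t c : V) ∈ G)
  rw [Finset.card_univ, Fintype.card_fun, Fintype.card_fin, Fintype.card_coe] at h2
  have h3 : (univ.filter fun x : {x // x ∈ S} => ((x : V) ∈ G)).card = (G ∩ S).card := by
    rw [← Finset.card_map (Function.Embedding.subtype _)]
    congr 1
    ext x
    simp only [mem_map, mem_filter, mem_univ, true_and, Function.Embedding.coe_subtype, mem_inter]
    constructor
    · rintro ⟨y, hy, rfl⟩
      exact ⟨hy, y.2⟩
    · rintro ⟨h1, h2⟩
      exact ⟨⟨x, h2⟩, h1, rfl⟩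
  have h4 := Finset.card_filter_add_card_filter_not (s := (univ : Finset {x // x ∈ S}))
    (fun x => (x : V) ∈ G)
  rw [Finset.card_univ, Fintype.card_coe, h3] at h4
  have h5 : ((univ.filter fun x : {x // x ∈ S} => ¬ ((x : V) ∈ G)).card : ℝ) = (S.card : ℝ) - (G ∩ S).card := by
    rw [← h4]; push_cast; ring
  have h6 : ((univ.filter fun t : Fin m → {x // x ∈ S} => ¬ ∃ c, (t c : V) ∈ G).card : ℝ) =
      ((S.card : ℝ) - (G ∩ S).card) ^ m := by
    rw [h1]; push_cast; rw [h5]
  have h7 : (S.card : ℝ) ^ m = ((univ.filter fun t : Fin m → {x // x ∈ S} => ∃ c, (t c : V) ∈ G).card : ℝ) +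
      ((univ.filter fun t : Fin m → {x // x ∈ S} => ¬ ∃ c, (t c : V) ∈ G).card : ℝ) := by
    rw [← Nat.cast_pow, ← h2]; push_cast; ring
  rw [h7, h6]; ring

/-- rich groups are hit often -/
theorem rich {s g : ℝ} {i ρ : ℕ} (hs : 0 < s) (_hg0 : 0 ≤ g) (hgs : g ≤ s) (h : s ≤ 2 ^ i * g) (hρ : 1 ≤ ρ) :
    (s ^ (2 ^ i * ρ)) ^ ρ ≤ 2 * (s ^ (2 ^ i * ρ) - (s - g) ^ (2 ^ i * ρ)) ^ ρ := by
  set m := 2 ^ i * ρ with hm
  have h1 : (s - g) ^ m ≤ s ^ m * Real.exp (-(ρ : ℝ)) := by
    have h2 : s - g ≤ s * Real.exp (-(g / s)) := by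
      have h3 := Real.add_one_le_exp (-(g / s))
      calc s - g = s * (-(g / s) + 1) := by field_simp; ring
        _ ≤ _ := mul_le_mul_of_nonneg_left h3 hs.le
    calc (s - g) ^ m ≤ (s * Real.exp (-(g / s))) ^ m := pow_le_pow_left₀ (by linarith) h2 m
      _ = s ^ m * Real.exp (-(g / s)) ^ m := by rw [mul_pow]
      _ = s ^ m * Real.exp (m * (-(g / s))) := by rw [← Real.exp_nat_mul]
      _ ≤ s ^ m * Real.exp (-(ρ : ℝ)) := by
          refine mul_le_mul_of_nonneg_left (Real.exp_le_exp.2 ?_) (by positivity)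
          have h4 : (1 : ℝ) ≤ 2 ^ i * (g / s) := by
            rw [← mul_div_assoc, le_div_iff₀ hs]; linarith
          rw [hm]; push_cast
          have h5 : (0 : ℝ) ≤ ρ := by positivity
          nlinarith
  have h2 : s ^ m * (1 - Real.exp (-(ρ : ℝ))) ≤ s ^ m - (s - g) ^ m := by nlinarith
  have h3 : 0 ≤ 1 - Real.exp (-(ρ : ℝ)) := by
    have : Real.exp (-(ρ : ℝ)) ≤ 1 := Real.exp_le_one_iff.2 (by simp)
    linarith
  have h4 : (s ^ m * (1 - Real.exp (-(ρ : ℝ)))) ^ ρ ≤ (s ^ m - (s - g) ^ m) ^ ρ :=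
    pow_le_pow_left₀ (by positivity) h2 ρ
  have h5 : (1 : ℝ) / 2 ≤ (1 - Real.exp (-(ρ : ℝ))) ^ ρ := by
    have h6 := one_add_mul_le_pow (a := -Real.exp (-(ρ : ℝ))) (by
      have : Real.exp (-(ρ : ℝ)) ≤ 1 := Real.exp_le_one_iff.2 (by simp)
      linarith) ρ
    have h7 : (ρ : ℝ) * Real.exp (-(ρ : ℝ)) ≤ 1 / 2 := by
      have h8 : (2 : ℝ) * ρ ≤ Real.exp ρ := by
        have h9 := Real.add_one_le_exp ((ρ : ℝ) - 1)
        have h10 : Real.exp ((ρ : ℝ) - 1) * Real.exp 1 = Real.exp ρ := by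
          rw [← Real.exp_add]; congr 1; ring
        have h11 : (2 : ℝ) ≤ Real.exp 1 := by
          have := Real.add_one_le_exp (1 : ℝ); linarith
        have h12 : (0 : ℝ) ≤ ρ := by positivity
        rw [← h10]
        nlinarith [Real.exp_pos ((ρ : ℝ) - 1)]
      rw [Real.exp_neg, ← div_eq_mul_inv, div_le_iff₀ (Real.exp_pos _)]
      linarith
    have h13 : 1 + (ρ : ℝ) * -Real.exp (-(ρ : ℝ)) = 1 - ρ * Real.exp (-(ρ : ℝ)) := by ring
    rw [h13] at h6
    have h14 : (1 : ℝ) + -Real.exp (-(ρ : ℝ)) = 1 - Real.exp (-(ρ : ℝ)) := by ring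
    rw [h14] at h6
    linarith
  have h6 : (s ^ m) ^ ρ = 2 * ((s ^ m) ^ ρ * (1 / 2)) := by ring
  rw [h6]
  refine mul_le_mul_of_nonneg_left (le_trans ?_ h4) (by norm_num)
  rw [mul_pow]
  exact mul_le_mul_of_nonneg_left h5 (by positivity)

/-- poor groups are hit rarely -/
theorem poor {s g : ℝ} {i ρ : ℕ} (hs : 0 < s) (hg0 : 0 ≤ g) (hgs : g ≤ s) (h : 2 * ρ * 2 ^ i * g < s) :
    2 ^ ρ * (s ^ (2 ^ i * ρ) - (s - g) ^ (2 ^ i * ρ)) ^ ρ ≤ (s ^ (2 ^ i * ρ)) ^ ρ := by
  set m := 2 ^ i * ρ with hm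
  rw [← mul_pow]
  have h0 : (s - g) ^ m ≤ s ^ m := pow_le_pow_left₀ (by linarith) (by linarith) m
  refine pow_le_pow_left₀ (by nlinarith) ?_ ρ
  have h1 := one_add_mul_le_pow (a := -(g / s)) (by
    have : g / s ≤ 1 := by rw [div_le_one hs]; exact hgs
    linarith) m
  have h2 : (m : ℝ) * (g / s) ≤ 1 / 2 := by
    rw [← mul_div_assoc, div_le_iff₀ hs, hm]
    push_cast
    nlinarith
  have h3 : (1 : ℝ) / 2 ≤ (1 + -(g / s)) ^ m := by nlinarith
  have h4 : s - g = s * (1 + -(g / s)) := by field_simp; ring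
  rw [h4, mul_pow]
  have h5 : 0 < s ^ m := by positivity
  nlinarith

variable {Ω Q V : Type} [Fintype Ω] [Nonempty Ω] [Fintype Q] [Fintype V]

/-- part (1) -/
theorem family (R : Ω → Q → Finset V) (C L ρ P D M : ℕ)
    (hC : ∀ w, (univ.filter fun q => (R w q).Nonempty).card ≤ C) (hV : Fintype.card V ≤ 2 ^ L)
    (hρ : 1 ≤ ρ) (hD : 1 ≤ D) (hC1 : 1 ≤ C) (hP : 4 * D * (ρ ^ 2 * L + 2) ≤ P) :
    ∃ γ : Finset (Ω × Q), γ.card ≤ C * P ∧
      Fintype.card Ω * ∑ u ∈ γ, (R u.1 u.2).card ≤ 2 * P * ∑ u : Ω × Q, (R u.1 u.2).card ∧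
      ∀ i ≤ M, ∀ T : Fin ρ → Fin (2 ^ i * ρ) → V,
        2 ^ i * Fintype.card Ω ≤ 4 * D * (univ.filter fun u : Ω × Q => hit (R u.1 u.2) T).card →
        ∃ u ∈ γ, hit (R u.1 u.2) T := by
  have hΩ : 0 < Fintype.card Ω := Fintype.card_pos
  set N : Finset (Ω × Q) := univ.filter fun u => (R u.1 u.2).Nonempty with hN
  have hNcard : N.card ≤ C * Fintype.card Ω := by
    have h1 : N.card = ∑ w : Ω, (univ.filter fun q => (R w q).Nonempty).card := by
      rw [hN]
      simp_rw [Finset.card_filter]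
      rw [Fintype.sum_prod_type]
    rw [h1]
    calc _ ≤ ∑ w : Ω, C := Finset.sum_le_sum fun w _ => hC w
      _ = _ := by rw [Finset.sum_const, Finset.card_univ, smul_eq_mul, mul_comm]
  obtain ⟨X, hXf, hXcard⟩ : ∃ (X : Type) (_ : Fintype X), Fintype.card X = C * Fintype.card Ω :=
    ⟨Fin (C * Fintype.card Ω), inferInstance, Fintype.card_fin _⟩
  have hXpos : 0 < Fintype.card X := by rw [hXcard]; positivity
  obtain ⟨e⟩ : Nonempty ({u // u ∈ N} ↪ X) := by
    refine Function.Embedding.nonempty_of_card_le ?_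
    rw [hXcard, Fintype.card_coe]; exact hNcard
  set k := C * P with hk
  let γ : (Fin k → X) → Finset (Ω × Q) := fun f =>
    (univ.filter fun u : {u // u ∈ N} => ∃ t, f t = e u).map (Function.Embedding.subtype _)
  have hγcard : ∀ f, (γ f).card ≤ k := by
    intro f
    show ((univ.filter fun u : {u // u ∈ N} => ∃ t, f t = e u).map _).card ≤ k
    rw [Finset.card_map]
    have h1 : (univ.filter fun u : {u // u ∈ N} => ∃ t, f t = e u).card ≤
        ((univ : Finset (Fin k)).image f).card := by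
      rw [← Finset.card_image_of_injective _ e.injective]
      refine Finset.card_le_card ?_
      intro x hx
      simp only [mem_image, mem_filter, mem_univ, true_and] at hx ⊢
      obtain ⟨u, ⟨t, ht⟩, rfl⟩ := hx
      exact ⟨t, ht⟩
    exact h1.trans (Finset.card_image_le.trans (by simp))
  set A := ∑ u : Ω × Q, (R u.1 u.2).card with hA
  have hAN : ∑ u : {u // u ∈ N}, (R u.1.1 u.1.2).card = A := by
    rw [hA, ← Finset.sum_subset (Finset.subset_univ N)]
    · exact (Finset.sum_coe_sort N (fun u => (R u.1 u.2).card))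
    · intro u _ hu
      rw [hN, Finset.mem_filter] at hu
      simp only [mem_univ, true_and, Finset.not_nonempty_iff_eq_empty] at hu
      rw [hu, Finset.card_empty]
  -- the expectation of the size
  have hexp : ∑ f, Fintype.card Ω * ∑ u ∈ γ f, (R u.1 u.2).card ≤ Fintype.card X ^ k * (P * A) := by
    have h1 : ∀ f, ∑ u ∈ γ f, (R u.1 u.2).card ≤
        ∑ t : Fin k, ∑ u : {u // u ∈ N}, if f t = e u then (R u.1.1 u.1.2).card else 0 := by
      intro f
      show ∑ u ∈ (univ.filter fun u : {u // u ∈ N} => ∃ t, f t = e u).map (Function.Embedding.subtype _),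
        (R u.1 u.2).card ≤ _
      rw [Finset.sum_map, Finset.sum_comm, Finset.sum_filter]
      refine Finset.sum_le_sum fun u _ => ?_
      by_cases h : ∃ t, f t = e u
      · rw [if_pos h]
        obtain ⟨t, ht⟩ := h
        refine le_trans ?_ (Finset.single_le_sum (f := fun t => if f t = e u then (R u.1.1 u.1.2).card else 0)
          (fun t _ => Nat.zero_le _) (Finset.mem_univ t))
        simp only [ht, if_true]
        exact le_refl _
      · rw [if_neg h]; exact Nat.zero_le _
    have h2 : ∑ f : Fin k → X, ∑ t : Fin k, ∑ u : {u // u ∈ N}, (if f t = e u then (R u.1.1 u.1.2).card else 0) =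
        ∑ t : Fin k, ∑ u : {u // u ∈ N}, (univ.filter fun f : Fin k → X => f t = e u).card *
          (R u.1.1 u.1.2).card := by
      rw [Finset.sum_comm]
      refine Finset.sum_congr rfl fun t _ => ?_
      rw [Finset.sum_comm]
      refine Finset.sum_congr rfl fun u _ => ?_
      rw [← Finset.sum_filter, Finset.sum_const, smul_eq_mul]
    have h3 : Fintype.card X * ∑ t : Fin k, ∑ u : {u // u ∈ N},
        (univ.filter fun f : Fin k → X => f t = e u).card * (R u.1.1 u.1.2).card =
          Fintype.card X ^ k * (k * A) := by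
      rw [Finset.mul_sum]
      have h4 : ∀ t : Fin k, Fintype.card X * ∑ u : {u // u ∈ N},
          (univ.filter fun f : Fin k → X => f t = e u).card * (R u.1.1 u.1.2).card =
          Fintype.card X ^ k * A := by
        intro t
        rw [← hAN, Finset.mul_sum, Finset.mul_sum]
        refine Finset.sum_congr rfl fun u _ => ?_
        rw [← card_eq k t (e u)]
        ring
      rw [Finset.sum_congr rfl fun t _ => h4 t, Finset.sum_const, Finset.card_univ, Fintype.card_fin, smul_eq_mul]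
      ring
    rw [← Finset.mul_sum]
    have h5 : C * (Fintype.card Ω * ∑ f, ∑ u ∈ γ f, (R u.1 u.2).card) ≤ C * (Fintype.card X ^ k * (P * A)) := by
      calc C * (Fintype.card Ω * ∑ f, ∑ u ∈ γ f, (R u.1 u.2).card) =
          Fintype.card X * ∑ f, ∑ u ∈ γ f, (R u.1 u.2).card := by rw [hXcard]; ring
        _ ≤ Fintype.card X * ∑ f : Fin k → X, ∑ t : Fin k, ∑ u : {u // u ∈ N},
            (if f t = e u then (R u.1.1 u.1.2).card else 0) :=
            Nat.mul_le_mul_left _ (Finset.sum_le_sum fun f _ => h1 f)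
        _ = Fintype.card X ^ k * (k * A) := by rw [h2, h3]
        _ = _ := by rw [hk]; ring
    exact le_of_mul_le_mul_left h5 hC1
  by_contra hcon
  push Not at hcon
  -- bad events
  set B1 : Finset (Fin k → X) := univ.filter fun f =>
    2 * P * A < Fintype.card Ω * ∑ u ∈ γ f, (R u.1 u.2).card with hB1
  set B2 : Finset (Fin k → X) := univ.filter fun f =>
    ∃ i ≤ M, ∃ T : Fin ρ → Fin (2 ^ i * ρ) → V,
        2 ^ i * Fintype.card Ω ≤ 4 * D * (univ.filter fun u : Ω × Q => hit (R u.1 u.2) T).card ∧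
        ∀ u ∈ γ f, ¬ hit (R u.1 u.2) T with hB2
  have hcover : (univ : Finset (Fin k → X)) ⊆ B1 ∪ B2 := by
    intro f _
    rw [Finset.mem_union]
    by_cases h1 : f ∈ B1
    · exact Or.inl h1
    · right
      have h2 : Fintype.card Ω * ∑ u ∈ γ f, (R u.1 u.2).card ≤ 2 * P * A := by
        rw [hB1, Finset.mem_filter] at h1
        simpa using h1
      obtain ⟨i, hi, T, hT, hT'⟩ := hcon (γ f) (hγcard f) h2
      rw [hB2, Finset.mem_filter]
      exact ⟨Finset.mem_univ _, i, hi, T, hT, hT'⟩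
  have hcard : Fintype.card X ^ k ≤ B1.card + B2.card := by
    have h1 := (Finset.card_le_card hcover).trans (Finset.card_union_le _ _)
    rwa [Finset.card_univ, Fintype.card_fun, Fintype.card_fin] at h1
  have hB1card : 2 * B1.card ≤ Fintype.card X ^ k := by
    have h1 : B1.card * (2 * (P * A) + 1) ≤ Fintype.card X ^ k * (P * A) := by
      refine le_trans ?_ hexp
      rw [← smul_eq_mul, ← Finset.sum_const]
      refine le_trans (Finset.sum_le_sum (g := fun f => Fintype.card Ω * ∑ u ∈ γ f, (R u.1 u.2).card) fun f hf => ?_)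
        (Finset.sum_le_sum_of_subset (Finset.subset_univ B1))
      rw [hB1, Finset.mem_filter] at hf
      have := hf.2
      rw [mul_assoc] at this
      exact this
    by_contra hcon2
    push Not at hcon2
    rcases Nat.eq_zero_or_pos (P * A) with h0 | h0
    · rw [h0] at h1
      omega
    · nlinarith
  have hB2card : 2 * (B2.card : ℝ) < (Fintype.card X : ℝ) ^ k := by
    -- for a fixed `i` and `T`
    have hT1 : ∀ (i : ℕ) (T : Fin ρ → Fin (2 ^ i * ρ) → V),
        2 ^ i * Fintype.card Ω ≤ 4 * D * (univ.filter fun u : Ω × Q => hit (R u.1 u.2) T).card →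
        ((univ.filter fun f : Fin k → X => ∀ u ∈ γ f, ¬ hit (R u.1 u.2) T).card : ℝ) ≤
          (Fintype.card X : ℝ) ^ k * Real.exp (-((2 : ℝ) ^ i * (ρ ^ 2 * L + 2))) := by
      intro i T hT
      set H := univ.filter fun u : Ω × Q => hit (R u.1 u.2) T with hH
      have hHN : H ⊆ N := by
        intro u hu
        rw [hH, Finset.mem_filter] at hu
        rw [hN, Finset.mem_filter]
        refine ⟨Finset.mem_univ _, ?_⟩
        obtain ⟨c, hc⟩ := hu.2 ⟨0, hρ⟩
        exact ⟨_, hc⟩
      let HX : Finset X := univ.filter fun x => ∃ u : {u // u ∈ N}, x = e u ∧ hit (R u.1.1 u.1.2) T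
      have hHX : HX.card = H.card := by
        have h1 : HX = (univ.filter fun u : {u // u ∈ N} => hit (R u.1.1 u.1.2) T).map e := by
          ext x
          simp only [HX, mem_filter, mem_univ, true_and, mem_map]
          constructor
          · rintro ⟨u, rfl, h⟩; exact ⟨u, h, rfl⟩
          · rintro ⟨u, h, rfl⟩; exact ⟨u, rfl, h⟩
        rw [h1, Finset.card_map, ← Finset.card_map (Function.Embedding.subtype _)]
        congr 1
        ext u
        simp only [mem_map, mem_filter, mem_univ, true_and, Function.Embedding.coe_subtype]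
        constructor
        · rintro ⟨v, h, rfl⟩
          rw [hH, Finset.mem_filter]; exact ⟨Finset.mem_univ _, h⟩
        · intro hu
          refine ⟨⟨u, hHN hu⟩, ?_, rfl⟩
          rw [hH, Finset.mem_filter] at hu
          exact hu.2
      have h2 : (univ.filter fun f : Fin k → X => ∀ u ∈ γ f, ¬ hit (R u.1 u.2) T) ⊆
          univ.filter fun f : Fin k → X => ∀ t, ¬ (f t ∈ HX) := by
        intro f hf
        rw [Finset.mem_filter] at hf ⊢
        refine ⟨Finset.mem_univ _, fun t ht => ?_⟩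
        simp only [HX, mem_filter, mem_univ, true_and] at ht
        obtain ⟨u, hu, hu2⟩ := ht
        refine hf.2 u.1 ?_ hu2
        show u.1 ∈ (univ.filter fun u : {u // u ∈ N} => ∃ t, f t = e u).map (Function.Embedding.subtype _)
        rw [Finset.mem_map]
        exact ⟨u, by simp only [mem_filter, mem_univ, true_and]; exact ⟨t, hu⟩, rfl⟩
      have h3 := Finset.card_le_card h2
      rw [card_all k (fun x => ¬ (x ∈ HX)), card_not] at h3
      have h4 : (univ.filter fun x : X => x ∈ HX).card = H.card := by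
        rw [Finset.filter_mem_eq_inter, Finset.univ_inter, hHX]
      rw [h4] at h3
      have h5 : H.card ≤ Fintype.card X := by
        rw [← hHX]; exact Finset.card_le_univ _
      have h6 : ((Fintype.card X - H.card : ℕ) : ℝ) = (Fintype.card X : ℝ) - H.card := by
        push_cast [Nat.cast_sub h5]; ring
      have hXr : (0 : ℝ) < Fintype.card X := by exact_mod_cast hXpos
      have h7 : ((Fintype.card X : ℝ) - H.card) ≤ Fintype.card X * Real.exp (-((H.card : ℝ) / Fintype.card X)) := by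
        have h8 := Real.add_one_le_exp (-((H.card : ℝ) / Fintype.card X))
        calc (Fintype.card X : ℝ) - H.card = Fintype.card X * (-((H.card : ℝ) / Fintype.card X) + 1) := by
              field_simp; ring
          _ ≤ _ := mul_le_mul_of_nonneg_left h8 hXr.le
      have h9 : ((univ.filter fun f : Fin k → X => ∀ u ∈ γ f, ¬ hit (R u.1 u.2) T).card : ℝ) ≤
          ((Fintype.card X : ℝ) - H.card) ^ k := by
        rw [← h6]; exact_mod_cast h3
      refine h9.trans ?_
      have h10 : (0 : ℝ) ≤ (Fintype.card X : ℝ) - H.card := by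
        rw [← h6]; positivity
      calc ((Fintype.card X : ℝ) - H.card) ^ k ≤
          (Fintype.card X * Real.exp (-((H.card : ℝ) / Fintype.card X))) ^ k := pow_le_pow_left₀ h10 h7 k
        _ = (Fintype.card X : ℝ) ^ k * Real.exp (k * -((H.card : ℝ) / Fintype.card X)) := by
            rw [mul_pow, ← Real.exp_nat_mul]
        _ ≤ _ := by
            refine mul_le_mul_of_nonneg_left (Real.exp_le_exp.2 ?_) (by positivity)
            -- `k H / X ≥ 2 ^ i P / (4 D)`
            have hXr' : (Fintype.card X : ℝ) = C * Fintype.card Ω := by rw [hXcard]; push_cast; ring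
            have hCr : (0 : ℝ) < C := by exact_mod_cast hC1
            have hΩr : (0 : ℝ) < Fintype.card Ω := by exact_mod_cast hΩ
            have hDr : (0 : ℝ) < D := by exact_mod_cast hD
            have h11 : (k : ℝ) * ((H.card : ℝ) / Fintype.card X) = P * H.card / Fintype.card Ω := by
              rw [hXr', hk]; push_cast; field_simp
            have h12 : (2 : ℝ) ^ i * Fintype.card Ω ≤ 4 * D * H.card := by exact_mod_cast hT
            have h13 : (4 : ℝ) * D * (ρ ^ 2 * L + 2) ≤ P := by exact_mod_cast hP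
            have h14 : (2 : ℝ) ^ i * (ρ ^ 2 * L + 2) ≤ P * H.card / Fintype.card Ω := by
              rw [le_div_iff₀ hΩr]
              have h15 : (0 : ℝ) ≤ ρ ^ 2 * L + 2 := by positivity
              have h16 : (0 : ℝ) ≤ H.card := by positivity
              calc (2 : ℝ) ^ i * ((ρ : ℝ) ^ 2 * L + 2) * (Fintype.card Ω : ℝ) =
                  ((ρ : ℝ) ^ 2 * L + 2) * (2 ^ i * (Fintype.card Ω : ℝ)) := by ring
                _ ≤ ((ρ : ℝ) ^ 2 * L + 2) * (4 * D * (H.card : ℝ)) := mul_le_mul_of_nonneg_left h12 h15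
                _ = (4 * (D : ℝ) * ((ρ : ℝ) ^ 2 * L + 2)) * (H.card : ℝ) := by ring
                _ ≤ (P : ℝ) * (H.card : ℝ) := mul_le_mul_of_nonneg_right h13 h16
            have h17 : (k : ℝ) * -((H.card : ℝ) / Fintype.card X) = -(P * H.card / Fintype.card Ω) := by
              rw [mul_neg, h11]
            rw [h17]
            linarith
    -- union bound
    have hunion : B2 ⊆ (range (M + 1)).biUnion fun i =>
        (univ.filter fun T : Fin ρ → Fin (2 ^ i * ρ) → V =>
          2 ^ i * Fintype.card Ω ≤ 4 * D * (univ.filter fun u : Ω × Q => hit (R u.1 u.2) T).card).biUnion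
        fun T => univ.filter fun f : Fin k → X => ∀ u ∈ γ f, ¬ hit (R u.1 u.2) T := by
      intro f hf
      rw [hB2, Finset.mem_filter] at hf
      obtain ⟨_, i, hi, T, hT, hT'⟩ := hf
      rw [Finset.mem_biUnion]
      refine ⟨i, Finset.mem_range.2 (by omega), ?_⟩
      rw [Finset.mem_biUnion]
      exact ⟨T, by rw [Finset.mem_filter]; exact ⟨Finset.mem_univ _, hT⟩, by
        rw [Finset.mem_filter]; exact ⟨Finset.mem_univ _, hT'⟩⟩
    have hsum : (B2.card : ℝ) ≤ ∑ i ∈ range (M + 1), (Fintype.card X : ℝ) ^ k * (1 / 4) ^ (i + 1) := by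
      have h1 : B2.card ≤ ∑ i ∈ range (M + 1),
          ∑ T ∈ (univ.filter fun T : Fin ρ → Fin (2 ^ i * ρ) → V =>
          2 ^ i * Fintype.card Ω ≤ 4 * D * (univ.filter fun u : Ω × Q => hit (R u.1 u.2) T).card),
          (univ.filter fun f : Fin k → X => ∀ u ∈ γ f, ¬ hit (R u.1 u.2) T).card :=
        (Finset.card_le_card hunion).trans (Finset.card_biUnion_le.trans
          (Finset.sum_le_sum fun i _ => Finset.card_biUnion_le))
      have h2 : (B2.card : ℝ) ≤ ∑ i ∈ range (M + 1),
          ∑ T ∈ (univ.filter fun T : Fin ρ → Fin (2 ^ i * ρ) → V =>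
          2 ^ i * Fintype.card Ω ≤ 4 * D * (univ.filter fun u : Ω × Q => hit (R u.1 u.2) T).card),
          ((univ.filter fun f : Fin k → X => ∀ u ∈ γ f, ¬ hit (R u.1 u.2) T).card : ℝ) := by
        exact_mod_cast h1
      refine h2.trans (Finset.sum_le_sum fun i _ => ?_)
      refine (Finset.sum_le_sum (g := fun _ => (Fintype.card X : ℝ) ^ k *
        Real.exp (-((2 : ℝ) ^ i * (ρ ^ 2 * L + 2)))) fun T hT => hT1 i T (Finset.mem_filter.1 hT).2).trans ?_
      rw [Finset.sum_const, nsmul_eq_mul]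
      have h3 : (((univ.filter fun T : Fin ρ → Fin (2 ^ i * ρ) → V =>
          2 ^ i * Fintype.card Ω ≤ 4 * D * (univ.filter fun u : Ω × Q => hit (R u.1 u.2) T).card)).card : ℝ) ≤
          Real.exp ((2 : ℝ) ^ i * (ρ ^ 2 * L)) := by
        have h4 : ((univ.filter fun T : Fin ρ → Fin (2 ^ i * ρ) → V =>
          2 ^ i * Fintype.card Ω ≤ 4 * D * (univ.filter fun u : Ω × Q => hit (R u.1 u.2) T).card)).card ≤
            2 ^ (L * (2 ^ i * ρ) * ρ) := by
          refine (Finset.card_le_univ _).trans ?_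
          rw [Fintype.card_fun, Fintype.card_fun, Fintype.card_fin, Fintype.card_fin, pow_mul 2 (L * (2 ^ i * ρ)) ρ,
            pow_mul 2 L (2 ^ i * ρ)]
          exact Nat.pow_le_pow_left (Nat.pow_le_pow_left hV _) _
        have h5 : (((univ.filter fun T : Fin ρ → Fin (2 ^ i * ρ) → V =>
          2 ^ i * Fintype.card Ω ≤ 4 * D * (univ.filter fun u : Ω × Q => hit (R u.1 u.2) T).card)).card : ℝ) ≤
            2 ^ (L * (2 ^ i * ρ) * ρ) := by exact_mod_cast h4
        refine h5.trans ?_
        have h6 : (2 : ℝ) ≤ Real.exp 1 := by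
          have := Real.add_one_le_exp (1 : ℝ); linarith
        calc (2 : ℝ) ^ (L * (2 ^ i * ρ) * ρ) ≤ (Real.exp 1) ^ (L * (2 ^ i * ρ) * ρ) :=
              pow_le_pow_left₀ (by norm_num) h6 _
          _ = Real.exp ((2 : ℝ) ^ i * (ρ ^ 2 * L)) := by
              rw [← Real.exp_nat_mul]; congr 1; push_cast; ring
      have h7 : (0 : ℝ) ≤ (Fintype.card X : ℝ) ^ k * Real.exp (-((2 : ℝ) ^ i * (ρ ^ 2 * L + 2))) := by positivity
      refine (mul_le_mul_of_nonneg_right h3 h7).trans ?_
      have h8 : Real.exp ((2 : ℝ) ^ i * (ρ ^ 2 * L)) *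
          ((Fintype.card X : ℝ) ^ k * Real.exp (-((2 : ℝ) ^ i * (ρ ^ 2 * L + 2)))) =
          (Fintype.card X : ℝ) ^ k * Real.exp (-((2 : ℝ) ^ i * 2)) := by
        rw [mul_left_comm, ← Real.exp_add]; congr 2; ring
      rw [h8]
      refine mul_le_mul_of_nonneg_left ?_ (by positivity)
      have h9 : ((i + 1 : ℕ) : ℝ) ≤ (2 : ℝ) ^ i := by
        have : i + 1 ≤ 2 ^ i := Nat.lt_two_pow_self
        exact_mod_cast this
      have h10 : Real.exp (-((2 : ℝ) ^ i * 2)) ≤ Real.exp (((i + 1 : ℕ) : ℝ) * (-2)) :=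
        Real.exp_le_exp.2 (by linarith)
      refine h10.trans ?_
      rw [Real.exp_nat_mul]
      refine pow_le_pow_left₀ (Real.exp_pos _).le ?_ _
      have h11 : (2 : ℝ) ≤ Real.exp 1 := by
        have := Real.add_one_le_exp (1 : ℝ); linarith
      have h12 : (4 : ℝ) ≤ Real.exp 2 := by
        have : Real.exp 2 = Real.exp 1 * Real.exp 1 := by rw [← Real.exp_add]; norm_num
        rw [this]; nlinarith
      rw [Real.exp_neg, one_div]
      exact inv_anti₀ (by norm_num) h12
    have hgeom : ∑ i ∈ range (M + 1), ((1 : ℝ) / 4) ^ (i + 1) < 1 / 2 := by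
      have h1 : ∀ n, ∑ i ∈ range n, ((1 : ℝ) / 4) ^ (i + 1) = (1 - (1 / 4) ^ n) / 3 := by
        intro n
        induction n with
        | zero => simp
        | succ n ih => rw [Finset.sum_range_succ, ih, pow_succ]; ring
      rw [h1]
      have : (0 : ℝ) < (1 / 4) ^ (M + 1) := by positivity
      linarith
    rw [← Finset.mul_sum] at hsum
    have hXk : (0 : ℝ) < (Fintype.card X : ℝ) ^ k := by
      have : (0 : ℝ) < Fintype.card X := by exact_mod_cast hXpos
      positivity
    nlinarith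
  have h1 : (Fintype.card X : ℝ) ^ k ≤ B1.card + B2.card := by exact_mod_cast hcard
  have h2 : 2 * (B1.card : ℝ) ≤ (Fintype.card X : ℝ) ^ k := by exact_mod_cast hB1card
  linarith

end FAM

open FAM in
theorem fam : S_FAM := by
  intro Ω Q V _ _ _ _ R C L ρ P D M hC hV hρ hD hC1 hρ2 hP
  obtain ⟨γ, hγc, hγ1, hγ2⟩ := family R C L ρ P D M hC hV hρ hD hC1 hP
  refine ⟨γ, hγ1, ?_⟩
  intro S hS i hi hrich
  by_contra hcon
  push Not at hcon
  have hΩ : 0 < Fintype.card Ω := Fintype.card_pos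
  have hsn : 0 < S.card := Finset.card_pos.2 hS
  have hs : (0 : ℝ) < S.card := by exact_mod_cast hsn
  have hΩr : (0 : ℝ) < Fintype.card Ω := by exact_mod_cast hΩ
  have hDr : (0 : ℝ) < D := by exact_mod_cast hD
  set m := 2 ^ i * ρ with hm
  set W : ℝ := ((S.card : ℝ) ^ m) ^ ρ with hW
  have hWpos : 0 < W := by positivity
  have hWcard : (Fintype.card (Fin ρ → Fin m → {x // x ∈ S}) : ℝ) = W := by
    rw [Fintype.card_fun, Fintype.card_fun, Fintype.card_fin, Fintype.card_fin, Fintype.card_coe]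
    push_cast; rfl
  have hgs : ∀ G : Finset V, ((G ∩ S).card : ℝ) ≤ S.card := fun G => by
    exact_mod_cast Finset.card_le_card Finset.inter_subset_right
  -- the maps which hit an element of `γ`
  set Bad : Finset (Fin ρ → Fin m → {x // x ∈ S}) := univ.filter fun T =>
    ∃ u ∈ γ, ∀ b, ∃ c, (T b c : V) ∈ R u.1 u.2 with hBad
  have hBadc : (Bad.card : ℝ) * (4 * D * C) ≤ W := by
    have h1 : Bad ⊆ γ.biUnion fun u => univ.filter fun T => ∀ b, ∃ c, (T b c : V) ∈ R u.1 u.2 := by
      intro T hT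
      rw [hBad, Finset.mem_filter] at hT
      obtain ⟨_, u, hu, h⟩ := hT
      rw [Finset.mem_biUnion]
      exact ⟨u, hu, by rw [Finset.mem_filter]; exact ⟨Finset.mem_univ _, h⟩⟩
    have h2 : Bad.card ≤ ∑ u ∈ γ, (univ.filter fun T : Fin ρ → Fin m → {x // x ∈ S} =>
        ∀ b, ∃ c, (T b c : V) ∈ R u.1 u.2).card :=
      (Finset.card_le_card h1).trans Finset.card_biUnion_le
    have h3 : (Bad.card : ℝ) ≤ ∑ u ∈ γ, ((univ.filter fun T : Fin ρ → Fin m → {x // x ∈ S} =>
        ∀ b, ∃ c, (T b c : V) ∈ R u.1 u.2).card : ℝ) := by exact_mod_cast h2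
    have h4 : ∀ u ∈ γ, (2 : ℝ) ^ ρ * ((univ.filter fun T : Fin ρ → Fin m → {x // x ∈ S} =>
        ∀ b, ∃ c, (T b c : V) ∈ R u.1 u.2).card : ℝ) ≤ W := by
      intro u hu
      rw [card_hit]
      refine poor hs (by positivity) (hgs _) ?_
      have := hcon u hu
      exact_mod_cast this
    have h5 : (2 : ℝ) ^ ρ * Bad.card ≤ (C * P) * W := by
      calc (2 : ℝ) ^ ρ * Bad.card ≤ (2 : ℝ) ^ ρ * ∑ u ∈ γ, ((univ.filter fun T : Fin ρ → Fin m → {x // x ∈ S} =>
            ∀ b, ∃ c, (T b c : V) ∈ R u.1 u.2).card : ℝ) := mul_le_mul_of_nonneg_left h3 (by positivity)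
        _ = ∑ u ∈ γ, (2 : ℝ) ^ ρ * ((univ.filter fun T : Fin ρ → Fin m → {x // x ∈ S} =>
            ∀ b, ∃ c, (T b c : V) ∈ R u.1 u.2).card : ℝ) := by rw [Finset.mul_sum]
        _ ≤ ∑ u ∈ γ, W := Finset.sum_le_sum h4
        _ = γ.card * W := by rw [Finset.sum_const, nsmul_eq_mul]
        _ ≤ _ := by
            refine mul_le_mul_of_nonneg_right ?_ hWpos.le
            exact_mod_cast hγc
    have h6 : (4 : ℝ) * D * C ^ 2 * P ≤ 2 ^ ρ := by exact_mod_cast hρ2
    -- if `P = 0` then `Bad` is empty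
    have hP0 : (0 : ℝ) < P := by
      have : 0 < P := by
        have : 4 * D * (ρ ^ 2 * L + 2) ≤ P := hP
        nlinarith [Nat.zero_le (ρ ^ 2 * L)]
      exact_mod_cast this
    have hC0 : (0 : ℝ) < C := by exact_mod_cast hC1
    have h7 : (C * P : ℝ) * ((Bad.card : ℝ) * (4 * D * C)) ≤ (C * P) * W := by
      calc (C * P : ℝ) * ((Bad.card : ℝ) * (4 * D * C)) = (4 * D * C ^ 2 * P) * Bad.card := by ring
        _ ≤ 2 ^ ρ * Bad.card := mul_le_mul_of_nonneg_right h6 (by positivity)
        _ ≤ _ := h5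
    exact le_of_mul_le_mul_left h7 (by positivity)
  -- the number of the groups which are hit
  let Z : (Fin ρ → Fin m → {x // x ∈ S}) → ℕ := fun T =>
    (univ.filter fun u : Ω × Q => ∀ b, ∃ c, (T b c : V) ∈ R u.1 u.2).card
  have hZ0 : ∀ T, Z T = (univ.filter fun u : Ω × Q => hit (R u.1 u.2) (fun b c => (T b c : V))).card := by
    intro T
    show (univ.filter fun u : Ω × Q => ∀ b, ∃ c, (T b c : V) ∈ R u.1 u.2).card = _
    congr 1
    ext u
    rw [Finset.mem_filter, Finset.mem_filter]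
    exact Iff.rfl
  have hZ1 : ∀ T, (Z T : ℝ) ≤ C * Fintype.card Ω := by
    intro T
    have h1 : Z T ≤ ∑ w : Ω, (univ.filter fun q => (R w q).Nonempty).card := by
      have h2 : ∑ w : Ω, (univ.filter fun q => (R w q).Nonempty).card =
          (univ.filter fun u : Ω × Q => (R u.1 u.2).Nonempty).card := by
        simp_rw [Finset.card_filter]
        rw [Fintype.sum_prod_type]
      rw [h2]
      refine Finset.card_le_card ?_
      intro u hu
      rw [Finset.mem_filter] at hu ⊢
      refine ⟨Finset.mem_univ _, ?_⟩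
      obtain ⟨c, hc⟩ := hu.2 ⟨0, hρ⟩
      exact ⟨_, hc⟩
    have h3 : Z T ≤ C * Fintype.card Ω := by
      refine h1.trans ((Finset.sum_le_sum fun w _ => hC w).trans ?_)
      rw [Finset.sum_const, Finset.card_univ, smul_eq_mul, mul_comm]
    exact_mod_cast h3
  have hZ2 : (2 : ℝ) ^ i * Fintype.card Ω * W ≤ 2 * D * ∑ T, (Z T : ℝ) := by
    have h1 : ∑ T, (Z T : ℝ) = ∑ u : Ω × Q, ((univ.filter fun T : Fin ρ → Fin m → {x // x ∈ S} =>
        ∀ b, ∃ c, (T b c : V) ∈ R u.1 u.2).card : ℝ) := by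
      have h2 : ∑ T, Z T = ∑ u : Ω × Q, (univ.filter fun T : Fin ρ → Fin m → {x // x ∈ S} =>
          ∀ b, ∃ c, (T b c : V) ∈ R u.1 u.2).card := by
        show ∑ T : Fin ρ → Fin m → {x // x ∈ S},
          (univ.filter fun u : Ω × Q => ∀ b, ∃ c, (T b c : V) ∈ R u.1 u.2).card = _
        simp_rw [Finset.card_filter]
        rw [Finset.sum_comm]
      exact_mod_cast h2
    have h3 : ∀ u ∈ univ.filter (fun u : Ω × Q => S.card ≤ 2 ^ i * (R u.1 u.2 ∩ S).card),
        W ≤ 2 * ((univ.filter fun T : Fin ρ → Fin m → {x // x ∈ S} =>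
        ∀ b, ∃ c, (T b c : V) ∈ R u.1 u.2).card : ℝ) := by
      intro u hu
      rw [Finset.mem_filter] at hu
      rw [card_hit]
      refine rich hs (by positivity) (hgs _) ?_ hρ
      exact_mod_cast hu.2
    have h4 : ((univ.filter (fun u : Ω × Q => S.card ≤ 2 ^ i * (R u.1 u.2 ∩ S).card)).card : ℝ) * W ≤
        2 * ∑ T, (Z T : ℝ) := by
      rw [h1, Finset.mul_sum, ← nsmul_eq_mul, ← Finset.sum_const]
      refine (Finset.sum_le_sum h3).trans ?_
      refine Finset.sum_le_sum_of_subset_of_nonneg (Finset.subset_univ _) fun u _ _ => by positivity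
    have h5 : (2 : ℝ) ^ i * Fintype.card Ω ≤
        D * ((univ.filter (fun u : Ω × Q => S.card ≤ 2 ^ i * (R u.1 u.2 ∩ S).card)).card : ℝ) := by
      exact_mod_cast hrich
    calc (2 : ℝ) ^ i * Fintype.card Ω * W ≤
        (D * ((univ.filter (fun u : Ω × Q => S.card ≤ 2 ^ i * (R u.1 u.2 ∩ S).card)).card : ℝ)) * W :=
          mul_le_mul_of_nonneg_right h5 hWpos.le
      _ = D * (((univ.filter (fun u : Ω × Q => S.card ≤ 2 ^ i * (R u.1 u.2 ∩ S).card)).card : ℝ) * W) := by ring
      _ ≤ D * (2 * ∑ T, (Z T : ℝ)) := mul_le_mul_of_nonneg_left h4 hDr.le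
      _ = _ := by ring
  -- so there is a map which hits many groups, and none of `γ`
  have hno : ∀ T, T ∉ Bad → 4 * (D : ℝ) * Z T < 2 ^ i * Fintype.card Ω := by
    intro T hT
    by_contra h
    push Not at h
    have h1 : 2 ^ i * Fintype.card Ω ≤ 4 * D * Z T := by exact_mod_cast h
    rw [hZ0] at h1
    obtain ⟨u, hu, hu2⟩ := hγ2 i hi (fun b c => (T b c : V)) h1
    refine hT ?_
    rw [hBad, Finset.mem_filter]
    exact ⟨Finset.mem_univ _, u, hu, hu2⟩
  have hsplit : ∑ T, (Z T : ℝ) = ∑ T ∈ Bad, (Z T : ℝ) + ∑ T ∈ univ \ Bad, (Z T : ℝ) := by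
    rw [add_comm]
    exact (Finset.sum_sdiff (Finset.subset_univ Bad)).symm
  have hs1 : ∑ T ∈ Bad, (Z T : ℝ) ≤ Bad.card * (C * Fintype.card Ω) := by
    refine (Finset.sum_le_sum fun T _ => hZ1 T).trans ?_
    rw [Finset.sum_const, nsmul_eq_mul]
  -- strict inequality
  have hlt : ∑ T, (4 * (D : ℝ) * (if T ∈ Bad then 0 else (Z T : ℝ))) < ∑ _T : (Fin ρ → Fin m → {x // x ∈ S}),
      (2 : ℝ) ^ i * Fintype.card Ω := by
    have : Nonempty {x // x ∈ S} := ⟨⟨_, hS.choose_spec⟩⟩
    refine Finset.sum_lt_sum_of_nonempty Finset.univ_nonempty fun T _ => ?_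
    by_cases hT : T ∈ Bad
    · rw [if_pos hT, mul_zero]; positivity
    · rw [if_neg hT]; exact hno T hT
  rw [Finset.sum_const, nsmul_eq_mul, Finset.card_univ, hWcard, ← Finset.mul_sum] at hlt
  have hs2 : ∑ T, (if T ∈ Bad then 0 else (Z T : ℝ)) = ∑ T ∈ univ \ Bad, (Z T : ℝ) := by
    rw [Finset.sum_ite, Finset.sum_const_zero, zero_add]
    congr 1
    ext T
    simp
  rw [hs2] at hlt
  have hone : (1 : ℝ) ≤ 2 ^ i := one_le_pow₀ (by norm_num)
  -- combine
  have hfin1 : 4 * (D : ℝ) * ∑ T, (Z T : ℝ) < Fintype.card Ω * W + W * (2 ^ i * Fintype.card Ω) := by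
    rw [hsplit, mul_add]
    have h1 : 4 * (D : ℝ) * ∑ T ∈ Bad, (Z T : ℝ) ≤ Fintype.card Ω * W := by
      calc 4 * (D : ℝ) * ∑ T ∈ Bad, (Z T : ℝ) ≤ 4 * (D : ℝ) * (Bad.card * (C * Fintype.card Ω)) :=
            mul_le_mul_of_nonneg_left hs1 (by positivity)
        _ = Fintype.card Ω * (Bad.card * (4 * D * C)) := by ring
        _ ≤ Fintype.card Ω * W := mul_le_mul_of_nonneg_left hBadc hΩr.le
    linarith
  have hΩW : 0 < (Fintype.card Ω : ℝ) * W := by positivity
  nlinarith

end Pool.Agent.H57GWR
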