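import Pool.Agent.H57GWR.Stm2

/-!
# Project GWR, job FIN (helper78): the theorem with real numbers from the integer statement.
-/

set_option autoImplicit false

namespace Pool.Agent.H57GWR

open Finset MeasureTheory
open scoped Classical
open Pool.Agent.Helper578.JD

namespace FIN

theorem graph_re {α β : Type} [Primcodable α] [Primcodable β] {g : α →. β} (hg : Partrec g) :
    REPred fun x : α × β => x.2 ∈ g x.1 := by
  have h1 : Partrec₂ (fun (x : α × β) (u : β) => Part.assert (u = x.2) fun _ => Part.some ()) :=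
    (RE.eq Computable.snd (Computable.snd.comp Computable.fst) :
      REPred fun z : (α × β) × β => z.2 = z.1.2)
  have h2 := Partrec.bind (hg.comp Computable.fst) h1
  refine Partrec.of_eq h2 ?_
  intro x
  ext a
  simp only [Part.mem_bind_iff, Part.mem_assert_iff, Part.mem_some_iff, exists_prop]
  constructor
  · rintro ⟨u, hu, h, h'⟩
    exact ⟨h ▸ hu, h'⟩
  · rintro ⟨hu, h'⟩
    exact ⟨_, hu, rfl, h'⟩

theorem ks_le {D : List Bool → List Bool →. List Bool} {p u v : List Bool} (h : u ∈ D p v) :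
    KS D u v ≤ p.length := Nat.sInf_le ⟨p, h, rfl⟩

theorem ks_att {D : List Bool → List Bool →. List Bool} {u v : List Bool} (h : ∃ p, u ∈ D p v) :
    ∃ p, u ∈ D p v ∧ p.length = KS D u v := by
  obtain ⟨p, hp⟩ := h
  exact Nat.sInf_mem (s := {m : ℕ | ∃ p : List Bool, u ∈ D p v ∧ p.length = m}) ⟨p.length, p, hp, rfl⟩

theorem opt_all {D : List Bool → List Bool →. List Bool} (hD : OptCond D) (u v : List Bool) :
    ∃ p, u ∈ D p v := by
  have hE : Partrec₂ (fun p _ : List Bool => Part.some p) :=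
    Partrec.of_eq (Computable.fst (α := List Bool) (β := List Bool)).partrec (fun _ => rfl)
  obtain ⟨c, hc⟩ := hD.2 _ hE
  obtain ⟨q, hq, -⟩ := hc u v u (Part.mem_some u)
  exact ⟨q, hq⟩

/-- the two decoders -/
theorem decoder {pr : List Bool → List Bool → List Bool} (hpr : PairCode pr) (b : Bool) :
    ∃ f : List Bool →. List Bool, Partrec f ∧ ∀ x y, (if b = true then x else y) ∈ f (pr x y) := by
  have h0 : REPred fun z : List Bool × List Bool =>
      ∃ t : List Bool × List Bool, pr t.1 t.2 = z.1 ∧ (if b = true then t.1 else t.2) = z.2 := by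
    apply RE.ex
    apply RE.and
    · refine RE.eq ?_ (Computable.fst.comp Computable.fst)
      exact hpr.1.comp (Computable.fst.comp Computable.snd) (Computable.snd.comp Computable.snd)
    · refine RE.eq ?_ (Computable.snd.comp Computable.fst)
      cases b with
      | true => simpa using Computable.fst.comp Computable.snd
      | false => simpa using Computable.snd.comp Computable.snd
  obtain ⟨f, hf, hf1, hf2⟩ := RE.uniformize
    (r := fun w u => ∃ t : List Bool × List Bool, pr t.1 t.2 = w ∧ (if b = true then t.1 else t.2) = u) h0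
  refine ⟨f, hf, fun x y => ?_⟩
  have hd : (f (pr x y)).Dom := (hf1 _).2 ⟨_, (x, y), rfl, rfl⟩
  have hm := Part.get_mem hd
  obtain ⟨t, ht1, ht2⟩ := hf2 _ _ hm
  obtain ⟨h1, h2⟩ := hpr.2 _ _ _ _ ht1
  rw [h1, h2] at ht2
  rw [ht2]
  exact hm

/-- consequences of the decoder -/
theorem dec_bounds {D : List Bool → List Bool →. List Bool} (hD : OptCond D)
    {pr : List Bool → List Bool → List Bool} (hpr : PairCode pr) (b : Bool) :
    ∃ C : ℕ, ∀ x y q : List Bool,
      KS D (if b = true then x else y) q ≤ KS D (pr x y) [] + C ∧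
      KS D (if b = true then x else y) (pr x y) ≤ C := by
  obtain ⟨f, hf, hfm⟩ := decoder hpr b
  have hE1 : Partrec₂ (fun p _ : List Bool => (D p []).bind f) := by
    have h1 : Partrec (fun x : List Bool × List Bool => D x.1 []) :=
      Partrec₂.comp hD.1 Computable.fst (Computable.const [])
    exact Partrec.bind h1 (hf.comp Computable.snd)
  have hE2 : Partrec₂ (fun _ v : List Bool => f v) := hf.comp Computable.snd
  obtain ⟨c1, hc1⟩ := hD.2 _ hE1
  obtain ⟨c2, hc2⟩ := hD.2 _ hE2
  refine ⟨c1 + c2, fun x y q => ⟨?_, ?_⟩⟩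
  · obtain ⟨p, hp, hl⟩ := ks_att (opt_all hD (pr x y) [])
    obtain ⟨q', hq', hl'⟩ := hc1 p q _ (Part.mem_bind_iff.2 ⟨_, hp, hfm x y⟩)
    have := ks_le hq'
    omega
  · obtain ⟨q', hq', hl'⟩ := hc2 [] (pr x y) _ (hfm x y)
    have := ks_le hq'
    simp only [List.length_nil] at hl'
    omega

/-- the oracle does not hurt -/
theorem oracle_le {D : List Bool → List Bool →. List Bool} (hD : OptCond D)
    {V : (ℕ → Bool) → List Bool → List Bool →. List Bool} (hV : OptOracle V) :
    ∃ C : ℕ, ∀ (A : ℕ → Bool) (u v : List Bool), KS (V A) u v ≤ KS D u v + C := by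
  have hE : OracleMachine (fun _ => D) := by
    refine ⟨{t | t.2.2.2 ∈ D t.2.1 t.2.2.1}, ?_, ?_⟩
    · have h1 : REPred fun x : (List Bool × List Bool) × List Bool => x.2 ∈ D x.1.1 x.1.2 := graph_re hD.1
      have h2 : Computable fun t : List Bool × List Bool × List Bool × List Bool =>
          ((t.2.1, t.2.2.1), t.2.2.2) := by fun_prop
      exact RE.comp h1 h2
    · intro A p v u
      constructor
      · intro h; exact ⟨0, h⟩
      · rintro ⟨_, h⟩; exact h
  obtain ⟨c, hc⟩ := hV.2 _ hE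
  refine ⟨c, fun A u v => ?_⟩
  obtain ⟨p, hp, hl⟩ := ks_att (opt_all hD u v)
  obtain ⟨q, hq, hl'⟩ := hc A p v u hp
  have := ks_le hq
  omega

theorem size_le_logb {m : ℕ} (hm : 1 ≤ m) : (Nat.size m : ℝ) ≤ Real.logb 2 m + 1 := by
  have h1 : 1 ≤ Nat.size m := Nat.size_pos.2 hm
  have h2 : 2 ^ (Nat.size m - 1) ≤ m := Nat.lt_size.1 (by omega)
  have h3 : ((2 : ℝ) ^ (Nat.size m - 1 : ℕ)) ≤ m := by exact_mod_cast h2
  have h4 : Real.logb 2 ((2 : ℝ) ^ (Nat.size m - 1 : ℕ)) ≤ Real.logb 2 m :=
    Real.logb_le_logb_of_le (by norm_num) (by positivity) h3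
  rw [← Real.rpow_natCast, Real.logb_rpow (by norm_num) (by norm_num)] at h4
  rw [Nat.cast_sub h1] at h4
  push_cast at h4
  linarith

theorem size_log (C : ℕ) : ∃ c : ℝ, 0 ≤ c ∧ ∀ n : ℕ, 2 ≤ n →
    (Nat.size (3 * (n + C + 1)) : ℝ) ≤ c * Real.logb 2 n := by
  have hC0 : 0 ≤ Real.logb 2 ((3 * (C + 2) : ℕ) : ℝ) := by
    apply Real.logb_nonneg (by norm_num)
    have : 1 ≤ 3 * (C + 2) := by omega
    exact_mod_cast this
  refine ⟨2 + Real.logb 2 ((3 * (C + 2) : ℕ) : ℝ), by linarith, fun n hn => ?_⟩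
  have hL : 1 ≤ Real.logb 2 n := by
    rw [Real.le_logb_iff_rpow_le (by norm_num) (by positivity)]
    simp only [Real.rpow_one]
    exact_mod_cast hn
  have h1 := size_le_logb (m := 3 * (n + C + 1)) (by omega)
  have h2 : 3 * (n + C + 1) ≤ n * (3 * (C + 2)) := by nlinarith
  have h3 : Real.logb 2 ((3 * (n + C + 1) : ℕ) : ℝ) ≤ Real.logb 2 ((n * (3 * (C + 2)) : ℕ) : ℝ) := by
    apply Real.logb_le_logb_of_le (by norm_num)
    · positivity
    · exact_mod_cast h2
  have h4 : Real.logb 2 ((n * (3 * (C + 2)) : ℕ) : ℝ) =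
      Real.logb 2 n + Real.logb 2 ((3 * (C + 2) : ℕ) : ℝ) := by
    rw [Nat.cast_mul, Real.logb_mul]
    · positivity
    · positivity
  rw [h4] at h3
  nlinarith

end FIN

open FIN in
theorem fin : S_FIN := by
  intro D V pr hD hV hpr ⟨d, hd⟩ ε hε
  obtain ⟨C1, hC1⟩ := dec_bounds hD hpr true
  obtain ⟨C2, hC2⟩ := dec_bounds hD hpr false
  obtain ⟨C3, hC3⟩ := oracle_le hD hV
  simp only [if_true] at hC1
  simp only [Bool.false_eq_true, if_false] at hC2
  obtain ⟨C, hC⟩ : ∃ C, C = C1 + C2 + C3 := ⟨_, rfl⟩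
  obtain ⟨c0, hc0, hsz⟩ := size_log C
  obtain ⟨e, he⟩ := exists_pow_lt_of_lt_one hε (by norm_num : (1 / 2 : ℝ) < 1)
  refine ⟨d * (4 * c0 + e + 1) + C, fun n hn x y hxy => ?_⟩
  have hL : 1 ≤ Real.logb 2 n := by
    rw [Real.le_logb_iff_rpow_le (by norm_num) (by positivity)]
    simp only [Real.rpow_one]
    exact_mod_cast hn
  obtain ⟨k, hk⟩ : ∃ k, k = 3 * Nat.size (n + C + 1) + e := ⟨_, rfl⟩
  set δ : ℝ := (d * (4 * c0 + e + 1) + C) * Real.logb 2 n with hδ
  have hδC : (C : ℝ) ≤ δ := by
    have h1 : (0 : ℝ) ≤ d * (4 * c0 + e + 1) := by positivity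
    have h2 : (0 : ℝ) ≤ C := Nat.cast_nonneg _
    nlinarith
  have hδ0 : 0 ≤ δ := le_trans (Nat.cast_nonneg _) hδC
  -- the overhead
  have hover : ∀ s : ℕ, s ≤ 3 * (n + C + 1) → ((d * (k + Nat.size s) + d : ℕ) : ℝ) ≤ δ := by
    intro s hs
    have h1 : Nat.size s ≤ Nat.size (3 * (n + C + 1)) := Nat.size_le_size hs
    have h2 : Nat.size (n + C + 1) ≤ Nat.size (3 * (n + C + 1)) := Nat.size_le_size (by omega)
    have h3 : ((k : ℝ)) + Nat.size s ≤ 4 * Nat.size (3 * (n + C + 1)) + e := by
      have : k + Nat.size s ≤ 4 * Nat.size (3 * (n + C + 1)) + e := by omega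
      exact_mod_cast this
    have h4 := hsz n hn
    push_cast
    have h5 : (0 : ℝ) ≤ d := Nat.cast_nonneg _
    have h6 : (0 : ℝ) ≤ e := Nat.cast_nonneg _
    have h7 : (0 : ℝ) ≤ C := Nat.cast_nonneg _
    have h8 : (k : ℝ) + Nat.size s + 1 ≤ (4 * c0 + e + 1) * Real.logb 2 n := by
      have : (e : ℝ) + 1 ≤ (e + 1) * Real.logb 2 n := by nlinarith
      nlinarith
    have h9 := mul_le_mul_of_nonneg_left h8 h5
    rw [hδ]
    have h10 : 0 ≤ (C : ℝ) * Real.logb 2 n := by positivity
    nlinarith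
  -- the events
  let ev : ℕ × ℕ × ℕ → Set (ℕ → Bool) := fun t =>
    {A | ∃ q, KS (V A) q [] ≤ t.2.2 ∧ KS (V A) x q ≤ t.1 ∧ KS (V A) y q ≤ t.2.1}
  let F : Finset (ℕ × ℕ × ℕ) := range (n + C + 1) ×ˢ (range (n + C + 1) ×ˢ range (n + C + 1))
  let B : ℕ × ℕ × ℕ → Set (ℕ → Bool) := fun t =>
    if coin (ev t) ≤ (2 ^ k : ENNReal)⁻¹ then ev t else ∅
  have hB : ∀ t, coin (B t) ≤ (2 ^ k : ENNReal)⁻¹ := by
    intro t
    simp only [B]
    split_ifs with h
    · exact h
    · simp
  have hsub : {A | ¬ GW (V A) x y ⊆ plus δ (GW D x y)} ⊆ ⋃ t ∈ F, B t := by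
    intro A hA
    simp only [Set.mem_setOf_eq, Set.not_subset] at hA
    obtain ⟨t, ht, hnt⟩ := hA
    obtain ⟨h1, h2, h3, q, hq1, hq2, hq3⟩ := ht
    by_cases hγ : (n : ℝ) ≤ t.2.2
    · exfalso
      apply hnt
      refine ⟨h1, h2, h3, by dsimp only; linarith, by dsimp only; linarith, by dsimp only; linarith, pr x y, ?_, ?_, ?_⟩
      · dsimp only
        have : (KS D (pr x y) [] : ℝ) ≤ n := by exact_mod_cast hxy
        linarith
      · dsimp only
        have h4 := (hC1 x y []).2
        have : (KS D x (pr x y) : ℝ) ≤ C := by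
          have : KS D x (pr x y) ≤ C := by omega
          exact_mod_cast this
        linarith
      · dsimp only
        have h4 := (hC2 x y []).2
        have : (KS D y (pr x y) : ℝ) ≤ C := by
          have : KS D y (pr x y) ≤ C := by omega
          exact_mod_cast this
        linarith
    · push Not at hγ
      have e1 : KS (V A) q [] < n := by
        have : (KS (V A) q [] : ℝ) < n := lt_of_le_of_lt hq1 hγ
        exact_mod_cast this
      have e2 : KS (V A) x q ≤ n + C := by
        have f1 := hC3 A x q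
        have f2 := (hC1 x y q).1
        omega
      have e3 : KS (V A) y q ≤ n + C := by
        have f1 := hC3 A y q
        have f2 := (hC2 x y q).1
        omega
      have hmem : A ∈ ev (KS (V A) x q, KS (V A) y q, KS (V A) q []) := ⟨q, le_rfl, le_rfl, le_rfl⟩
      rw [Set.mem_iUnion₂]
      refine ⟨(KS (V A) x q, KS (V A) y q, KS (V A) q []), ?_, ?_⟩
      · simp only [F, mem_product, mem_range]
        omega
      · by_cases hle : coin (ev (KS (V A) x q, KS (V A) y q, KS (V A) q [])) ≤ (2 ^ k : ENNReal)⁻¹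
        · simp only [B]
          rw [if_pos hle]
          exact hmem
        · exfalso
          push Not at hle
          apply hnt
          obtain ⟨q', g1, g2, g3⟩ := hd _ _ _ k x y hle
          have hov := hover (KS (V A) x q + KS (V A) y q + KS (V A) q [] + 1) (by omega)
          refine ⟨h1, h2, h3, by dsimp only; linarith, by dsimp only; linarith, by dsimp only; linarith, q', ?_, ?_, ?_⟩
          · dsimp only
            have : (KS D q' [] : ℝ) ≤ (KS (V A) q [] : ℝ) +
                ((d * (k + Nat.size (KS (V A) x q + KS (V A) y q + KS (V A) q [] + 1)) + d : ℕ) : ℝ) := by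
              have := g1
              rw [add_assoc] at this
              exact_mod_cast this
            linarith
          · dsimp only
            have : (KS D x q' : ℝ) ≤ (KS (V A) x q : ℝ) +
                ((d * (k + Nat.size (KS (V A) x q + KS (V A) y q + KS (V A) q [] + 1)) + d : ℕ) : ℝ) := by
              have := g2
              rw [add_assoc] at this
              exact_mod_cast this
            linarith
          · dsimp only
            have : (KS D y q' : ℝ) ≤ (KS (V A) y q : ℝ) +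
                ((d * (k + Nat.size (KS (V A) x q + KS (V A) y q + KS (V A) q [] + 1)) + d : ℕ) : ℝ) := by
              have := g3
              rw [add_assoc] at this
              exact_mod_cast this
            linarith
  calc coin {A | ¬ GW (V A) x y ⊆ plus δ (GW D x y)} ≤ coin (⋃ t ∈ F, B t) := measure_mono hsub
    _ ≤ ∑ t ∈ F, coin (B t) := measure_biUnion_finset_le F B
    _ ≤ ∑ _t ∈ F, (2 ^ k : ENNReal)⁻¹ := Finset.sum_le_sum fun t _ => hB t
    _ = (F.card : ENNReal) * (2 ^ k : ENNReal)⁻¹ := by rw [Finset.sum_const, nsmul_eq_mul]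
    _ ≤ ENNReal.ofReal ε := by
      have h1 : F.card ≤ (2 ^ Nat.size (n + C + 1)) ^ 3 := by
        simp only [F, card_product, card_range]
        have := (Nat.lt_size_self (n + C + 1)).le
        calc (n + C + 1) * ((n + C + 1) * (n + C + 1)) = (n + C + 1) ^ 3 := by ring
          _ ≤ _ := Nat.pow_le_pow_left this 3
      have h2 : (F.card : ENNReal) * (2 ^ k : ENNReal)⁻¹ = ENNReal.ofReal ((F.card : ℝ) * ((2 : ℝ) ^ k)⁻¹) := by
        rw [ENNReal.ofReal_mul (Nat.cast_nonneg _), ENNReal.ofReal_natCast,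
          ENNReal.ofReal_inv_of_pos (by positivity), ENNReal.ofReal_pow (by norm_num)]
        norm_num
      rw [h2]
      apply ENNReal.ofReal_le_ofReal
      refine le_trans ?_ he.le
      have h3 : (F.card : ℝ) ≤ 2 ^ (3 * Nat.size (n + C + 1)) := by
        have : F.card ≤ 2 ^ (3 * Nat.size (n + C + 1)) := by
          rw [mul_comm, pow_mul]; exact h1
        exact_mod_cast this
      calc (F.card : ℝ) * ((2 : ℝ) ^ k)⁻¹ ≤ 2 ^ (3 * Nat.size (n + C + 1)) * ((2 : ℝ) ^ k)⁻¹ :=
            mul_le_mul_of_nonneg_right h3 (by positivity)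
        _ = (1 / 2) ^ e := by
            rw [hk, pow_add, mul_inv, ← mul_assoc, mul_inv_cancel₀ (by positivity), one_mul, one_div, inv_pow]

end Pool.Agent.H57GWR
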