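import Mathlib

/-!
# Kolmogorov complexity with and without an oracle, the Gray–Wyner profile
-/

set_option autoImplicit false

namespace Pool.Agent.H57GWR

open MeasureTheory

/-- A conditional decompressor `D` (`D p v` is the output on the program `p` and the condition `v`) is optimal: it is partial
computable, and for every partial computable `E` the shortest programs for `D` are longer than those for `E` by at most a
constant. -/
def OptCond (D : List Bool → List Bool →. List Bool) : Prop :=
  Partrec₂ D ∧ ∀ E : List Bool → List Bool →. List Bool, Partrec₂ E →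
    ∃ c : ℕ, ∀ p v u : List Bool, u ∈ E p v → ∃ q : List Bool, u ∈ D q v ∧ q.length ≤ p.length + c

/-- The first `n` bits of the infinite binary sequence `A`. -/
def ini (A : ℕ → Bool) (n : ℕ) : List Bool := (List.range n).map A

/-- `V` is computed by an oracle machine: there is an r.e. set of axioms `(σ, p, v, u)` (on the program `p` and
the condition `v` the machine outputs `u`, having queried only the bits in the finite string `σ`) such that
`V A p v = u` if and only if one of the axioms `(σ, p, v, u)` has a `σ` which is an initial segment of the oracle `A`. -/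
def OracleMachine (V : (ℕ → Bool) → List Bool → List Bool →. List Bool) : Prop :=
  ∃ W : Set (List Bool × List Bool × List Bool × List Bool), REPred (fun t => t ∈ W) ∧
    ∀ (A : ℕ → Bool) (p v u : List Bool), u ∈ V A p v ↔ ∃ n, (ini A n, p, v, u) ∈ W

/-- `V` is an optimal oracle machine; the constant does not depend on the oracle. -/
def OptOracle (V : (ℕ → Bool) → List Bool → List Bool →. List Bool) : Prop :=
  OracleMachine V ∧ ∀ E : (ℕ → Bool) → List Bool → List Bool →. List Bool, OracleMachine E →
    ∃ c : ℕ, ∀ (A : ℕ → Bool) (p v u : List Bool), u ∈ E A p v →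
      ∃ q : List Bool, u ∈ V A q v ∧ q.length ≤ p.length + c

/-- The conditional complexity `KS(u | v)` with respect to the decompressor `D`: the least length of a program
which outputs `u` on the condition `v`. -/
noncomputable def KS (D : List Bool → List Bool →. List Bool) (u v : List Bool) : ℕ :=
  sInf {m : ℕ | ∃ p : List Bool, u ∈ D p v ∧ p.length = m}

/-- A computable encoding of pairs of strings by strings. -/
def PairCode (pr : List Bool → List Bool → List Bool) : Prop :=
  Computable₂ pr ∧ ∀ x y x' y', pr x y = pr x' y' → x = x' ∧ y = y'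

/-- The Gray–Wyner profile of the pair `(x, y)`: the triples `(α, β, γ)` of nonnegative reals such that for some `q`
`KS(q) ≤ γ`, `KS(x | q) ≤ α` and `KS(y | q) ≤ β`. The complexity `KS(q)` is `KS(q | empty string)`. -/
def GW (D : List Bool → List Bool →. List Bool) (x y : List Bool) : Set (ℝ × ℝ × ℝ) :=
  {t | 0 ≤ t.1 ∧ 0 ≤ t.2.1 ∧ 0 ≤ t.2.2 ∧
    ∃ q : List Bool, (KS D q [] : ℝ) ≤ t.2.2 ∧ (KS D x q : ℝ) ≤ t.1 ∧ (KS D y q : ℝ) ≤ t.2.1}

/-- The set `S_{+δ}` of the triples (of nonnegative numbers) that are in `S` after adding `δ` to the coordinates. -/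
def plus (δ : ℝ) (S : Set (ℝ × ℝ × ℝ)) : Set (ℝ × ℝ × ℝ) :=
  {t | 0 ≤ t.1 ∧ 0 ≤ t.2.1 ∧ 0 ≤ t.2.2 ∧ (t.1 + δ, t.2.1 + δ, t.2.2 + δ) ∈ S}

/-- The uniform (fair coin) measure on the set of infinite binary sequences. -/
noncomputable def coin : Measure (ℕ → Bool) :=
  Measure.infinitePi (fun _ : ℕ => (PMF.uniformOfFintype Bool).toMeasure)

end Pool.Agent.H57GWR
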