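import Pool.Agent.H57GWR.Stm2

/-!
# Project GWR, job ORC: the enumeration of an oracle machine
-/

set_option autoImplicit false

namespace Pool.Agent.H57GWR

open Finset MeasureTheory
open Pool.Agent.Helper578.JD.RE
open Pool.Agent.H166R3.AT (bex ball bex_iff ball_iff c_bex c_ball c_le c_lt c_eq c_div c_mod c_pow c_and)

namespace ORC

/-- the list of the first `n` binary digits of `w` -/
def bl (w n : ℕ) : List Bool := (List.range n).map (fun i => decide (w / 2 ^ i % 2 = 1))

/-- the string with the number `n` -/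
def dcd (n : ℕ) : List Bool := ((Encodable.decode n : Option (List Bool))).getD []

/-- `n` is the number of a string -/
def isS (n : ℕ) : Bool := decide (Encodable.encode (dcd n) = n)

theorem dcd_encode (x : List Bool) : dcd (Encodable.encode x) = x := by
  simp [dcd]

theorem isS_encode (x : List Bool) : isS (Encodable.encode x) = true := by
  simp [isS, dcd_encode]

/-- the axiom with number `n'` ... has been enumerated, for a program with code less than `s` and length less than `L` -/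
def TT (wq : (List Bool × List Bool × List Bool × List Bool) → ℕ → Bool)
    (s w L : ℕ) (v u : List Bool) : Bool :=
  bex s (fun np => decide ((dcd np).length < L) &&
    bex (s + 1) (fun n => bex s (fun m => wq (bl w n, dcd np, v, u) m)))

/-- the enumeration -/
def InO (wq : (List Bool × List Bool × List Bool × List Bool) → ℕ → Bool)
    (P : Par) (s w q : ℕ) (i : Bool) (e : ℕ) : Bool :=
  decide (q < s) && decide (e < s) && isS q && isS e &&
    TT wq s w (pg P) [] (dcd q) && TT wq s w (pa P i) (dcd q) (dcd e)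

theorem c_dcd : Computable dcd :=
  Computable.option_getD (Computable.decode) (Computable.const [])

theorem c_bl : Computable (fun t : ℕ × ℕ => bl t.1 t.2) := by
  have h1 : Primrec (fun t : ℕ × ℕ => List.range t.2) := Primrec.list_range.comp Primrec.snd
  have h2 : Primrec₂ (fun (t : ℕ × ℕ) (i : ℕ) => decide (t.1 / 2 ^ i % 2 = 1)) := by
    have hpow : Primrec (fun p : (ℕ × ℕ) × ℕ => 2 ^ p.2) :=
      Pool.Agent.H166R3.AT.pow_primrec'.comp (Primrec.const 2) Primrec.snd
    have hdiv : Primrec (fun p : (ℕ × ℕ) × ℕ => p.1.1 / 2 ^ p.2 % 2) :=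
      Primrec.nat_mod.comp (Primrec.nat_div.comp (Primrec.fst.comp Primrec.fst) hpow) (Primrec.const 2)
    exact (Primrec.eq (α := ℕ)).decide.comp hdiv (Primrec.const 1)
  exact (Primrec.list_map h1 h2).to_comp

theorem c_TT {wq : (List Bool × List Bool × List Bool × List Bool) → ℕ → Bool} (hw : Computable₂ wq)
    {α : Type} [Primcodable α] {s w L : α → ℕ} {v u : α → List Bool} (hs : Computable s)
    (hw' : Computable w) (hL : Computable L) (hv : Computable v) (hu : Computable u) :
    Computable (fun a => TT wq (s a) (w a) (L a) (v a) (u a)) := by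
  unfold TT
  refine c_bex hs ?_
  have hf1 : Computable (fun x : α × ℕ => x.1) := Computable.fst
  have hf2 : Computable (fun x : α × ℕ => x.2) := Computable.snd
  refine c_and (c_lt (Computable.list_length.comp (c_dcd.comp hf2)) (hL.comp hf1)) ?_
  refine c_bex (Computable.succ.comp (hs.comp hf1)) ?_
  refine c_bex ?_ ?_
  · exact hs.comp (Computable.fst.comp Computable.fst)
  · have ha : Computable (fun x : ((α × ℕ) × ℕ) × ℕ => x.1.1.1) :=
      Computable.fst.comp (Computable.fst.comp Computable.fst)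
    have hnp : Computable (fun x : ((α × ℕ) × ℕ) × ℕ => x.1.1.2) :=
      Computable.snd.comp (Computable.fst.comp Computable.fst)
    have hn : Computable (fun x : ((α × ℕ) × ℕ) × ℕ => x.1.2) :=
      Computable.snd.comp Computable.fst
    have hm : Computable (fun x : ((α × ℕ) × ℕ) × ℕ => x.2) := Computable.snd
    have h1 : Computable (fun x : ((α × ℕ) × ℕ) × ℕ => bl (w x.1.1.1) x.1.2) :=
      Computable.comp (f := fun t : ℕ × ℕ => bl t.1 t.2)
        (g := fun x : ((α × ℕ) × ℕ) × ℕ => (w x.1.1.1, x.1.2)) c_bl (Computable.pair (hw'.comp ha) hn)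
    have h2 : Computable (fun x : ((α × ℕ) × ℕ) × ℕ => dcd x.1.1.2) := c_dcd.comp hnp
    have h3 : Computable (fun x : ((α × ℕ) × ℕ) × ℕ => v x.1.1.1) := hv.comp ha
    have h4 : Computable (fun x : ((α × ℕ) × ℕ) × ℕ => u x.1.1.1) := hu.comp ha
    have h5 : Computable (fun x : ((α × ℕ) × ℕ) × ℕ =>
        (bl (w x.1.1.1) x.1.2, dcd x.1.1.2, v x.1.1.1, u x.1.1.1)) :=
      Computable.pair h1 (Computable.pair h2 (Computable.pair h3 h4))
    have h6 : Computable (fun x : ((α × ℕ) × ℕ) × ℕ =>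
        wq (bl (w x.1.1.1) x.1.2, dcd x.1.1.2, v x.1.1.1, u x.1.1.1) x.2) :=
      Computable.comp (f := fun p : (List Bool × List Bool × List Bool × List Bool) × ℕ => wq p.1 p.2)
        (g := fun x : ((α × ℕ) × ℕ) × ℕ =>
          ((bl (w x.1.1.1) x.1.2, dcd x.1.1.2, v x.1.1.1, u x.1.1.1), x.2)) hw (Computable.pair h5 hm)
    exact h6

theorem c_InO {wq : (List Bool × List Bool × List Bool × List Bool) → ℕ → Bool} (hw : Computable₂ wq) :
    Computable (fun t : Par × ℕ × ℕ × ℕ × Bool × ℕ =>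
      InO wq t.1 t.2.1 t.2.2.1 t.2.2.2.1 t.2.2.2.2.1 t.2.2.2.2.2) := by
  have hP : Computable (fun t : Par × ℕ × ℕ × ℕ × Bool × ℕ => t.1) := Computable.fst
  have hs : Computable (fun t : Par × ℕ × ℕ × ℕ × Bool × ℕ => t.2.1) := by fun_prop
  have hw1 : Computable (fun t : Par × ℕ × ℕ × ℕ × Bool × ℕ => t.2.2.1) := by fun_prop
  have hq : Computable (fun t : Par × ℕ × ℕ × ℕ × Bool × ℕ => t.2.2.2.1) := by fun_prop
  have hi : Computable (fun t : Par × ℕ × ℕ × ℕ × Bool × ℕ => t.2.2.2.2.1) := by fun_prop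
  have he : Computable (fun t : Par × ℕ × ℕ × ℕ × Bool × ℕ => t.2.2.2.2.2) := by fun_prop
  have hisS : Computable isS := by
    have := c_eq (α := ℕ) (f := fun n => Encodable.encode (dcd n)) (g := fun n => n)
      (Computable.encode.comp c_dcd) Computable.id
    exact this.of_eq fun n => rfl
  have hpg : Computable (fun t : Par × ℕ × ℕ × ℕ × Bool × ℕ => pg t.1) := by
    unfold pg; fun_prop
  have hpa : Computable (fun t : Par × ℕ × ℕ × ℕ × Bool × ℕ => pa t.1 t.2.2.2.2.1) := by
    unfold pa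
    have h1 : Computable (fun t : Par × ℕ × ℕ × ℕ × Bool × ℕ => t.1.2.1) := by fun_prop
    have h2 : Computable (fun t : Par × ℕ × ℕ × ℕ × Bool × ℕ => t.1.1) := by fun_prop
    exact Pool.Agent.H166R3.AT.c_ite hi h1 h2
  unfold InO
  refine c_and (c_and (c_and (c_and (c_and (c_lt hq hs) (c_lt he hs)) (hisS.comp hq)) (hisS.comp he)) ?_) ?_
  · exact c_TT hw hs hw1 hpg (Computable.const []) (c_dcd.comp hq)
  · exact c_TT hw hs hw1 hpa (c_dcd.comp hq) (c_dcd.comp he)

theorem TT_iff {wq : (List Bool × List Bool × List Bool × List Bool) → ℕ → Bool} {s w L : ℕ} {v u : List Bool} :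
    TT wq s w L v u = true ↔ ∃ np < s, (dcd np).length < L ∧
      ∃ n ≤ s, ∃ m < s, wq (bl w n, dcd np, v, u) m = true := by
  unfold TT
  rw [bex_iff]
  constructor
  · rintro ⟨np, h1, h2⟩
    rw [Bool.and_eq_true, decide_eq_true_iff, bex_iff] at h2
    obtain ⟨h2, n, hn, h3⟩ := h2
    rw [bex_iff] at h3
    obtain ⟨m, hm, h3⟩ := h3
    exact ⟨np, h1, h2, n, by omega, m, hm, h3⟩
  · rintro ⟨np, h1, h2, n, hn, m, hm, h3⟩
    refine ⟨np, h1, ?_⟩
    rw [Bool.and_eq_true, decide_eq_true_iff, bex_iff]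
    refine ⟨h2, n, by omega, ?_⟩
    rw [bex_iff]
    exact ⟨m, hm, h3⟩

theorem bl_congr {w w' n : ℕ} (h : ∀ i < n, w / 2 ^ i % 2 = w' / 2 ^ i % 2) : bl w n = bl w' n := by
  unfold bl
  refine List.map_congr_left fun i hi => ?_
  rw [h i (List.mem_range.1 hi)]

theorem bl_add {w n s : ℕ} (h : n ≤ s) : bl (w + 2 ^ s) n = bl w n := by
  refine bl_congr fun i hi => ?_
  have h1 : 2 ^ s = 2 ^ i * (2 * 2 ^ (s - i - 1)) := by
    rw [← pow_succ', ← pow_add]
    congr 1
    omega
  rw [h1, Nat.add_mul_div_left _ _ (Nat.pos_of_ne_zero (by positivity))]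
  omega

theorem TT_mono {wq : (List Bool × List Bool × List Bool × List Bool) → ℕ → Bool} {s w w' L : ℕ} {v u : List Bool}
    (hw : w' = w ∨ w' = w + 2 ^ s) (h : TT wq s w L v u = true) : TT wq (s + 1) w' L v u = true := by
  rw [TT_iff] at h ⊢
  obtain ⟨np, h1, h2, n, hn, m, hm, h3⟩ := h
  refine ⟨np, by omega, h2, n, by omega, m, by omega, ?_⟩
  rcases hw with rfl | rfl
  · exact h3
  · rw [bl_add hn]; exact h3

/-- few short strings -/
theorem exists_short (L : ℕ) : ∃ F : Finset (List Bool), (∀ p : List Bool, p.length < L → p ∈ F) ∧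
    F.card + 1 ≤ 2 ^ L := by
  induction L with
  | zero => exact ⟨∅, fun p hp => by omega, by simp⟩
  | succ L ih =>
    obtain ⟨F, hF, hc⟩ := ih
    classical
    refine ⟨{[]} ∪ (F.image (List.cons true) ∪ F.image (List.cons false)), ?_, ?_⟩
    · intro p hp
      rcases p with _ | ⟨b, p⟩
      · simp
      · have h1 : p ∈ F := hF p (by simpa using hp)
        cases b
        · simp [h1]
        · simp [h1]
    · have h1 : ({[]} ∪ (F.image (List.cons true) ∪ F.image (List.cons false))).card ≤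
          1 + (F.card + F.card) := by
        refine (Finset.card_union_le _ _).trans ?_
        refine Nat.add_le_add (by simp) ?_
        refine (Finset.card_union_le _ _).trans ?_
        exact Nat.add_le_add Finset.card_image_le Finset.card_image_le
      rw [pow_succ]
      omega

/-- the oracle with the digits of `w` -/
def orc (w : ℕ) : ℕ → Bool := fun i => decide (w / 2 ^ i % 2 = 1)

theorem ini_orc (w n : ℕ) : ini (orc w) n = bl w n := rfl

section machine

variable {V : (ℕ → Bool) → List Bool → List Bool →. List Bool}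
  {wq : (List Bool × List Bool × List Bool × List Bool) → ℕ → Bool}

theorem TT_spec (hV : ∀ (A : ℕ → Bool) (p v u : List Bool), u ∈ V A p v ↔ ∃ n m, wq (ini A n, p, v, u) m = true)
    {s w L : ℕ} {v u : List Bool} (h : TT wq s w L v u = true) :
    ∃ p : List Bool, p.length < L ∧ u ∈ V (orc w) p v := by
  rw [TT_iff] at h
  obtain ⟨np, h1, h2, n, hn, m, hm, h3⟩ := h
  exact ⟨dcd np, h2, (hV _ _ _ _).2 ⟨n, m, h3⟩⟩

/-- counting -/
theorem count (hV : ∀ (A : ℕ → Bool) (p v u : List Bool), u ∈ V A p v ↔ ∃ n m, wq (ini A n, p, v, u) m = true)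
    {s w L : ℕ} {v : List Bool} (F : Finset ℕ) (hF : ∀ q ∈ F, isS q = true ∧ TT wq s w L v (dcd q) = true) :
    F.card ≤ 2 ^ L := by
  classical
  obtain ⟨G, hG, hc⟩ := exists_short L
  have h1 : ∀ q, ∃ p : List Bool, q ∈ F → p.length < L ∧ dcd q ∈ V (orc w) p v := by
    intro q
    by_cases hq : q ∈ F
    · obtain ⟨p, h⟩ := TT_spec hV (hF q hq).2
      exact ⟨p, fun _ => h⟩
    · exact ⟨[], fun h => absurd h hq⟩
  choose f hf using h1
  have h2 : F.card ≤ G.card := by
    refine Finset.card_le_card_of_injOn f (fun q hq => hG _ (hf q hq).1) ?_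
    intro q hq q' hq' h
    have h3 := (hf q hq).2
    have h4 := (hf q' hq').2
    rw [← h] at h4
    have h5 : dcd q = dcd q' := Part.mem_unique h3 h4
    have h6 := (hF q hq).1
    have h7 := (hF q' hq').1
    unfold isS at h6 h7
    rw [decide_eq_true_iff] at h6 h7
    rw [← h6, ← h7, h5]
  omega

theorem InO_iff {P : Par} {s w q : ℕ} {i : Bool} {e : ℕ} : InO wq P s w q i e = true ↔
    q < s ∧ e < s ∧ isS q = true ∧ isS e = true ∧ TT wq s w (pg P) [] (dcd q) = true ∧
      TT wq s w (pa P i) (dcd q) (dcd e) = true := by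
  unfold InO
  simp only [Bool.and_eq_true, decide_eq_true_iff]
  tauto

theorem InO_mono {P : Par} {s w w' q : ℕ} {i : Bool} {e : ℕ} (hw : w' = w ∨ w' = w + 2 ^ s)
    (h : InO wq P s w q i e = true) : InO wq P (s + 1) w' q i e = true := by
  rw [InO_iff] at h ⊢
  obtain ⟨h1, h2, h3, h4, h5, h6⟩ := h
  exact ⟨by omega, by omega, h3, h4, TT_mono hw h5, TT_mono hw h6⟩

theorem legal (hV : ∀ (A : ℕ → Bool) (p v u : List Bool), u ∈ V A p v ↔ ∃ n m, wq (ini A n, p, v, u) m = true)
    (P : Par) : Legal (InO wq P) (pa P) (pg P) := by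
  constructor
  · intro s w q i e h
    rw [InO_iff] at h
    exact ⟨h.1, h.2.1⟩
  · intro s w q i e _ h
    exact ⟨InO_mono (Or.inl rfl) h, InO_mono (Or.inr rfl) h⟩
  · intro s w _
    refine count (s := s) (w := w) (v := []) hV _ fun q hq => ?_
    rw [Finset.mem_filter] at hq
    obtain ⟨_, i, e, he, h⟩ := hq
    rw [InO_iff] at h
    exact ⟨h.2.2.1, h.2.2.2.2.1⟩
  · intro s w q i _
    refine count (s := s) (w := w) (v := dcd q) hV _ fun e he => ?_
    rw [Finset.mem_filter] at he
    obtain ⟨_, h⟩ := he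
    rw [InO_iff] at h
    exact ⟨h.2.2.2.1, h.2.2.2.2.2⟩

end machine

/-- the number with the digits `A 0, ..., A (s - 1)` -/
def wv (A : ℕ → Bool) : ℕ → ℕ
  | 0 => 0
  | s + 1 => wv A s + if A s = true then 2 ^ s else 0

theorem wv_lt (A : ℕ → Bool) (s : ℕ) : wv A s < 2 ^ s := by
  induction s with
  | zero => simp [wv]
  | succ s ih =>
    rw [wv, pow_succ]
    split_ifs <;> omega

theorem wv_digit (A : ℕ → Bool) (s i : ℕ) (hi : i < s) : decide (wv A s / 2 ^ i % 2 = 1) = A i := by
  induction s with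
  | zero => omega
  | succ s ih =>
    rw [wv]
    rcases Nat.lt_succ_iff_lt_or_eq.1 hi with h | h
    · split_ifs
      · have h1 : 2 ^ s = 2 ^ i * (2 * 2 ^ (s - i - 1)) := by
          rw [← pow_succ', ← pow_add]
          congr 1
          omega
        rw [h1, Nat.add_mul_div_left _ _ (Nat.pos_of_ne_zero (by positivity)), Nat.add_mul_mod_self_left]
        exact ih h
      · rw [add_zero]; exact ih h
    · subst h
      have h2 := wv_lt A i
      split_ifs with h3
      · rw [Nat.add_div_right _ (by positivity), Nat.div_eq_of_lt h2, h3]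
        rfl
      · rw [add_zero, Nat.div_eq_of_lt h2]
        simp [h3]

theorem bl_wv (A : ℕ → Bool) {n s : ℕ} (h : n ≤ s) : bl (wv A s) n = ini A n := by
  unfold bl ini
  refine List.map_congr_left fun i hi => ?_
  exact wv_digit A s i (by have := List.mem_range.1 hi; omega)

theorem coin_cyl (s w : ℕ) : coin {A | wv A s = w} ≤ (2 ^ s : ENNReal)⁻¹ := by
  have hsub : {A | wv A s = w} ⊆ Set.pi (↑(Finset.range s) : Set ℕ)
      (fun i => {b : Bool | b = decide (w / 2 ^ i % 2 = 1)}) := by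
    intro A hA i hi
    have hi' : i < s := by simpa using hi
    have hA' : wv A s = w := hA
    show A i = decide (w / 2 ^ i % 2 = 1)
    rw [← hA', wv_digit A s i hi']
  refine (measure_mono hsub).trans ?_
  unfold coin
  rw [Measure.infinitePi_pi]
  · have h1 : ∀ i ∈ Finset.range s, (PMF.uniformOfFintype Bool).toMeasure
        {b : Bool | b = decide (w / 2 ^ i % 2 = 1)} = (2 : ENNReal)⁻¹ := by
      intro i _
      have h2 : {b : Bool | b = decide (w / 2 ^ i % 2 = 1)} = {decide (w / 2 ^ i % 2 = 1)} := rfl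
      rw [h2, PMF.toMeasure_apply_singleton _ _ (MeasurableSet.singleton _)]
      simp
    rw [Finset.prod_congr rfl h1]
    simp [ENNReal.inv_pow]
  · intro i _
    exact MeasurableSet.of_discrete

end ORC

open ORC in
theorem orc : S_ORC := by
  classical
  intro V hV htot
  obtain ⟨W, hW, hVW⟩ := hV
  obtain ⟨wq, hwq, hw⟩ := re_iff.1 hW
  have hV' : ∀ (A : ℕ → Bool) (p v u : List Bool), u ∈ V A p v ↔ ∃ n m, wq (ini A n, p, v, u) m = true := by
    intro A p v u
    rw [hVW]
    constructor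
    · rintro ⟨n, hn⟩
      obtain ⟨m, hm⟩ := (hw _).1 hn
      exact ⟨n, m, hm⟩
    · rintro ⟨n, m, hm⟩
      exact ⟨n, (hw _).2 ⟨m, hm⟩⟩
  refine ⟨InO wq, c_InO hwq, legal hV', ?_⟩
  intro α β γ k x y hk
  set P : Par := (α + 1, β + 1, γ + 1, k) with hP
  let E : ℕ → Set (ℕ → Bool) := fun s => {A | ∃ q < s, InO wq P s (wv A s) q false (Encodable.encode x) = true ∧
    InO wq P s (wv A s) q true (Encodable.encode y) = true}
  have hEmono : ∀ s, E s ⊆ E (s + 1) := by
    intro s A hA
    obtain ⟨q, hq, h1, h2⟩ := hA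
    have hw' : wv A (s + 1) = wv A s ∨ wv A (s + 1) = wv A s + 2 ^ s := by
      rw [wv]; split_ifs <;> simp
    exact ⟨q, by omega, InO_mono hw' h1, InO_mono hw' h2⟩
  have hEm : Monotone E := monotone_nat_of_le_succ hEmono
  -- the event is contained in the union
  have hKS : ∀ (A : ℕ → Bool) (u v : List Bool) (m : ℕ), KS (V A) u v ≤ m → ∃ p : List Bool, p.length < m + 1 ∧
      u ∈ V A p v := by
    intro A u v m h
    obtain ⟨p0, hp0⟩ := htot A v u
    have hne : {m : ℕ | ∃ p : List Bool, u ∈ V A p v ∧ p.length = m}.Nonempty := ⟨_, p0, hp0, rfl⟩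
    obtain ⟨p, hp, hl⟩ := Nat.sInf_mem hne
    refine ⟨p, ?_, hp⟩
    have : p.length = KS (V A) u v := hl
    omega
  have hTT : ∀ (A : ℕ → Bool) (L : ℕ) (v u : List Bool), (∃ p : List Bool, p.length < L ∧ u ∈ V A p v) →
      ∃ s0, ∀ s ≥ s0, TT wq s (wv A s) L v u = true := by
    rintro A L v u ⟨p, hp, hu⟩
    obtain ⟨n, m, hm⟩ := (hV' A p v u).1 hu
    refine ⟨Encodable.encode p + n + m + 1, fun s hs => ?_⟩
    rw [TT_iff]
    refine ⟨Encodable.encode p, by omega, by rw [dcd_encode]; exact hp, n, by omega, m, by omega, ?_⟩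
    rw [dcd_encode, bl_wv A (by omega)]
    exact hm
  have hsub : {A | ∃ q, KS (V A) q [] ≤ γ ∧ KS (V A) x q ≤ α ∧ KS (V A) y q ≤ β} ⊆ ⋃ s, E s := by
    rintro A ⟨q, hq, hx, hy⟩
    obtain ⟨s1, h1⟩ := hTT A (γ + 1) [] q (hKS A q [] γ hq)
    obtain ⟨s2, h2⟩ := hTT A (α + 1) q x (hKS A x q α hx)
    obtain ⟨s3, h3⟩ := hTT A (β + 1) q y (hKS A y q β hy)
    rw [Set.mem_iUnion]
    refine ⟨s1 + s2 + s3 + Encodable.encode q + Encodable.encode x + Encodable.encode y + 1,
      Encodable.encode q, by omega, ?_, ?_⟩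
    · rw [InO_iff, dcd_encode, dcd_encode]
      exact ⟨by omega, by omega, isS_encode _, isS_encode _, h1 _ (by omega), h2 _ (by omega)⟩
    · rw [InO_iff, dcd_encode, dcd_encode]
      exact ⟨by omega, by omega, isS_encode _, isS_encode _, h1 _ (by omega), h3 _ (by omega)⟩
  have hlt : (2 ^ k : ENNReal)⁻¹ < ⨆ s, coin (E s) := by
    refine lt_of_lt_of_le hk ((measure_mono hsub).trans ?_)
    rw [(directed_of_isDirected_le hEm).measure_iUnion]
  obtain ⟨s, hs⟩ := lt_iSup_iff.1 hlt
  refine ⟨s, ?_⟩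
  set G : Finset ℕ := (range (2 ^ s)).filter fun w => ∃ q < s,
        InO wq P s w q false (Encodable.encode x) = true ∧
        InO wq P s w q true (Encodable.encode y) = true with hG
  have hle : coin (E s) ≤ (G.card : ENNReal) * (2 ^ s : ENNReal)⁻¹ := by
    have h1 : E s ⊆ ⋃ w ∈ G, {A | wv A s = w} := by
      intro A hA
      rw [Set.mem_iUnion₂]
      refine ⟨wv A s, ?_, rfl⟩
      rw [hG, Finset.mem_filter]
      exact ⟨Finset.mem_range.2 (wv_lt A s), hA⟩
    refine (measure_mono h1).trans ((measure_biUnion_finset_le _ _).trans ?_)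
    refine (Finset.sum_le_sum fun w _ => coin_cyl s w).trans ?_
    rw [Finset.sum_const, nsmul_eq_mul]
  have h2 : (2 ^ k : ENNReal)⁻¹ < (G.card : ENNReal) * (2 ^ s : ENNReal)⁻¹ := lt_of_lt_of_le hs hle
  have h3 : (2 ^ s : ENNReal) < 2 ^ k * (G.card : ENNReal) := by
    have hs0 : (2 ^ s : ENNReal) ≠ 0 := by positivity
    have hst : (2 ^ s : ENNReal) ≠ ⊤ := by simp
    have hk0 : (2 ^ k : ENNReal) ≠ 0 := by positivity
    have hkt : (2 ^ k : ENNReal) ≠ ⊤ := by simp
    rw [← div_eq_mul_inv, ENNReal.lt_div_iff_mul_lt (Or.inl hs0) (Or.inl hst), mul_comm,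
      ← div_eq_mul_inv, ENNReal.div_lt_iff (Or.inl hk0) (Or.inl hkt)] at h2
    rw [mul_comm]
    exact h2
  exact_mod_cast h3

end Pool.Agent.H57GWR
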