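import Pool.Agent.H57GWR.Asm
import Pool.Agent.H57GWR.DYNRE
import Pool.Agent.H57GWR.ORC
import Pool.Agent.H57GWR.EXO
import Pool.Agent.H57GWR.COV

/-!
# Project GWR: the integer statement MT
-/

set_option autoImplicit false

namespace Pool.Agent.H57GWR

open Finset MeasureTheory
open scoped Classical

lemma NN_lt_size (a : Bool → ℕ) (g k : ℕ) : NN a g k ≤ 2 ^ Nat.size (NN a g k) := (Nat.lt_size_self _).le

lemma size_ge (a : Bool → ℕ) (g k : ℕ) : 4 ≤ Nat.size (NN a g k) := by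
  have h := ten_le_NN (a := a) (g := g) (k := k)
  by_contra hcon
  have h1 : NN a g k < 2 ^ 3 := by
    have h2 := Nat.lt_size_self (NN a g k)
    have h3 : (2 : ℕ) ^ Nat.size (NN a g k) ≤ 2 ^ 3 := Nat.pow_le_pow_right (by norm_num) (by omega)
    omega
  omega

lemma bnd1 (a : Bool → ℕ) (g k e : ℕ) : 2 * Pp a g k * NN a g k * 2 ^ e ≤ 2 ^ (e + 15 * (k + Nat.size (NN a g k))) := by
  have h1 := NN_lt_size a g k
  have h2 := size_ge a g k
  unfold Pp
  generalize NN a g k = N at h1 h2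
  generalize Nat.size N = m at h1 h2
  calc 2 * (2 ^ k * N ^ 13) * N * 2 ^ e = 2 ^ (1 + k + e) * N ^ 14 := by rw [pow_add, pow_add]; ring
    _ ≤ 2 ^ (1 + k + e) * (2 ^ m) ^ 14 := Nat.mul_le_mul_left _ (Nat.pow_le_pow_left h1 14)
    _ = 2 ^ (1 + k + e + m * 14) := by rw [← pow_mul, ← pow_add]
    _ ≤ 2 ^ (e + 15 * (k + m)) := Nat.pow_le_pow_right (by norm_num) (by omega)

lemma bnd2 (a : Bool → ℕ) (g k e : ℕ) :
    (Ka a g k * 2 ^ (k + 3) + Kb a g k) * NN a g k * 2 ^ e ≤ 2 ^ (e + 15 * (k + Nat.size (NN a g k))) := by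
  have h1 := NN_lt_size a g k
  have h2 := size_ge a g k
  have h10 := ten_le_NN (a := a) (g := g) (k := k)
  unfold Ka Kb
  generalize NN a g k = N at h1 h2 h10
  generalize Nat.size N = m at h1 h2
  have h3 : N ^ 5 ≤ N ^ 8 := Nat.pow_le_pow_right (by omega) (by norm_num)
  calc (N ^ 5 * 2 ^ (k + 3) + 2 ^ k * N ^ 8) * N * 2 ^ e
      ≤ (N ^ 8 * 2 ^ (k + 3) + 2 ^ k * N ^ 8) * N * 2 ^ e := by gcongr
    _ = 2 ^ k * 9 * N ^ 9 * 2 ^ e := by rw [pow_add]; ring
    _ ≤ 2 ^ k * 2 ^ 4 * (2 ^ m) ^ 9 * 2 ^ e := by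
      gcongr
      norm_num
    _ = 2 ^ (k + 4 + m * 9 + e) := by rw [← pow_mul, ← pow_add, ← pow_add, ← pow_add]
    _ ≤ 2 ^ (e + 15 * (k + m)) := Nat.pow_le_pow_right (by norm_num) (by omega)

lemma bnd3 (a : Bool → ℕ) (g k e : ℕ) : NN a g k * 2 ^ e ≤ 2 ^ (e + 15 * (k + Nat.size (NN a g k))) := by
  have h1 := NN_lt_size a g k
  generalize NN a g k = N at h1
  generalize Nat.size N = m at h1
  calc N * 2 ^ e ≤ 2 ^ m * 2 ^ e := Nat.mul_le_mul_right _ h1
    _ = 2 ^ (m + e) := by rw [pow_add]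
    _ ≤ 2 ^ (e + 15 * (k + m)) := Nat.pow_le_pow_right (by norm_num) (by omega)

lemma size_bound (α β γ k : ℕ) :
    Nat.size (α + 1 + (β + 1) + (γ + 1) + k + 10) ≤ Nat.size (α + β + γ + 1) + k + 4 := by
  rw [Nat.size_le]
  have h1 := Nat.lt_size_self (α + β + γ + 1)
  generalize Nat.size (α + β + γ + 1) = s at h1
  have h2 : k < 2 ^ k := Nat.lt_two_pow_self
  have h3 : 1 ≤ 2 ^ k := Nat.one_le_two_pow
  have h4 : 1 ≤ 2 ^ s := Nat.one_le_two_pow
  generalize 2 ^ k = K at h2 h3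
  have h5 : 2 ^ (s + k + 4) = 2 ^ s * 2 ^ k * 16 := by rw [pow_add, pow_add]; norm_num
  rw [h5]
  nlinarith [Nat.lt_two_pow_self (n := k), Nat.one_le_two_pow (n := k), Nat.mul_le_mul h4 (Nat.one_le_two_pow (n := k))]

/-- the integer statement -/
theorem mt (hfam : S_FAM) (hanal : S_ANAL) (D : List Bool → List Bool →. List Bool)
    (V : (ℕ → Bool) → List Bool → List Bool →. List Bool) (hD : OptCond D) (hV : OracleMachine V)
    (hsurj : ∀ (A : ℕ → Bool) (v u : List Bool), ∃ p, u ∈ V A p v) :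
    ∃ d : ℕ, ∀ (α β γ k : ℕ) (x y : List Bool),
      (2 ^ k : ENNReal)⁻¹ < coin {A | ∃ q, KS (V A) q [] ≤ γ ∧ KS (V A) x q ≤ α ∧ KS (V A) y q ≤ β} →
      ∃ q : List Bool, KS D q [] ≤ γ + d * (k + Nat.size (α + β + γ + 1)) + d ∧
        KS D x q ≤ α + d * (k + Nat.size (α + β + γ + 1)) + d ∧
        KS D y q ≤ β + d * (k + Nat.size (α + β + γ + 1)) + d := by
  obtain ⟨In, hIn, hLeg, hOrc⟩ := orc V hV hsurj
  obtain ⟨d, hd⟩ := hanal D hD (fun P r i G x => Dyn (In P) (pa P) (pg P) (pk P) r i G x) 15 (dynre In hIn)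
    (by
      intro P r i s F hF
      refine le_trans (t1 (In P) (pa P) (pg P) (pk P) (hLeg P) r i s F hF) ?_
      exact bnd1 (pa P) (pg P) (pk P) (pg P + pa P i))
    (by
      intro P r i F hF
      refine le_trans (t2 (In P) (pa P) (pg P) (pk P) (hLeg P) r i F hF) ?_
      exact bnd2 (pa P) (pg P) (pk P) (pg P + pa P (!i)))
    (by
      intro P r i G x h
      refine le_trans (t3 (In P) (pa P) (pg P) (pk P) (hLeg P) r i G x h) ?_
      exact bnd3 (pa P) (pg P) (pk P) (pa P i))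
  refine ⟨5 * d + 1, ?_⟩
  intro α β γ k x y hc
  obtain ⟨s, hs⟩ := hOrc α β γ k x y hc
  set P : Par := (α + 1, β + 1, γ + 1, k) with hP
  obtain ⟨r, hr, G, h⟩ := t4 hfam cov (In P) (pa P) (pg P) (pk P) (hLeg P) (Encodable.encode x) (Encodable.encode y) s hs
  obtain ⟨q, h1, h2, h3⟩ := hd P x y r G hr h
  have e1 : pa P false = α + 1 := by simp [pa, hP]
  have e2 : pa P true = β + 1 := by simp [pa, hP]
  have e3 : pg P = γ + 1 := by simp [pg, hP]
  have e4 : pk P = k := by simp [pk, hP]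
  have e5 : Nat.size (NN (pa P) (pg P) (pk P)) ≤ Nat.size (α + β + γ + 1) + k + 4 := by
    rw [NN, e1, e2, e3, e4]
    exact size_bound α β γ k
  have e6 : d * (pk P + Nat.size (NN (pa P) (pg P) (pk P))) + 1 ≤
      (5 * d + 1) * (k + Nat.size (α + β + γ + 1)) + (5 * d + 1) := by
    rw [e4] at *
    calc d * (k + Nat.size (NN (pa P) (pg P) k)) + 1 ≤ d * (k + (Nat.size (α + β + γ + 1) + k + 4)) + 1 := by gcongr
      _ ≤ _ := by
        generalize Nat.size (α + β + γ + 1) = t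
        nlinarith [Nat.zero_le (d * k), Nat.zero_le (d * t)]
  generalize d * (pk P + Nat.size (NN (pa P) (pg P) (pk P))) = E at h1 h2 h3 e6
  rw [e1] at h2
  rw [e2] at h3
  rw [e3] at h1
  exact ⟨q, by omega, by omega, by omega⟩

/-- An optimal oracle machine computes every string on every condition. -/
theorem opt_surj {V : (ℕ → Bool) → List Bool → List Bool →. List Bool} (hV : OptOracle V) :
    ∀ (A : ℕ → Bool) (v u : List Bool), ∃ p, u ∈ V A p v := by
  -- the machine that copies its program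
  have hE : OracleMachine (fun _ p _ => Part.some p) := by
    refine ⟨{t | t.2.1 = t.2.2.2}, ?_, ?_⟩
    · exact Pool.Agent.Helper578.JD.RE.eq (Computable.fst.comp Computable.snd)
        (Computable.snd.comp (Computable.snd.comp Computable.snd))
    · intro A p v u
      rw [Part.mem_some_iff]
      constructor
      · intro h; exact ⟨0, h.symm⟩
      · rintro ⟨_, h⟩; exact h.symm
  obtain ⟨c, hc⟩ := hV.2 _ hE
  intro A v u
  obtain ⟨q, hq, -⟩ := hc A u v u (Part.mem_some u)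
  exact ⟨q, hq⟩

end Pool.Agent.H57GWR
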