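import Pool.Agent.H57GWR.Vers

/-!
# Project GWR: PAIR
-/

set_option autoImplicit false

namespace Pool.Agent.H57GWR

open Finset
open Pool.Agent.H166R3.AT (bex ball bex_iff ball_iff)

section

variable {I : ℕ → ℕ → ℕ → Bool → ℕ → Bool} {a : Bool → ℕ} {g k : ℕ}

/-- there is `j < J` with `n / 2 ^ j` odd such that the step from `(n / 2 ^ (j + 1)) * 2 ^ (j + 1)` to
`(n / 2 ^ j) * 2 ^ j` changes the truth value of `P` -/
lemma dyadic_step (n : ℕ) (P : ℕ → Prop) (h0 : P n) (J : ℕ) (hJ : ¬ P ((n / 2 ^ J) * 2 ^ J)) :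
    ∃ j < J, n / 2 ^ j % 2 = 1 ∧ P ((n / 2 ^ j) * 2 ^ j) ∧ ¬ P ((n / 2 ^ j - 1) * 2 ^ j) := by
  induction J with
  | zero => simp at hJ; exact absurd h0 hJ
  | succ J ih =>
    by_cases h : P ((n / 2 ^ J) * 2 ^ J)
    · refine ⟨J, Nat.lt_succ_self J, ?_⟩
      have h1 : n / 2 ^ (J + 1) = n / 2 ^ J / 2 := by rw [pow_succ, Nat.div_div_eq_div_mul]
      rcases Nat.mod_two_eq_zero_or_one (n / 2 ^ J) with h2 | h2
      · exfalso
        apply hJ
        have h3 : n / 2 ^ (J + 1) * 2 ^ (J + 1) = n / 2 ^ J * 2 ^ J := by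
          rw [h1, pow_succ]
          have h4 : n / 2 ^ J / 2 * 2 = n / 2 ^ J := by omega
          calc n / 2 ^ J / 2 * (2 ^ J * 2) = (n / 2 ^ J / 2 * 2) * 2 ^ J := by ring
            _ = n / 2 ^ J * 2 ^ J := by rw [h4]
        rw [h3]; exact h
      · refine ⟨h2, h, ?_⟩
        have h3 : n / 2 ^ (J + 1) * 2 ^ (J + 1) = (n / 2 ^ J - 1) * 2 ^ J := by
          rw [h1, pow_succ]
          have h4 : n / 2 ^ J / 2 * 2 = n / 2 ^ J - 1 := by omega
          calc n / 2 ^ J / 2 * (2 ^ J * 2) = (n / 2 ^ J / 2 * 2) * 2 ^ J := by ring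
            _ = (n / 2 ^ J - 1) * 2 ^ J := by rw [h4]
        rw [← h3]; exact hJ
    · obtain ⟨j, hj, h1⟩ := ih h
      exact ⟨j, by omega, h1⟩

/-- The truncated memberships are covered by versions: there are `J ≤ NN` numbers such that apart from a set of
measure `< 2 ^ (- k - 3)` every membership of `x` is in one of these versions. -/
lemma trunc (hL : Legal I a g) (i : Bool) (x s : ℕ) :
    ∃ (V : ℕ → ℕ) (B : Finset ℕ), B ⊆ range (2 ^ s) ∧ 2 ^ (k + 3) * B.card < 2 ^ s ∧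
      (∀ w < 2 ^ s, w ∉ B → ∀ q, I s w q i x = true → ∃ j < NN a g k,
        Ver I k (V j) = true ∧ vi (V j) = i ∧ ve (V j) = x ∧ vf (V j) ≤ s ∧ prof I (V j) w q = true) := by
  classical
  set n := cnt I s i x * 2 ^ (k + 3) / 2 ^ s with hn
  have hns : rch I k n s i x = true := by
    rw [rch_iff]; exact Nat.div_mul_le_self _ _
  have hmn : ∀ m ≤ n, ∃ s' ≤ s, fst I k m s' i x = true := fun m hm => fst_exists (rch_le hm hns)
  -- the first stage function
  let τ : ℕ → ℕ := fun m => if h : m ≤ n then (hmn m h).choose else 0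
  have hτ : ∀ m ≤ n, τ m ≤ s ∧ fst I k m (τ m) i x = true := by
    intro m hm
    simp only [τ, dif_pos hm]
    exact (hmn m hm).choose_spec
  let V : ℕ → ℕ := fun j => code i x j (n / 2 ^ j - 1) (τ ((n / 2 ^ j - 1) * 2 ^ j)) (τ ((n / 2 ^ j) * 2 ^ j))
  let B : Finset ℕ := (range (2 ^ s)).filter fun w => ∃ q < s, I s w q i x = true ∧
    ¬ I (τ n) (w % 2 ^ τ n) q i x = true
  refine ⟨V, B, filter_subset _ _, ?_, ?_⟩
  · -- the measure of `B`
    obtain ⟨h1, h2⟩ := hτ n le_rfl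
    obtain ⟨d, hd⟩ := Nat.exists_eq_add_of_le h1
    have h3 := (fst_iff.1 h2).1
    rw [rch_iff] at h3
    have h4 : B.card + 2 ^ d * cnt I (τ n) i x ≤ cnt I s i x := by
      rw [← cnt_up (I := I) (τ n) d i x, ← hd, cnt, card_filter, ← sum_add_distrib]
      apply sum_le_sum
      intro w hw
      have hw' := mem_range.1 hw
      have hsub : ((range (τ n)).filter fun q => I (τ n) (w % 2 ^ τ n) q i x = true) ⊆
          ((range s).filter fun q => I s w q i x = true) := by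
        intro q hq
        rw [mem_filter, mem_range] at hq ⊢
        exact ⟨by omega, hL.up h1 hw' hq.2⟩
      split_ifs with hB
      · obtain ⟨q, hq1, hq2, hq3⟩ := hB
        have hlt : ((range (τ n)).filter fun q => I (τ n) (w % 2 ^ τ n) q i x = true) ⊂
            ((range s).filter fun q => I s w q i x = true) := by
          rw [ssubset_iff_of_subset hsub]
          refine ⟨q, mem_filter.2 ⟨mem_range.2 hq1, hq2⟩, ?_⟩
          rw [mem_filter]
          exact fun h => hq3 h.2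
        have := card_lt_card hlt
        omega
      · rw [zero_add]
        exact card_le_card hsub
    have h5 : cnt I s i x * 2 ^ (k + 3) < (n + 1) * 2 ^ s := by
      rw [hn]
      exact Nat.lt_mul_of_div_lt (Nat.lt_succ_self _) (by positivity)
    have h6 : n * 2 ^ s ≤ 2 ^ d * cnt I (τ n) i x * 2 ^ (k + 3) := by
      have h7 : n * 2 ^ s = 2 ^ d * (n * 2 ^ (τ n)) := by
        conv_lhs => rw [hd, pow_add]
        ring
      rw [h7]
      calc 2 ^ d * (n * 2 ^ (τ n)) ≤ 2 ^ d * (cnt I (τ n) i x * 2 ^ (k + 3)) := Nat.mul_le_mul_left _ h3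
        _ = _ := by ring
    have h8 : (B.card + 2 ^ d * cnt I (τ n) i x) * 2 ^ (k + 3) ≤ cnt I s i x * 2 ^ (k + 3) := Nat.mul_le_mul_right _ h4
    nlinarith
  · intro w hw hwB q hq
    have hqs := (hL.small _ _ _ _ _ hq).1
    have h1 : I (τ n) (w % 2 ^ τ n) q i x = true := by
      by_contra h
      exact hwB (mem_filter.2 ⟨mem_range.2 hw, q, hqs, hq, h⟩)
    have hcl := cnt_le hL s i x
    have hn2 : n < 2 ^ (NN a g k) := by
      have h2 : n ≤ 2 ^ g * 2 ^ (k + 3) := by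
        rw [hn]
        apply Nat.div_le_of_le_mul
        calc cnt I s i x * 2 ^ (k + 3) ≤ 2 ^ s * 2 ^ g * 2 ^ (k + 3) := Nat.mul_le_mul_right _ hcl
          _ = _ := by ring
      calc n ≤ 2 ^ g * 2 ^ (k + 3) := h2
        _ = 2 ^ (g + (k + 3)) := by rw [pow_add 2 g]
        _ < 2 ^ (NN a g k) := by
          apply Nat.pow_lt_pow_right (by norm_num)
          unfold NN; omega
    obtain ⟨j, hj, h2, h3, h4⟩ := dyadic_step n (fun m => I (τ m) (w % 2 ^ τ m) q i x = true) h1 (NN a g k) (by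
      rw [Nat.div_eq_of_lt hn2, zero_mul]
      have h0 := (hτ 0 (Nat.zero_le _)).2
      have h00 : τ 0 = 0 := fst_unique h0 fst_zero
      rw [h00]
      intro h
      exact absurd (hL.small _ _ _ _ _ h).1 (by omega))
    have hm1 : (n / 2 ^ j) * 2 ^ j ≤ n := Nat.div_mul_le_self _ _
    have hm2 : (n / 2 ^ j - 1) * 2 ^ j ≤ n := le_trans (Nat.mul_le_mul_right _ (Nat.sub_le _ _)) hm1
    have hpos : n / 2 ^ j - 1 + 1 = n / 2 ^ j := by
      generalize n / 2 ^ j = t at h2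
      omega
    refine ⟨j, hj, ?_, vi_code .., ve_code .., ?_, ?_⟩
    · rw [Ver_iff]
      simp only [V, vi_code, ve_code, vj_code, vl_code, vb_code, vf_code]
      rw [hpos]
      exact ⟨(hτ _ hm1).2, (hτ _ hm2).2⟩
    · simp only [V, vf_code]
      exact (hτ _ hm1).1
    · rw [prof_iff]
      simp only [V, vi_code, ve_code, vb_code, vf_code]
      exact ⟨h3, h4⟩

open scoped Classical in
/-- `agr` at other resolutions -/
lemma agr_res (hL : Legal I a g) {v z s : ℕ} (hv : Ver I k v = true) (hz : Ver I k z = true) (hvs : vf v ≤ s) (hzs : vf z ≤ s) :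
    2 ^ (z + v) * ((range (2 ^ s)).filter fun w => ∃ q, prof I v w q = true ∧ prof I z w q = true).card =
      2 ^ s * agr I z v := by
  have h1 : agr I z v = ((range (2 ^ (z + v))).filter fun w => ∃ q, prof I v w q = true ∧ prof I z w q = true).card := by
    rw [agr]
    refine congrArg card (filter_congr ?_)
    intro w _
    rw [bex_iff]
    constructor
    · rintro ⟨q, _, h⟩
      rw [Bool.and_eq_true] at h
      exact ⟨q, h.2, h.1⟩
    · rintro ⟨q, h, h'⟩
      refine ⟨q, ?_, by rw [Bool.and_eq_true]; exact ⟨h', h⟩⟩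
      have := (prof_lt hL h).1
      have := vf_le v
      omega
  rw [h1]
  apply count_res _ (max (vf v) (vf z))
  · intro w
    have e1 : ∀ q, prof I v (w % 2 ^ (max (vf v) (vf z))) q = prof I v w q := fun q =>
      prof_mod (le_max_left _ _) (le_trans (Ver.vb_le_vf hv) (le_max_left _ _))
    have e2 : ∀ q, prof I z (w % 2 ^ (max (vf v) (vf z))) q = prof I z w q := fun q =>
      prof_mod (le_max_right _ _) (le_trans (Ver.vb_le_vf hz) (le_max_right _ _))
    simp only [e1, e2]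
  · exact max_le hvs hzs
  · have := vf_le v
    have := vf_le z
    omega

lemma agr_comm (hL : Legal I a g) {v z : ℕ} : agr I z v = agr I v z := by
  rw [agr, agr, Nat.add_comm z v]
  refine congrArg card (filter_congr ?_)
  intro w _
  rw [bex_iff, bex_iff]
  constructor <;>
  · rintro ⟨q, h1, h2⟩
    refine ⟨q, h1, ?_⟩
    rw [Bool.and_comm]
    exact h2

theorem pair : S_PAIR := by
  classical
  intro I a g k hL x y s hs
  obtain ⟨V, B, hB, hBc, hV⟩ := trunc (k := k) hL false x s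
  obtain ⟨Z, B', hB', hBc', hZ⟩ := trunc (k := k) hL true y s
  set N := NN a g k with hN
  have hN1 : 10 ≤ N := by rw [hN, NN]; omega
  -- the good pairs of indices
  let good : ℕ × ℕ → Prop := fun p => Ver I k (V p.1) = true ∧ vi (V p.1) = false ∧ ve (V p.1) = x ∧ vf (V p.1) ≤ s ∧
    Ver I k (Z p.2) = true ∧ vi (Z p.2) = true ∧ ve (Z p.2) = y ∧ vf (Z p.2) ≤ s
  let A : ℕ × ℕ → Finset ℕ := fun p => (range (2 ^ s)).filter fun w =>
    ∃ q, prof I (V p.1) w q = true ∧ prof I (Z p.2) w q = true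
  let PP := (range N ×ˢ range N).filter good
  set E := (range (2 ^ s)).filter (fun w => ∃ q < s, I s w q false x = true ∧ I s w q true y = true) with hE
  have hcov : E ⊆ B ∪ B' ∪ PP.biUnion A := by
    intro w hw
    rw [hE, mem_filter, mem_range] at hw
    obtain ⟨hw, q, hq, hx, hy⟩ := hw
    rw [mem_union, mem_union]
    by_cases h1 : w ∈ B
    · exact Or.inl (Or.inl h1)
    by_cases h2 : w ∈ B'
    · exact Or.inl (Or.inr h2)
    right
    obtain ⟨j, hj, h3⟩ := hV w hw h1 q hx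
    obtain ⟨j', hj', h3'⟩ := hZ w hw h2 q hy
    rw [mem_biUnion]
    refine ⟨(j, j'), ?_, ?_⟩
    · simp only [PP, mem_filter, mem_product, mem_range]
      exact ⟨⟨hj, hj'⟩, h3.1, h3.2.1, h3.2.2.1, h3.2.2.2.1, h3'.1, h3'.2.1, h3'.2.2.1, h3'.2.2.2.1⟩
    · simp only [A, mem_filter, mem_range]
      exact ⟨hw, q, h3.2.2.2.2, h3'.2.2.2.2⟩
  have hE' : E.card ≤ B.card + B'.card + ∑ p ∈ PP, (A p).card := by
    calc E.card ≤ (B ∪ B' ∪ PP.biUnion A).card := card_le_card hcov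
      _ ≤ (B ∪ B').card + (PP.biUnion A).card := card_union_le _ _
      _ ≤ B.card + B'.card + ∑ p ∈ PP, (A p).card :=
        Nat.add_le_add (card_union_le _ _) card_biUnion_le
  -- a good pair
  have hex : ∃ p ∈ PP, 2 ^ s ≤ 2 ^ (k + 1) * N ^ 2 * (A p).card := by
    by_contra hcon
    push_neg at hcon
    have hPP : PP.card ≤ N ^ 2 := by
      calc PP.card ≤ (range N ×ˢ range N).card := card_le_card (filter_subset _ _)
        _ = N ^ 2 := by rw [card_product, card_range, sq]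
    have h1 : 2 ^ (k + 1) * N ^ 2 * ∑ p ∈ PP, (A p).card ≤ N ^ 2 * 2 ^ s := by
      rw [mul_sum]
      calc _ ≤ ∑ p ∈ PP, 2 ^ s := sum_le_sum fun p hp => (hcon p hp).le
        _ = PP.card * 2 ^ s := by simp
        _ ≤ N ^ 2 * 2 ^ s := Nat.mul_le_mul_right _ hPP
    have h2 : 2 ^ (k + 1) * ∑ p ∈ PP, (A p).card ≤ 2 ^ s := by
      have h3 : N ^ 2 * (2 ^ (k + 1) * ∑ p ∈ PP, (A p).card) ≤ N ^ 2 * 2 ^ s := by
        calc _ = 2 ^ (k + 1) * N ^ 2 * ∑ p ∈ PP, (A p).card := by ring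
          _ ≤ _ := h1
      exact Nat.le_of_mul_le_mul_left h3 (by positivity)
    have h4 : 2 ^ (k + 3) = 8 * 2 ^ k := by rw [pow_add]; ring
    have h5 : 2 ^ (k + 1) = 2 * 2 ^ k := by rw [pow_add]; ring
    rw [h4] at hBc hBc'
    rw [h5] at h2
    have h6 : 2 ^ k * E.card ≤ 2 ^ k * (B.card + B'.card + ∑ p ∈ PP, (A p).card) := Nat.mul_le_mul_left _ hE'
    rw [mul_add, mul_add] at h6
    rw [mul_assoc] at h2 hBc hBc'
    generalize 2 ^ k * ∑ p ∈ PP, (A p).card = t1 at h2 h6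
    generalize 2 ^ k * B.card = t2 at h6 hBc
    generalize 2 ^ k * B'.card = t3 at h6 hBc'
    omega
  obtain ⟨p, hp, hpA⟩ := hex
  simp only [PP, mem_filter] at hp
  obtain ⟨-, g1, g2, g3, g4, g5, g6, g7, g8⟩ := hp
  have h1 := agr_res hL g1 g5 g4 g8
  have h2 : 2 ^ (Z p.2 + V p.1) ≤ Th a g k * agr I (Z p.2) (V p.1) := by
    have h3 : 2 ^ (Z p.2 + V p.1) * 2 ^ s ≤ 2 ^ (Z p.2 + V p.1) * (2 ^ (k + 1) * N ^ 2 * (A p).card) :=
      Nat.mul_le_mul_left _ hpA
    have h4 : 2 ^ (Z p.2 + V p.1) * (2 ^ (k + 1) * N ^ 2 * (A p).card) =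
        2 ^ s * (2 ^ (k + 1) * N ^ 2 * agr I (Z p.2) (V p.1)) := by
      calc _ = 2 ^ (k + 1) * N ^ 2 * (2 ^ (Z p.2 + V p.1) * (A p).card) := by ring
        _ = 2 ^ (k + 1) * N ^ 2 * (2 ^ s * agr I (Z p.2) (V p.1)) := by
          rw [← h1]
        _ = _ := by ring
    rw [h4, mul_comm] at h3
    exact Nat.le_of_mul_le_mul_left h3 (by positivity)
  refine ⟨V p.1, Z p.2, g1, g5, g2, g3, g6, g7, ?_, ?_⟩
  · rw [Agr, decide_eq_true_eq, ← agr_comm hL, Nat.add_comm]
    exact h2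
  · rw [Agr, decide_eq_true_eq]
    exact h2

end

end Pool.Agent.H57GWR
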