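import Pool.Agent.H57GWR.Defs

/-!
# Project GWR: the jobs (each: `theorem name : S_NAME`); the proofs are in the docstrings.
-/

set_option autoImplicit false

namespace Pool.Agent.H57GWR

open Finset
open scoped Classical

/-- FAM. Existence of a good family (probabilistic method). `R w q` are groups of elements of `V`.

Proof. If `card V = 0` or no group is nonempty, take `γ = ∅` (the hypothesis of the second clause is then impossible
because `S` is nonempty). In general let `m i = 2 ^ i * ρ`; for `T : Fin ρ → Fin (m i) → V` and a group `G` let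
`hit G T` mean `∀ b, ∃ c, T b c ∈ G` (every batch of `T` meets `G`).
(1) *Choice of `γ`.* Enumerate for each `w` the labels `q` with `R w q ≠ ∅` by `Fin C` (the other numbers give the empty
group); choose `C * P` independent uniform elements `(w, c)` of `Ω × Fin C`. For fixed `i ≤ M` and fixed `T` with
`2 ^ i * card Ω ≤ 4 * D * #{u | hit (R u) T}` the probability that no chosen group is hit is at most
`(1 - 2 ^ i / (4 * D * C)) ^ (C * P) ≤ exp (- 2 ^ i * P / (4 * D)) ≤ exp (- 2 ^ i * (ρ ^ 2 * L + 2))`, there are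
`card V ^ (ρ * m i) ≤ 2 ^ (L * ρ ^ 2 * 2 ^ i)` maps `T`, so the probability that this fails for some `i`, `T` is at most
`∑ i, exp (- 2 * 2 ^ i) < 1 / 2`. By Markov's inequality the probability that the sum of the sizes of the chosen groups is
`> 2 * P * (∑ u, card (R u)) / card Ω` (twice its expectation) is at most `1 / 2`. So some choice has neither defect.
(2) *This `γ` works.* Let `S ≠ ∅`, `i ≤ M` and `2 ^ i * card Ω ≤ D * #{u | card S ≤ 2 ^ i * card (R u ∩ S)}` and suppose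
`2 * ρ * 2 ^ i * card (R u ∩ S) < card S` for all `u ∈ γ`. For `T` uniform in the maps `Fin ρ → Fin (m i) → S`:
a group with `card S ≤ 2 ^ i * card (R u ∩ S)` is hit with probability `≥ (1 - (1 - 2 ^ (-i)) ^ m i) ^ ρ ≥ 1 - ρ * exp (-ρ)
≥ 1 / 2`; a group with `2 * ρ * 2 ^ i * card (R u ∩ S) < card S` is hit with probability `≤ 2 ^ (-ρ)`
(for one batch: at most `m i * card (R u ∩ S) / card S ≤ 1 / 2`); `γ` has at most `C * P` elements;
`Z T = #{u | hit (R u) T} / card Ω ≤ C`. So the expectation of `Z T` on the event that no group of `γ` is hit is at least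
`2 ^ i / (2 * D) - C * (C * P) * 2 ^ (-ρ) ≥ 2 ^ i / (4 * D)`, so some `T` satisfies `2 ^ i * card Ω ≤ 4 * D * #{u | hit (R u) T}`
and hits no group of `γ`, contradiction to (1). -/
def S_FAM : Prop := ∀ (Ω Q V : Type) [Fintype Ω] [Nonempty Ω] [Fintype Q] [Fintype V]
  (R : Ω → Q → Finset V) (C L ρ P D M : ℕ),
  (∀ w, (univ.filter fun q => (R w q).Nonempty).card ≤ C) → Fintype.card V ≤ 2 ^ L →
  1 ≤ ρ → 1 ≤ D → 1 ≤ C → 4 * D * C ^ 2 * P ≤ 2 ^ ρ → 4 * D * (ρ ^ 2 * L + 2) ≤ P →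
  ∃ γ : Finset (Ω × Q),
    Fintype.card Ω * ∑ u ∈ γ, (R u.1 u.2).card ≤ 2 * P * ∑ u : Ω × Q, (R u.1 u.2).card ∧
    ∀ S : Finset V, S.Nonempty → ∀ i ≤ M,
      2 ^ i * Fintype.card Ω ≤
        D * (univ.filter fun u : Ω × Q => S.card ≤ 2 ^ i * (R u.1 u.2 ∩ S).card).card →
      ∃ u ∈ γ, S.card ≤ 2 * ρ * 2 ^ i * (R u.1 u.2 ∩ S).card

/-- COV. Greedy cover. `pz w` are the labels of `z` for the (refined) oracle `w : Ω'`, `π` is the restriction map.
Let `A = {v | card Ω' ≤ T * #{w | ∃ q ∈ pz w, v ∈ R (π w) q}}` and `m = ∑ w, card (pz w)`.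

Proof. (1) For every nonempty `S ⊆ A` there is `u ∈ γ` with `card S ≤ 2 * ρ * 2 ^ i * card (R u ∩ S)` for some `i ≤ M`
with `2 ^ i * card Ω' ≤ max (card Ω') (4 * T * m)`: `∑ w, ∑ q ∈ pz w, card (R (π w) q ∩ S) ≥ card S * card Ω' / T`.
Let `i0` be the least number with `2 * T * m ≤ 2 ^ i0 * card Ω'`, so `i0 ≤ M` and `2 ^ i0 * card Ω' ≤ max (card Ω') (4 T m)`.
The pairs `(w, q)` with `2 ^ i0 * card (R (π w) q ∩ S) < card S` contribute at most
`m * card S / 2 ^ i0 ≤ card S * card Ω' / (2 T)`. So the others contribute at least that much; they are divided into the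
classes `card S / 2 ^ i ≤ card (R (π w) q ∩ S) < 2 * card S / 2 ^ i` (`i = 0, ..., i0`), so for some `i ≤ i0`
`#{(w, q) : q ∈ pz w, card S ≤ 2 ^ i * card (R (π w) q ∩ S)} ≥ 2 ^ i * card Ω' / (4 * T * (i0 + 1))`.
As all fibres of `π` have the same size, `D * #{u : Ω × Q | card S ≤ 2 ^ i * card (R u ∩ S)} ≥ 2 ^ i * card Ω`. Use the
hypothesis on `γ`.
(2) Choose greedily: `A ⊇ A_1 ⊇ A_2 ...`, each step removes at least the fraction `c = 1 / (2 * ρ * max 1 (4 T m / card Ω'))`;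
after `r` steps at most `card V * (1 - c) ^ r ≤ 2 ^ L * exp (- c r)` elements are left, so at most
`⌊L / c⌋ + 1` steps are needed. -/
def S_COV : Prop := ∀ (Ω Ω' Q V : Type) [Fintype Ω] [Nonempty Ω] [Fintype Ω'] [Nonempty Ω'] [Fintype Q] [Fintype V]
  (π : Ω' → Ω) (R : Ω → Q → Finset V) (pz : Ω' → Finset Q) (γ : Finset (Ω × Q)) (L ρ T D M : ℕ),
  (∀ w, (univ.filter fun w' => π w' = w).card * Fintype.card Ω = Fintype.card Ω') →
  (∀ S : Finset V, S.Nonempty → ∀ i ≤ M,
      2 ^ i * Fintype.card Ω ≤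
        D * (univ.filter fun u : Ω × Q => S.card ≤ 2 ^ i * (R u.1 u.2 ∩ S).card).card →
      ∃ u ∈ γ, S.card ≤ 2 * ρ * 2 ^ i * (R u.1 u.2 ∩ S).card) →
  Fintype.card V ≤ 2 ^ L → 1 ≤ ρ → 1 ≤ T → 4 * T * (M + 1) ≤ D →
  4 * T * ∑ w', (pz w').card ≤ 2 ^ M * Fintype.card Ω' →
  ∃ J ⊆ γ,
    (∀ v, Fintype.card Ω' ≤ T * (univ.filter fun w' => ∃ q ∈ pz w', v ∈ R (π w') q).card →
      ∃ u ∈ J, v ∈ R u.1 u.2) ∧
    Fintype.card Ω' * J.card ≤ (2 + 2 * ρ * L) * Fintype.card Ω' + 8 * ρ * L * T * ∑ w', (pz w').card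

/-- MASS. The masses of the versions. (`mz v / 2 ^ v` is the mass of `v`.)

Proof. `mz v / 2 ^ v = mz' / 2 ^ S` for every `S ≥ vf v` (where `mz'` counts the pairs `w < 2 ^ S`, `q < S`), because of
`Legal.small` (`prof v w q` implies `q < vf v`) and because `prof v w q` depends only on `w % 2 ^ vf v`. For fixed `i, e, j`
the versions with different `l` are disjoint: by `Legal.mono`, if `q` is in the profiles of `l < l'` for `w` then, as
`vf` of `l` is at most `vb` of `l'` (first stages for smaller / larger thresholds), `I (vb v') ..` holds, contradiction.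
So for fixed `i, e, j` and `S` large the sum of the masses is at most `cnt S i e / 2 ^ S` and
`∑ e, cnt S i e / 2 ^ S ≤ 2 ^ g * 2 ^ a i` (for each `w < 2 ^ S`: at most `2 ^ g` labels `q` by `Legal.labels`, and for each
at most `2 ^ a i` strings `e` by `Legal.elems`). For each version `2 ^ j ≤ (l + 1) 2 ^ j ≤ 2 ^ (k+3) * cnt / 2 ^ s ≤
2 ^ (k + 3 + g)`, so `j ≤ g + k + 3 < NN a g k`: at most `NN a g k` scales. -/
def S_MASS : Prop := ∀ (I : ℕ → ℕ → ℕ → Bool → ℕ → Bool) (a : Bool → ℕ) (g k : ℕ), Legal I a g →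
  ∀ (i : Bool) (F : Finset ℕ), (∀ v ∈ F, Ver I k v = true ∧ vi v = i) →
    ∑ v ∈ F, (mz I v : ℝ) / 2 ^ v ≤ NN a g k * 2 ^ (g + a i)

/-- NUM. The number of versions.

Proof. `v ↦ (ve v, vj v, vl v)` is injective on the versions of the side `i` (`vb`, `vf` are determined, being first stages);
for fixed `e`, `j` the number of the `l` is at most `2 ^ (k + 3) * cnt S i e / 2 ^ S` (as `l + 1 ≤ (l + 1) 2 ^ j ≤` that),
and `∑ e, cnt S i e / 2 ^ S ≤ 2 ^ (g + a i)`, as in MASS; `j < NN a g k`. -/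
def S_NUM : Prop := ∀ (I : ℕ → ℕ → ℕ → Bool → ℕ → Bool) (a : Bool → ℕ) (g k : ℕ), Legal I a g →
  ∀ (i : Bool) (F : Finset ℕ), (∀ v ∈ F, Ver I k v = true ∧ vi v = i) →
    F.card ≤ NN a g k * 2 ^ (k + 3) * 2 ^ (g + a i)

/-- BLK. The size of a group. Proof: for fixed `j` and `e` at most one `l` (see MASS), `e` is one of the at most `2 ^ a i`
strings with `I S w q i e`, and `j < NN a g k`. -/
def S_BLK : Prop := ∀ (I : ℕ → ℕ → ℕ → Bool → ℕ → Bool) (a : Bool → ℕ) (g k : ℕ), Legal I a g →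
  ∀ (i : Bool) (F : Finset ℕ) (S w q : ℕ), (∀ v ∈ F, Ver I k v = true ∧ vi v = i ∧ vf v ≤ S) → w < 2 ^ S →
    (F.filter fun v => prof I v w q = true).card ≤ NN a g k * 2 ^ a i

/-- LAB. The number of labels. Proof: `prof v w q` implies `I S w q (vi v) (ve v)` (`Legal.mono`); use `Legal.labels`. -/
def S_LAB : Prop := ∀ (I : ℕ → ℕ → ℕ → Bool → ℕ → Bool) (a : Bool → ℕ) (g k : ℕ), Legal I a g →
  ∀ (F : Finset ℕ) (S w : ℕ), (∀ v ∈ F, vf v ≤ S) → w < 2 ^ S →
    ((range S).filter fun q => ∃ v ∈ F, prof I v w q = true).card ≤ 2 ^ g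

/-- PAIR. A pair of strings which are together with probability more than `2 ^ (-k)` has versions which are together with
probability at least `θ = 1 / Th`.

Proof. Let `n = ⌊2 ^ (k + 3) * cnt s false x / 2 ^ s⌋`; the memberships `(w, q)` (`w < 2 ^ s`) of `x` which are not in
the profile at the first stage `τ n ≤ s` where the mass is `≥ n / 2 ^ (k + 3)` have measure `< 2 ^ (- k - 3)`. The
interval `[0, n)` is the disjoint union of at most `g + k + 4 ≤ NN` dyadic intervals `[l 2 ^ j, (l + 1) 2 ^ j)` (binary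
digits of `n`), all of them give versions (first stages exist), whose profiles cover the memberships of `x` at the
stage `τ n`. The same for `y`. So a pair of such versions is together with probability at least
`(2 ^ (-k) - 2 * 2 ^ (- k - 3)) / NN ^ 2 ≥ θ`. (Codes of versions: `v = 2 * pair e (pair j (pair l (pair vb vf))) + i`. All
counts at resolution `s` are transferred to resolution `v + z`, using that `prof v w q` depends only on `w % 2 ^ vf v` and
implies `q < vf v`.) -/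
def S_PAIR : Prop := ∀ (I : ℕ → ℕ → ℕ → Bool → ℕ → Bool) (a : Bool → ℕ) (g k : ℕ), Legal I a g →
  ∀ (x y s : ℕ), 2 ^ s < 2 ^ k * ((range (2 ^ s)).filter fun w =>
      ∃ q < s, I s w q false x = true ∧ I s w q true y = true).card →
    ∃ v z, Ver I k v = true ∧ Ver I k z = true ∧ vi v = false ∧ ve v = x ∧ vi z = true ∧ ve z = y ∧
      Agr I a g k v z = true ∧ Agr I a g k z v = true

/-- the assembly -/
def S_T1 : Prop := ∀ (I : ℕ → ℕ → ℕ → Bool → ℕ → Bool) (a : Bool → ℕ) (g k : ℕ), Legal I a g →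
  ∀ (r : ℕ) (i : Bool) (s : ℕ) (F : Finset ℕ),
    (∀ G ∈ F, (∃ x, Dyn I a g k r i G x) ∧ 2 ^ s ≤ sz G) →
      F.card * 2 ^ s ≤ 2 * Pp a g k * NN a g k * 2 ^ (g + a i)

def S_T2 : Prop := ∀ (I : ℕ → ℕ → ℕ → Bool → ℕ → Bool) (a : Bool → ℕ) (g k : ℕ), Legal I a g →
  ∀ (r : ℕ) (i : Bool) (F : Finset (ℕ × ℕ)), (∀ p ∈ F, Dyn I a g k r i p.1 p.2) →
    F.card ≤ (Ka a g k * 2 ^ (k + 3) + Kb a g k) * NN a g k * 2 ^ (g + a (!i))

def S_T3 : Prop := ∀ (I : ℕ → ℕ → ℕ → Bool → ℕ → Bool) (a : Bool → ℕ) (g k : ℕ), Legal I a g →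
  ∀ (r : ℕ) (i : Bool) (G x : ℕ), Dyn I a g k r i G x → sz G ≤ NN a g k * 2 ^ a i

def S_T4 : Prop := ∀ (I : ℕ → ℕ → ℕ → Bool → ℕ → Bool) (a : Bool → ℕ) (g k : ℕ), Legal I a g →
  ∀ (x y s : ℕ), 2 ^ s < 2 ^ k * ((range (2 ^ s)).filter fun w =>
      ∃ q < s, I s w q false x = true ∧ I s w q true y = true).card →
    ∃ r < 2 * NN a g k, ∃ G, (Base G x ∧ Dyn I a g k r false G y) ∨ (Base G y ∧ Dyn I a g k r true G x)

end Pool.Agent.H57GWR
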