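import Pool.Agent.H57GWR.Defs
import Pool.Agent.H57GWR.KDefs
import Pool.Agent.Helper578.JD.Comp

/-!
# Project GWR: the jobs about computability and Kolmogorov complexity (each: `theorem name : S_NAME`)

Tools: `Pool.Agent.H166R3.AT.CT` (`c_sum`, `c_count`, `c_bex`, `c_ball`, `c_le`, ... : closure of `Computable`),
`Pool.Agent.Helper578.JD.RE` and `.Comp` (closure of `REPred`: `comp, and, or, exN, ex, eq, lt, all_lt, all_mem, uniformize`;
`fun_prop` for `Computable`).
-/

set_option autoImplicit false

namespace Pool.Agent.H57GWR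

open Finset MeasureTheory
open scoped Classical

/-- parameters `(a false, a true, g, k)` -/
abbrev Par := ℕ × ℕ × ℕ × ℕ

/-- the two bounds for the conditional complexities -/
def pa (P : Par) (i : Bool) : ℕ := if i = true then P.2.1 else P.1
/-- the bound for the number of labels -/
def pg (P : Par) : ℕ := P.2.2.1
/-- the probability is `2 ^ (- k)` -/
def pk (P : Par) : ℕ := P.2.2.2

/-- DYNRE. The relation `Dyn` is r.e., uniformly in the parameters. (bounded sums and searches) -/
def S_DYNRE : Prop := ∀ In : Par → ℕ → ℕ → ℕ → Bool → ℕ → Bool,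
  Computable (fun t : Par × ℕ × ℕ × ℕ × Bool × ℕ => In t.1 t.2.1 t.2.2.1 t.2.2.2.1 t.2.2.2.2.1 t.2.2.2.2.2) →
  REPred (fun t : Par × ℕ × Bool × ℕ × ℕ =>
    Dyn (In t.1) (pa t.1) (pg t.1) (pk t.1) t.2.1 t.2.2.1 t.2.2.2.1 t.2.2.2.2)

/-- ENUM. For an r.e. relation `R c x` there is a partial computable `f c m` such that for all `c`: if at most `M` elements
`x` satisfy `R c x` then each of them is `f c m` for some `m < M`.

Proof. `R c x ↔ ∃ n, q c x n` with computable `q`; let `L c s` be the list of the different `x < s` with `∃ n < s, q c x n`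
in the order of appearance (`L c (s + 1)` extends `L c s`); `f c m` is the `m`-th element of `L c s` for the
least `s` with `m < (L c s).length`. -/
def S_ENUM : Prop := ∀ (α : Type) [Primcodable α] (R : α → ℕ → Prop),
  REPred (fun t : α × ℕ => R t.1 t.2) →
  ∃ f : α → ℕ →. ℕ, Partrec₂ f ∧ ∀ (c : α) (M : ℕ),
    (∀ F : Finset ℕ, (∀ x ∈ F, R c x) → F.card ≤ M) → ∀ x, R c x → ∃ m < M, x ∈ f c m

/-- ANAL. From a relation `Dyn` with the right cardinalities to Kolmogorov complexity. `Base G x` means that the string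
number `x` belongs to the group `G` (see `Defs`), `sz G` is the size of the group.
`o` is the number of the additional bits (`N = NN (pa P) (pg P) (pk P)`).

Proof. Let `i` be the side of the base (`i = false` in the first alternative of the last hypothesis), `e` the string of
the base (`Base G e`), `e'` the other one (`Dy P r i G e'`), `A = pa P i`, `A' = pa P (!i)`, `g = pg P`. Let
`2 ^ s ≤ sz G < 2 ^ (s + 1)` and `2 ^ t ≤ #{x | Dy P r i G x} < 2 ^ (t + 1)` (this set is finite and nonempty). The r.e. relation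
`RG (P, r, i, s, t) G : 2 ^ s ≤ sz G ∧ there are at least 2 ^ t different x with Dy P r i G x`
has at most `2 ^ (g + A + o - s)` and at most `2 ^ (g + A' + o - t)` solutions `G`. By ENUM `G = fG (P, r, i, s, t) mG`,
`e = fB G mB` with `mB < 2 ^ (s + 1)`, `e' = fD (P, r, i, G) mD` with `mD < 2 ^ (t + 1)`. Let `h = min (g + A - s, g + A' - t)`
(an integer), `u = max 0 (h - g)`, `mG < 2 ^ (h + o)`.
Let `q'` be a string which encodes `P, r, i, s, t` (self-delimiting, `O (log N + k)` bits) and `mG / 2 ^ u`, `mD / 2 ^ (A' + 1)`: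
its length is at most `g + O (o)`: if `u > 0` then `mG / 2 ^ u < 2 ^ (g + o)`, `t ≤ A'`, `mD / 2 ^ (A' + 1) = 0`; if `u = 0`,
`h + o + max 0 (t - A') ≤ g + o`. The program for `e` given `q'` is `(mG % 2 ^ u, mB)`, of length
`u + s + 1 ≤ A + o + 1` (note `s ≤ A + o`, since `sz G ≤ 2 ^ (A + o)`), the program for `e'` given `q'` is
`(mG % 2 ^ u, mD % 2 ^ (A' + 1))`, of length `u + min (t + 1) (A' + 1) ≤ A' + 1`.
Strings have codes `Encodable.encode : List Bool → ℕ`. -/
def S_ANAL : Prop := ∀ (D : List Bool → List Bool →. List Bool), OptCond D →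
  ∀ (Dy : Par → ℕ → Bool → ℕ → ℕ → Prop) (c₀ : ℕ),
  REPred (fun t : Par × ℕ × Bool × ℕ × ℕ => Dy t.1 t.2.1 t.2.2.1 t.2.2.2.1 t.2.2.2.2) →
  (∀ (P : Par) (r : ℕ) (i : Bool) (s : ℕ) (F : Finset ℕ), (∀ G ∈ F, (∃ x, Dy P r i G x) ∧ 2 ^ s ≤ sz G) →
    F.card * 2 ^ s ≤ 2 ^ (pg P + pa P i + c₀ * (pk P + Nat.size (NN (pa P) (pg P) (pk P))))) →
  (∀ (P : Par) (r : ℕ) (i : Bool) (F : Finset (ℕ × ℕ)), (∀ p ∈ F, Dy P r i p.1 p.2) →
    F.card ≤ 2 ^ (pg P + pa P (!i) + c₀ * (pk P + Nat.size (NN (pa P) (pg P) (pk P))))) →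
  (∀ (P : Par) (r : ℕ) (i : Bool) (G x : ℕ), Dy P r i G x →
    sz G ≤ 2 ^ (pa P i + c₀ * (pk P + Nat.size (NN (pa P) (pg P) (pk P))))) →
  ∃ d : ℕ, ∀ (P : Par) (x y : List Bool) (r G : ℕ), r < 2 * NN (pa P) (pg P) (pk P) →
    (Base G (Encodable.encode x) ∧ Dy P r false G (Encodable.encode y)) ∨
      (Base G (Encodable.encode y) ∧ Dy P r true G (Encodable.encode x)) →
    ∃ q : List Bool, KS D q [] ≤ pg P + d * (pk P + Nat.size (NN (pa P) (pg P) (pk P))) ∧
      KS D x q ≤ pa P false + d * (pk P + Nat.size (NN (pa P) (pg P) (pk P))) ∧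
      KS D y q ≤ pa P true + d * (pk P + Nat.size (NN (pa P) (pg P) (pk P)))

/-- ORC. The enumeration of an oracle machine. The parameter is `P = (α + 1, β + 1, γ + 1, k)` for the bounds `α, β, γ`.

Proof. Let `W` be the r.e. set of the axioms, `t ∈ W ↔ ∃ n, wst t n` with computable `wst`. Let `In P s w q i e` say:
`q < s`, `e < s`, there are programs `p, p'` with codes `< s`, lengths `≤ pg P - 1` and `≤ pa P i - 1`, numbers
`n, n' ≤ s`, `m, m' < s` such that `q, e` are codes of strings `q', e'` and `wst (w[0..n), p, [], q') m` and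
`wst (w[0..n'), p', q', e') m'` (`w[0..n)`: the list of the binary digits number `0, ..., n-1` of `w`).
(`pg P = 0` or `pa P i = 0`: then nothing is in `In`.)
`labels`, `elems`: for the oracle `A` given by the digits of `w` followed by zeros, `q` is determined by the
program `p` (`V A` is a function), and there are fewer than `2 ^ (γ + 1)` programs of length at most `γ`.
The last clause: the event is the increasing union over `s` of the events there is `q < s` with `In P s (w) q false x` and
`In P s w q true y` (`w` the number with digits `A 0, ..., A (s-1)`), which has probability `#{w < 2 ^ s | ...} / 2 ^ s`. -/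
def S_ORC : Prop := ∀ (V : (ℕ → Bool) → List Bool → List Bool →. List Bool), OracleMachine V →
  (∀ (A : ℕ → Bool) (v u : List Bool), ∃ p, u ∈ V A p v) →
  ∃ In : Par → ℕ → ℕ → ℕ → Bool → ℕ → Bool,
    Computable (fun t : Par × ℕ × ℕ × ℕ × Bool × ℕ =>
      In t.1 t.2.1 t.2.2.1 t.2.2.2.1 t.2.2.2.2.1 t.2.2.2.2.2) ∧
    (∀ P, Legal (In P) (pa P) (pg P)) ∧
    ∀ (α β γ k : ℕ) (x y : List Bool),
      (2 ^ k : ENNReal)⁻¹ < coin {A | ∃ q, KS (V A) q [] ≤ γ ∧ KS (V A) x q ≤ α ∧ KS (V A) y q ≤ β} →
      ∃ s, 2 ^ s < 2 ^ k * ((range (2 ^ s)).filter fun w => ∃ q < s,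
        In (α + 1, β + 1, γ + 1, k) s w q false (Encodable.encode x) = true ∧
        In (α + 1, β + 1, γ + 1, k) s w q true (Encodable.encode y) = true).card

/-- EXO. There are optimal machines.

Proof. (For `OptCond` see `Pool.Agent.Helper760` or use `Nat.Partrec.Code`.) For oracle machines: the r.e. sets
`W_e` are enumerated by `Pool.Agent.Helper578.JD.RE.wst`; on the program `1^e 0 p`, the condition `v` and the oracle `A` look for
the least `n` such that for some `n' ≤ n` and some `u` with code `< n` the axiom `(ini A n', p, v, u)` has been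
enumerated in `W_e` by the stage `n`, and output the `u` with the least code. This is single-valued for all oracles,
its set of axioms is r.e. (even decidable), and if `W_e` is the set of axioms of an oracle machine then the
output is that of the machine. -/
def S_EXO : Prop := (∃ D, OptCond D) ∧ (∃ V, OptOracle V) ∧ ∃ pr, PairCode pr

/-- FIN. The theorem follows from the statement MT for integers.

Proof. `A` is bad if some real triple `(α, β, γ) ∈ GW (V A) x y` is not in `plus δ (GW D x y)`, `δ = c * logb 2 n`. Replace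
`α, β, γ` by their floors; if `γ > n + C` then `q = pr x y` shows that the triple is in `plus δ (GW D x y)`; if `α > n + C`
one can replace `α` by `n + C` (`KS x q ≤ KS x [] + O (1) ≤ n + O (1)` with and without the oracle; the plain machine is an
oracle machine which does not use the oracle), the same for `β`. So there are at most `(n + C + 1) ^ 3` integer triples;
take `k` with `2 ^ k ≥ (n + C + 1) ^ 3 / ε` (`k = O (log n)` for fixed `ε`), and use the union bound and MT. -/
def S_FIN : Prop := ∀ (D : List Bool → List Bool →. List Bool)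
  (V : (ℕ → Bool) → List Bool → List Bool →. List Bool) (pr : List Bool → List Bool → List Bool),
  OptCond D → OptOracle V → PairCode pr →
  (∃ d : ℕ, ∀ (α β γ k : ℕ) (x y : List Bool),
      (2 ^ k : ENNReal)⁻¹ < coin {A | ∃ q, KS (V A) q [] ≤ γ ∧ KS (V A) x q ≤ α ∧ KS (V A) y q ≤ β} →
      ∃ q : List Bool, KS D q [] ≤ γ + d * (k + Nat.size (α + β + γ + 1)) + d ∧
        KS D x q ≤ α + d * (k + Nat.size (α + β + γ + 1)) + d ∧
        KS D y q ≤ β + d * (k + Nat.size (α + β + γ + 1)) + d) →
  ∀ ε : ℝ, 0 < ε → ∃ c : ℝ, ∀ n : ℕ, 2 ≤ n → ∀ x y : List Bool, KS D (pr x y) [] ≤ n →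
    coin {A | ¬ GW (V A) x y ⊆ plus (c * Real.logb 2 n) (GW D x y)} ≤ ENNReal.ofReal ε

end Pool.Agent.H57GWR
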