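import Pool.Agent.H57GWR.Bits

/-!
# Project GWR: translation of the families and covers into numbers; existence
-/

set_option autoImplicit false

namespace Pool.Agent.H57GWR

open Finset
open Pool.Agent.H166R3.AT (bex ball bex_iff ball_iff)
open scoped Classical

lemma sum_un (m n : ℕ) (f : ℕ → ℕ) : ∑ p : Fin m × Fin n, f (p.1.1 * n + p.2.1) = ∑ u ∈ range (m * n), f u := by
  rw [Finset.sum_range]
  apply Fintype.sum_equiv finProdFinEquiv
  intro p
  simp only [finProdFinEquiv_apply_val]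
  congr 1
  ring

lemma card_un (m n : ℕ) (p : ℕ → Prop) [DecidablePred p]
    [DecidablePred fun x : Fin m × Fin n => p (x.1.1 * n + x.2.1)] :
    (univ.filter fun x : Fin m × Fin n => p (x.1.1 * n + x.2.1)).card = ((range (m * n)).filter p).card := by
  rw [card_filter, card_filter, ← sum_un]
  apply sum_congr rfl
  intro x _
  congr 1

lemma un_div {β w q : ℕ} (h : q < β) : (w * β + q) / β = w := by
  rw [mul_comm, Nat.mul_add_div (by omega), Nat.div_eq_of_lt h, add_zero]

lemma un_mod {β w q : ℕ} (h : q < β) : (w * β + q) % β = q := by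
  rw [mul_comm, Nat.mul_add_mod, Nat.mod_eq_of_lt h]

lemma un_lt {β w q m : ℕ} (hw : w < m) (h : q < β) : w * β + q < m * β := by
  calc w * β + q < w * β + β := by omega
    _ = (w + 1) * β := by ring
    _ ≤ m * β := Nat.mul_le_mul_right _ hw

lemma card_sub (E : Finset ℕ) (p : ℕ → Prop) [DecidablePred p] [DecidablePred fun v : E => p v.1] :
    (univ.filter fun v : E => p v.1).card = (E.filter p).card := by
  rw [← card_map (Function.Embedding.subtype _)]
  congr 1
  ext x
  simp [and_comm]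

section

variable (I : ℕ → ℕ → ℕ → Bool → ℕ → Bool)

/-- the groups -/
noncomputable def RR (β : ℕ) (w : Fin (2 ^ β)) (q : Fin β) : Finset (els β) :=
  univ.filter fun v => prof I v.1 w.1 q.1 = true

/-- the set of groups defined by a bitmask -/
noncomputable def gset (β γ : ℕ) : Finset (Fin (2 ^ β) × Fin β) :=
  univ.filter fun p => bt γ (p.1.1 * β + p.2.1) = true

/-- the set of versions defined by a bitmask -/
noncomputable def sset (β σ : ℕ) : Finset (els β) := univ.filter fun v => bt σ v.1 = true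

variable {I} {a : Bool → ℕ} {g k : ℕ}

lemma mem_RR {β : ℕ} {w : Fin (2 ^ β)} {q : Fin β} {v : els β} : v ∈ RR I β w q ↔ prof I v.1 w.1 q.1 = true := by
  simp [RR]

lemma card_RR (β : ℕ) (w : Fin (2 ^ β)) (q : Fin β) : (RR I β w q).card = gc I β (w.1 * β + q.1) := by
  rw [RR, card_sub (els β) (fun v => prof I v w.1 q.1 = true), gc]
  simp only [grp, un_div q.2, un_mod q.2]
  congr 1
  ext v
  simp only [mem_filter, mem_range, els, Bool.and_eq_true]
  tauto

lemma card_RRS (β σ : ℕ) (w : Fin (2 ^ β)) (q : Fin β) :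
    (RR I β w q ∩ sset β σ).card = gcS I β σ (w.1 * β + q.1) := by
  have h1 : RR I β w q ∩ sset β σ = univ.filter fun v : els β => (prof I v.1 w.1 q.1 = true ∧ bt σ v.1 = true) := by
    ext v
    simp [RR, sset]
  rw [h1, card_sub (els β) (fun v => prof I v w.1 q.1 = true ∧ bt σ v = true), gcS]
  simp only [grp, un_div q.2, un_mod q.2]
  congr 1
  ext v
  simp only [mem_filter, mem_range, els, Bool.and_eq_true]
  tauto

lemma card_sset (β σ : ℕ) : (sset β σ).card = sc β σ := by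
  rw [sset, card_sub (els β) (fun v => bt σ v = true), sc]
  congr 1
  ext v
  simp only [mem_filter, mem_range, els, Bool.and_eq_true]
  tauto

lemma sset_surj {β : ℕ} (S : Finset (els β)) : ∃ σ < 2 ^ β, sset β σ = S := by
  refine ⟨∑ v ∈ range β, (if decide (∃ h : v ∈ els β, (⟨v, h⟩ : els β) ∈ S) = true then 2 ^ v else 0), bm_lt _ _, ?_⟩
  ext ⟨v, hv⟩
  rw [sset, mem_filter, bt_sum]
  constructor
  · rintro ⟨_, _, h⟩
    rw [decide_eq_true_eq] at h
    exact h.2
  · intro h
    refine ⟨mem_univ _, bt_lt (mem_els.1 hv), ?_⟩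
    rw [decide_eq_true_eq]
    exact ⟨hv, h⟩

lemma gset_surj {β : ℕ} (T : Finset (Fin (2 ^ β) × Fin β)) : ∃ γ, gset β γ = T := by
  refine ⟨∑ u ∈ range (UU β), (if decide (∃ p ∈ T, p.1.1 * β + p.2.1 = u) = true then 2 ^ u else 0), ?_⟩
  ext ⟨w, q⟩
  rw [gset, mem_filter, bt_sum]
  constructor
  · rintro ⟨_, _, h⟩
    rw [decide_eq_true_eq] at h
    obtain ⟨⟨w', q'⟩, h1, h2⟩ := h
    simp only at h2
    have h3 := congrArg (· / β) h2
    have h4 := congrArg (· % β) h2
    simp only [un_div q.2, un_div q'.2, un_mod q.2, un_mod q'.2] at h3 h4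
    have h5 : w' = w := Fin.ext h3
    have h6 : q' = q := Fin.ext h4
    rwa [h5, h6] at h1
  · intro h
    refine ⟨mem_univ _, un_lt w.2 q.2, ?_⟩
    rw [decide_eq_true_eq]
    exact ⟨(w, q), h, rfl⟩

lemma mem_gset {β γ : ℕ} {p : Fin (2 ^ β) × Fin β} : p ∈ gset β γ ↔ bt γ (p.1.1 * β + p.2.1) = true := by
  simp [gset]

/-- numbers and pairs -/
lemma exists_un {β : ℕ} (P : ℕ → Prop) : (∃ u < UU β, P u) ↔ ∃ p : Fin (2 ^ β) × Fin β, P (p.1.1 * β + p.2.1) := by
  constructor
  · rintro ⟨u, hu, h⟩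
    have hβ : 0 < β := by
      rcases Nat.eq_zero_or_pos β with h0 | h0
      · subst h0; simp [UU] at hu
      · exact h0
    have h1 : u / β < 2 ^ β := by
      rw [Nat.div_lt_iff_lt_mul hβ]; exact hu
    refine ⟨(⟨u / β, h1⟩, ⟨u % β, Nat.mod_lt _ hβ⟩), ?_⟩
    have h2 : u / β * β + u % β = u := Nat.div_add_mod' u β
    simp only [h2]
    exact h
  · rintro ⟨p, h⟩
    exact ⟨_, un_lt p.1.2 p.2.2, h⟩

lemma Fam_iff {β γ : ℕ} : Fam I a g k β γ = true ↔
    (Fintype.card (Fin (2 ^ β)) * ∑ u ∈ gset β γ, (RR I β u.1 u.2).card ≤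
      2 * Pp a g k * ∑ u : Fin (2 ^ β) × Fin β, (RR I β u.1 u.2).card) ∧
    ∀ S : Finset (els β), S.Nonempty → ∀ i ≤ Im a g k,
      2 ^ i * Fintype.card (Fin (2 ^ β)) ≤
        Dn a g k * (univ.filter fun u : Fin (2 ^ β) × Fin β => S.card ≤ 2 ^ i * (RR I β u.1 u.2 ∩ S).card).card →
      ∃ u ∈ gset β γ, S.card ≤ 2 * Ro a g k * 2 ^ i * (RR I β u.1 u.2 ∩ S).card := by
  rw [Fam, Bool.and_eq_true, decide_eq_true_eq, Fintype.card_fin]
  have h1 : ∑ u ∈ range (UU β), (if bt γ u = true then gc I β u else 0) =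
      ∑ u ∈ gset β γ, (RR I β u.1 u.2).card := by
    rw [UU, ← sum_un, gset, sum_filter]
    simp only [card_RR]
  have h2 : ∑ u ∈ range (UU β), gc I β u = ∑ u : Fin (2 ^ β) × Fin β, (RR I β u.1 u.2).card := by
    rw [UU, ← sum_un]
    simp only [card_RR]
  rw [h1, h2]
  apply and_congr Iff.rfl
  rw [ball_iff]
  have h3 : ∀ σ i, ((range (UU β)).filter fun u => decide (sc β σ ≤ 2 ^ i * gcS I β σ u) = true).card =
      (univ.filter fun u : Fin (2 ^ β) × Fin β => (sset β σ).card ≤ 2 ^ i * (RR I β u.1 u.2 ∩ sset β σ).card).card := by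
    intro σ i
    rw [UU]
    simp only [decide_eq_true_eq]
    rw [← card_un (2 ^ β) β (fun u => sc β σ ≤ 2 ^ i * gcS I β σ u)]
    simp only [card_RRS, card_sset]
  have h4 : ∀ σ i, bex (UU β) (fun u => bt γ u && decide (sc β σ ≤ 2 * Ro a g k * 2 ^ i * gcS I β σ u)) = true ↔
      ∃ u ∈ gset β γ, (sset β σ).card ≤ 2 * Ro a g k * 2 ^ i * (RR I β u.1 u.2 ∩ sset β σ).card := by
    intro σ i
    rw [bex_iff, exists_un]
    simp only [Bool.and_eq_true, decide_eq_true_eq, mem_gset, card_RRS, card_sset]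
  constructor
  · intro h S hS i hi h5
    obtain ⟨σ, hσ, rfl⟩ := sset_surj S
    have h6 := h σ hσ
    rw [Bool.or_eq_true, decide_eq_true_eq, ← card_sset, ball_iff] at h6
    rcases h6 with h6 | h6
    · rw [card_eq_zero] at h6
      rw [h6] at hS
      exact absurd hS not_nonempty_empty
    · have h7 := h6 i (by omega)
      rw [Bool.or_eq_true, Bool.not_eq_true', decide_eq_false_iff_not, card_sset, h3, ← card_sset] at h7
      rcases h7 with h7 | h7
      · exact absurd h5 h7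
      · rw [card_sset] at h7
        exact (h4 σ i).1 h7
  · intro h σ hσ
    rw [Bool.or_eq_true, decide_eq_true_eq, ball_iff]
    by_cases h5 : sc β σ = 0
    · exact Or.inl h5
    · right
      intro i hi
      rw [Bool.or_eq_true, Bool.not_eq_true', decide_eq_false_iff_not, h3, h4]
      by_cases h6 : 2 ^ i * 2 ^ β ≤ Dn a g k * (univ.filter fun u : Fin (2 ^ β) × Fin β =>
          (sset β σ).card ≤ 2 ^ i * (RR I β u.1 u.2 ∩ sset β σ).card).card
      · right
        apply h _ _ i (by omega) h6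
        rw [← card_pos, card_sset]
        omega
      · exact Or.inl h6

/-! ### Existence of a good family -/

lemma Th_pos : 1 ≤ Th a g k := by
  have h1 : 0 < NN a g k := lt_of_lt_of_le (by norm_num) ten_le_NN
  have h2 : 0 < 2 ^ (k + 1) * NN a g k ^ 2 := by positivity
  exact h2

lemma Dn_pos : 1 ≤ Dn a g k := by
  have h1 : 0 < NN a g k := lt_of_lt_of_le (by norm_num) ten_le_NN
  have h2 : 0 < 2 ^ k * NN a g k ^ 5 := by positivity
  exact h2

lemma const1 : 4 * Dn a g k * (2 ^ g) ^ 2 * Pp a g k ≤ 2 ^ Ro a g k := by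
  have h1 : NN a g k ≤ 2 ^ (NN a g k) := Nat.lt_two_pow_self.le
  have h2 : NN a g k ^ 18 ≤ 2 ^ (18 * NN a g k) := by
    calc NN a g k ^ 18 ≤ (2 ^ (NN a g k)) ^ 18 := Nat.pow_le_pow_left h1 18
      _ = 2 ^ (18 * NN a g k) := by rw [← pow_mul]; ring_nf
  have h3 : 2 + 2 * k + 2 * g ≤ 22 * NN a g k := by unfold NN; omega
  calc 4 * Dn a g k * (2 ^ g) ^ 2 * Pp a g k = 2 ^ (2 + 2 * k + 2 * g) * NN a g k ^ 18 := by
        unfold Dn Pp
        rw [pow_add, pow_add, pow_mul, pow_mul]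
        have e1 : (2 ^ 2) ^ k = (2 ^ k) ^ 2 := by rw [← pow_mul, ← pow_mul, mul_comm]
        have e2 : (2 ^ 2) ^ g = (2 ^ g) ^ 2 := by rw [← pow_mul, ← pow_mul, mul_comm]
        rw [e1, e2]
        ring
    _ ≤ 2 ^ (22 * NN a g k) * 2 ^ (18 * NN a g k) :=
        Nat.mul_le_mul (Nat.pow_le_pow_right (by norm_num) h3) h2
    _ = 2 ^ Ro a g k := by rw [← pow_add]; unfold Ro; ring_nf

lemma const2 : 4 * Dn a g k * (Ro a g k ^ 2 * (2 * NN a g k) + 2) ≤ Pp a g k := by
  unfold Dn Ro Pp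
  have h := ten_le_NN (a := a) (g := g) (k := k)
  generalize NN a g k = N at h
  have h1 : 4 * ((40 * N) ^ 2 * (2 * N) + 2) ≤ N ^ 8 := by
    have h2 : (10 : ℕ) ^ 5 ≤ N ^ 5 := Nat.pow_le_pow_left h 5
    have h3 : 1 ≤ N ^ 3 := Nat.one_le_pow _ _ (by omega)
    calc 4 * ((40 * N) ^ 2 * (2 * N) + 2) = 12800 * N ^ 3 + 8 := by ring
      _ ≤ 100000 * N ^ 3 := by omega
      _ ≤ N ^ 5 * N ^ 3 := Nat.mul_le_mul_right _ (by simpa using h2)
      _ = N ^ 8 := by ring
  calc 4 * (2 ^ k * N ^ 5) * ((40 * N) ^ 2 * (2 * N) + 2) = 2 ^ k * N ^ 5 * (4 * ((40 * N) ^ 2 * (2 * N) + 2)) := by ring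
    _ ≤ 2 ^ k * N ^ 5 * N ^ 8 := Nat.mul_le_mul_left _ h1
    _ = 2 ^ k * N ^ 13 := by ring

lemma const3 : 4 * Th a g k * (Im a g k + 1) ≤ Dn a g k := by
  unfold Th Im Dn
  have h := ten_le_NN (a := a) (g := g) (k := k)
  generalize NN a g k = N at h
  have h1 : 8 * (4 * N + 1) ≤ N ^ 3 := by nlinarith [Nat.pow_le_pow_left h 2]
  calc 4 * (2 ^ (k + 1) * N ^ 2) * (4 * N + 1) = 2 ^ k * N ^ 2 * (8 * (4 * N + 1)) := by rw [pow_succ]; ring
    _ ≤ 2 ^ k * N ^ 2 * N ^ 3 := Nat.mul_le_mul_left _ h1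
    _ = 2 ^ k * N ^ 5 := by ring

lemma const4 : 4 * Th a g k * 2 ^ g ≤ 2 ^ Im a g k := by
  have h1 : NN a g k ≤ 2 ^ (NN a g k) := Nat.lt_two_pow_self.le
  have h2 : NN a g k ^ 2 ≤ 2 ^ (2 * NN a g k) := by
    calc NN a g k ^ 2 ≤ (2 ^ (NN a g k)) ^ 2 := Nat.pow_le_pow_left h1 2
      _ = 2 ^ (2 * NN a g k) := by rw [← pow_mul]; ring_nf
  have h3 : k + 3 + g ≤ 2 * NN a g k := by unfold NN; omega
  calc 4 * Th a g k * 2 ^ g = 2 ^ (k + 3 + g) * NN a g k ^ 2 := by
        unfold Th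
        rw [pow_add, pow_add, pow_succ]; ring
    _ ≤ 2 ^ (2 * NN a g k) * 2 ^ (2 * NN a g k) := Nat.mul_le_mul (Nat.pow_le_pow_right (by norm_num) h3) h2
    _ = 2 ^ Im a g k := by rw [← pow_add]; unfold Im; ring_nf

lemma const5 : 2 + 2 * Ro a g k * (2 * NN a g k) ≤ Ka a g k := by
  unfold Ro Ka
  have h := ten_le_NN (a := a) (g := g) (k := k)
  generalize NN a g k = N at h
  have h2 : (10 : ℕ) ^ 3 ≤ N ^ 3 := Nat.pow_le_pow_left h 3
  have h3 : 1 ≤ N ^ 2 := Nat.one_le_pow _ _ (by omega)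
  calc 2 + 2 * (40 * N) * (2 * N) = 2 + 160 * N ^ 2 := by ring
    _ ≤ 1000 * N ^ 2 := by omega
    _ ≤ N ^ 3 * N ^ 2 := Nat.mul_le_mul_right _ (by simpa using h2)
    _ = N ^ 5 := by ring

lemma const6 : 8 * Ro a g k * (2 * NN a g k) * Th a g k ≤ Kb a g k := by
  unfold Ro Kb Th
  have h := ten_le_NN (a := a) (g := g) (k := k)
  generalize NN a g k = N at h
  have h2 : (10 : ℕ) ^ 4 ≤ N ^ 4 := Nat.pow_le_pow_left h 4
  calc 8 * (40 * N) * (2 * N) * (2 ^ (k + 1) * N ^ 2) = 2 ^ k * N ^ 4 * 1280 := by rw [pow_succ]; ring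
    _ ≤ 2 ^ k * N ^ 4 * N ^ 4 := Nat.mul_le_mul_left _ (by omega)
    _ = 2 ^ k * N ^ 8 := by ring

/-- independence of the decidability instances (no `convert`, which leaves helper instances in proofs) -/
lemma inst_free {Ω Q V : Type} [Fintype Ω] [Fintype Q] (R : Ω → Q → Finset V) (d1 d2 : DecidableEq V) (S : Finset V)
    (n : ℕ)
    (p1 : DecidablePred fun u : Ω × Q => S.card ≤ n * (@Inter.inter _ (@Finset.instInter V d1) (R u.1 u.2) S).card)
    (p2 : DecidablePred fun u : Ω × Q => S.card ≤ n * (@Inter.inter _ (@Finset.instInter V d2) (R u.1 u.2) S).card) :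
    (@Finset.filter _ _ p1 univ).card = (@Finset.filter _ _ p2 univ).card := by
  obtain rfl : d1 = d2 := Subsingleton.elim _ _
  obtain rfl : p1 = p2 := Subsingleton.elim _ _
  rfl

lemma inter_free {V : Type} (d1 d2 : DecidableEq V) (S T : Finset V) :
    (@Inter.inter _ (@Finset.instInter V d1) S T).card = (@Inter.inter _ (@Finset.instInter V d2) S T).card := by
  obtain rfl : d1 = d2 := Subsingleton.elim _ _
  rfl

lemma filt_free {A : Type} [Fintype A] (p : A → Prop) (d1 d2 : DecidablePred p) :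
    (@Finset.filter _ p d1 univ).card = (@Finset.filter _ p d2 univ).card := by
  obtain rfl : d1 = d2 := Subsingleton.elim _ _
  rfl

lemma fam_exists (hfam : S_FAM) (hL : Legal I a g) (r z : ℕ) : ∃ γ, Fam I a g k (Bm I k r z) γ = true := by
  set β := Bm I k r z with hβ
  have : Nonempty (Fin (2 ^ β)) := ⟨⟨0, by positivity⟩⟩
  obtain ⟨γ', h1, h2⟩ := hfam (Fin (2 ^ β)) (Fin β) (els β) (RR I β) (2 ^ g) (2 * NN a g k) (Ro a g k) (Pp a g k)
    (Dn a g k) (Im a g k)
    (by
      intro w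
      have h3 := lab I a g k hL (els β) β w.1 (fun v hv => le_trans (vf_le v) (bt_lt (mem_els.1 hv)).le) w.2
      refine le_trans ?_ h3
      apply card_le_card_of_injOn (fun q => q.1)
      · intro q hq
        simp only [mem_coe, mem_filter, mem_univ, true_and] at hq
        obtain ⟨v, hv⟩ := hq
        rw [mem_RR] at hv
        simp only [mem_coe, mem_filter, mem_range]
        exact ⟨q.2, v.1, v.2, hv⟩
      · intro q _ q' _ h
        exact Fin.ext h)
    (by rw [Fintype.card_coe]; exact els_block_card hL r z)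
    (by unfold Ro NN; omega)
    Dn_pos
    (Nat.one_le_two_pow) const1 const2
  obtain ⟨γ, hγ⟩ := gset_surj γ'
  refine ⟨γ, Fam_iff.2 ?_⟩
  rw [hγ]
  refine ⟨h1, ?_⟩
  intro S hS i hi hc
  obtain ⟨u, hu, hu'⟩ := h2 S hS i hi (by
    rw [inst_free (RR I β) _ _ S (2 ^ i) _ _] at hc
    exact hc)
  exact ⟨u, hu, by rw [inter_free _ _ (RR I β u.1 u.2) S] at hu'; exact hu'⟩

lemma famL_exists (hfam : S_FAM) (hL : Legal I a g) (r z : ℕ) : ∃ γ, FamL I a g k (Bm I k r z) γ = true := by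
  have h := fam_exists (k := k) hfam hL r z
  refine ⟨Nat.find h, ?_⟩
  rw [FamL, Bool.and_eq_true, ball_iff]
  refine ⟨Nat.find_spec h, fun γ' hγ' => ?_⟩
  have := Nat.find_min h hγ'
  simpa using this

lemma FamL_unique {β γ γ' : ℕ} (h : FamL I a g k β γ = true) (h' : FamL I a g k β γ' = true) : γ = γ' := by
  rw [FamL, Bool.and_eq_true, ball_iff] at h h'
  by_contra hne
  rcases lt_or_gt_of_ne hne with hlt | hlt
  · have := h'.2 γ hlt
    rw [h.1] at this
    exact absurd this (by simp)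
  · have := h.2 γ' hlt
    rw [h'.1] at this
    exact absurd this (by simp)

lemma CovL_unique {z β γ J J' : ℕ} (h : CovL I a g k z β γ J = true) (h' : CovL I a g k z β γ J' = true) : J = J' := by
  rw [CovL, Bool.and_eq_true, ball_iff] at h h'
  by_contra hne
  rcases lt_or_gt_of_ne hne with hlt | hlt
  · have := h'.2 J hlt
    rw [h.1] at this
    exact absurd this (by simp)
  · have := h.2 J' hlt
    rw [h'.1] at this
    exact absurd this (by simp)

/-! ### Covers -/

lemma Cov_iff {z β γ J : ℕ} : Cov I a g k z β γ J = true ↔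
    gset β J ⊆ gset β γ ∧ (∀ v : els β, Agr I a g k z v.1 = true → ∃ u ∈ gset β J, v ∈ RR I β u.1 u.2) ∧
    2 ^ z * (gset β J).card ≤ Ka a g k * 2 ^ z + Kb a g k * mz I z := by
  rw [Cov, Bool.and_eq_true, Bool.and_eq_true, ball_iff, ball_iff, decide_eq_true_eq, and_assoc]
  refine and_congr ?_ (and_congr ?_ ?_)
  · constructor
    · rintro h ⟨w, q⟩ hp
      rw [mem_gset] at hp ⊢
      have := h _ (un_lt w.2 q.2)
      simp only at hp ⊢
      rw [hp] at this
      simpa using this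
    · intro h u hu
      rw [Bool.or_eq_true, Bool.not_eq_true']
      by_contra hcon
      push Not at hcon
      have h1 := (exists_un (fun u => bt J u ≠ false ∧ bt γ u ≠ true)).1 ⟨u, hu, hcon⟩
      obtain ⟨p, h2, h3⟩ := h1
      rw [ne_eq, Bool.not_eq_false] at h2
      exact h3 (mem_gset.1 (h (mem_gset.2 h2)))
  · constructor
    · rintro h ⟨v, hv⟩ hA
      have h1 := h v (bt_lt (mem_els.1 hv))
      simp only at hA
      rw [mem_els] at hv
      rw [hv, hA] at h1
      simp only [Bool.and_self, Bool.not_true, Bool.false_or] at h1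
      rw [bex_iff, exists_un] at h1
      obtain ⟨p, h2⟩ := h1
      rw [Bool.and_eq_true, un_div p.2.2, un_mod p.2.2] at h2
      exact ⟨p, mem_gset.2 h2.1, mem_RR.2 h2.2⟩
    · intro h v hv
      by_cases h1 : bt β v = true ∧ Agr I a g k z v = true
      · obtain ⟨p, h2, h3⟩ := h ⟨v, mem_els.2 h1.1⟩ h1.2
        rw [Bool.or_eq_true, bex_iff, exists_un]
        right
        refine ⟨p, ?_⟩
        rw [Bool.and_eq_true, un_div p.2.2, un_mod p.2.2]
        exact ⟨mem_gset.1 h2, mem_RR.1 h3⟩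
      · rw [Bool.or_eq_true, Bool.not_eq_true', Bool.and_eq_false_iff]
        left
        by_contra hcon
        push Not at hcon
        rw [ne_eq, ne_eq, Bool.not_eq_false, Bool.not_eq_false] at hcon
        exact h1 hcon
  · have h1 : ((range (UU β)).filter fun u => bt J u = true).card = (gset β J).card := by
      rw [UU, gset, ← card_un]
    rw [h1]

/-- restriction of an oracle prefix -/
def pir (z β : ℕ) (w : Fin (2 ^ (z + β))) : Fin (2 ^ β) := ⟨w.1 % 2 ^ β, Nat.mod_lt _ (by positivity)⟩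

/-- the labels of `z` -/
noncomputable def pzz (I : ℕ → ℕ → ℕ → Bool → ℕ → Bool) (z β : ℕ) (w : Fin (2 ^ (z + β))) : Finset (Fin β) :=
  univ.filter fun q => prof I z w.1 q.1 = true

lemma pir_fib (z β : ℕ) (w : Fin (2 ^ β)) :
    (univ.filter fun w' => pir z β w' = w).card * Fintype.card (Fin (2 ^ β)) = Fintype.card (Fin (2 ^ (z + β))) := by
  rw [Fintype.card_fin, Fintype.card_fin]
  have h4 : (univ.filter fun w' : Fin (2 ^ (z + β)) => pir z β w' = w).card =
      ((range (2 ^ (z + β))).filter fun x => x % 2 ^ β = w.1).card := by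
    rw [card_filter, card_filter, Finset.sum_range]
    apply sum_congr rfl
    intro x _
    simp only [pir, Fin.ext_iff]
  have h5 := sum_mod (fun x => if x = w.1 then 1 else 0) β z
  rw [sum_ite_eq' (range (2 ^ β)) w.1 (fun _ => 1), if_pos (mem_range.2 w.2), mul_one] at h5
  rw [h4, card_filter, Nat.add_comm z β, h5, pow_add, mul_comm]

lemma pzz_mass (hL : Legal I a g) (z β : ℕ) : ∑ w', (pzz I z β w').card ≤ 2 ^ β * mz I z := by
  have h1 : ∑ w', (pzz I z β w').card ≤ mS I (z + β) z := by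
    rw [mS, Finset.sum_range]
    apply sum_le_sum
    intro w _
    apply card_le_card_of_injOn (fun q => q.1)
    · intro q hq
      simp only [pzz, coe_filter, mem_univ, true_and, Set.mem_ofPred_eq] at hq
      simp only [coe_filter, mem_range, Set.mem_ofPred_eq]
      exact ⟨by have := q.2; omega, hq⟩
    · intro q _ q' _ h
      exact Fin.ext h
  have h2 := mS_eq hL (v := z) (S := z + β) (le_trans (vf_le z) (by omega)) (le_trans (vb_le z) (by omega))
  have h3 : 2 ^ z * mS I (z + β) z = 2 ^ z * (2 ^ β * mz I z) := by rw [h2, pow_add]; ring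
  rw [Nat.eq_of_mul_eq_mul_left (by positivity) h3] at h1
  exact h1

lemma mz_le (hL : Legal I a g) (z : ℕ) : mz I z ≤ 2 ^ z * 2 ^ g := by
  rw [mz]
  calc _ ≤ ∑ w ∈ range (2 ^ z), 2 ^ g := by
        apply sum_le_sum
        intro w hw
        have h3 := lab I a g 0 hL {z} z w (fun v hv => by rw [mem_singleton.1 hv]; exact vf_le z) (mem_range.1 hw)
        simpa using h3
    _ = _ := by simp

lemma pzz_agr (hL : Legal I a g) (z β : ℕ) (v : els β) :
    (univ.filter fun w' => ∃ q ∈ pzz I z β w', v ∈ RR I β (pir z β w') q).card =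
      ((range (2 ^ (z + β))).filter fun w => ∃ q, prof I v.1 w q = true ∧ prof I z w q = true).card := by
  rw [card_filter, card_filter, Finset.sum_range]
  apply sum_congr rfl
  intro w _
  congr 1
  rw [eq_iff_iff]
  have hb := bt_lt (mem_els.1 v.2)
  constructor
  · rintro ⟨q, hq1, hq2⟩
    simp only [pzz, mem_filter, mem_univ, true_and] at hq1
    rw [mem_RR] at hq2
    simp only [pir] at hq2
    rw [prof_mod (le_trans (vf_le _) hb.le) (le_trans (vb_le _) hb.le)] at hq2
    exact ⟨q.1, hq2, hq1⟩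
  · rintro ⟨q, hq1, hq2⟩
    have hqβ : q < β := lt_trans (lt_of_lt_of_le (prof_lt hL hq1).1 (vf_le _)) hb
    refine ⟨⟨q, hqβ⟩, ?_, ?_⟩
    · simp only [pzz, mem_filter, mem_univ, true_and]
      exact hq2
    · rw [mem_RR]
      simp only [pir]
      rw [prof_mod (le_trans (vf_le _) hb.le) (le_trans (vb_le _) hb.le)]
      exact hq1

lemma cov_exists (hcov : S_COV) (hL : Legal I a g) {r z γ : ℕ} (hz : Ver I k z = true)
    (hγ : Fam I a g k (Bm I k r z) γ = true) : ∃ J, Cov I a g k z (Bm I k r z) γ J = true := by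
  have hcard := els_block_card (k := k) hL r z
  have hver := fun v => block_ver (I := I) (k := k) (r := r) (z := z) (v := v)
  generalize Bm I k r z = β at *
  have i1 : Nonempty (Fin (2 ^ β)) := ⟨⟨0, by positivity⟩⟩
  have i2 : Nonempty (Fin (2 ^ (z + β))) := ⟨⟨0, by positivity⟩⟩
  rw [Fam_iff] at hγ
  have H := hcov (Fin (2 ^ β)) (Fin (2 ^ (z + β))) (Fin β) (els β) (pir z β) (RR I β) (pzz I z β) (gset β γ)
    (2 * NN a g k) (Ro a g k) (Th a g k) (Dn a g k) (Im a g k)
  have H1 := H (by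
      intro w
      have := pir_fib z β w
      rw [filt_free _ _ _] at this
      exact this) (by
      intro S hS i hi hc
      obtain ⟨u, hu, hu'⟩ := hγ.2 S hS i hi (by
        rw [inst_free (RR I β) _ _ S (2 ^ i) _ _] at hc
        exact hc)
      exact ⟨u, hu, by rw [inter_free _ _ (RR I β u.1 u.2) S] at hu'; exact hu'⟩)
    (by rw [Fintype.card_coe]; exact hcard)
    (by unfold Ro NN; omega)
    Th_pos
    const3
    (by
      rw [Fintype.card_fin]
      calc 4 * Th a g k * ∑ w', (pzz I z β w').card ≤ 4 * Th a g k * (2 ^ β * (2 ^ z * 2 ^ g)) :=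
            Nat.mul_le_mul_left _ (le_trans (pzz_mass hL z β) (Nat.mul_le_mul_left _ (mz_le hL z)))
        _ = (4 * Th a g k * 2 ^ g) * 2 ^ (z + β) := by rw [pow_add]; ring
        _ ≤ 2 ^ Im a g k * 2 ^ (z + β) := Nat.mul_le_mul_right _ const4)
  obtain ⟨J', h1, h2, h3⟩ := H1
  obtain ⟨J, hJ⟩ := gset_surj J'
  refine ⟨J, Cov_iff.2 ?_⟩
  rw [hJ]
  refine ⟨h1, ?_, ?_⟩
  · intro v hv
    apply h2
    rw [Fintype.card_fin]
    have hvV := (hver v.1 v.2).1
    rw [Agr, decide_eq_true_eq] at hv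
    have h4 := agr_res (s := z + β) hL hvV hz (le_trans (vf_le _) (by have := bt_lt (mem_els.1 v.2); omega))
      (le_trans (vf_le z) (by omega))
    have h5 := pzz_agr hL z β v
    rw [← h5] at h4
    have h6 : 2 ^ (z + v.1) * 2 ^ (z + β) ≤ 2 ^ (z + v.1) * (Th a g k *
        (univ.filter fun w' => ∃ q ∈ pzz I z β w', v ∈ RR I β (pir z β w') q).card) := by
      calc 2 ^ (z + v.1) * 2 ^ (z + β) ≤ Th a g k * agr I z v.1 * 2 ^ (z + β) := Nat.mul_le_mul_right _ hv
        _ = Th a g k * (2 ^ (z + β) * agr I z v.1) := by ring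
        _ = Th a g k * (2 ^ (z + v.1) *
          (univ.filter fun w' => ∃ q ∈ pzz I z β w', v ∈ RR I β (pir z β w') q).card) := by rw [h4]
        _ = _ := by ring
    have h7 := Nat.le_of_mul_le_mul_left h6 (by positivity)
    rw [filt_free _ _ _] at h7
    exact h7
  · rw [Fintype.card_fin] at h3
    have h4 : 2 ^ β * (2 ^ z * J'.card) ≤ 2 ^ β * (Ka a g k * 2 ^ z + Kb a g k * mz I z) := by
      calc 2 ^ β * (2 ^ z * J'.card) = 2 ^ (z + β) * J'.card := by rw [pow_add]; ring
        _ ≤ (2 + 2 * Ro a g k * (2 * NN a g k)) * 2 ^ (z + β) +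
            8 * Ro a g k * (2 * NN a g k) * Th a g k * ∑ w', (pzz I z β w').card := h3
        _ ≤ Ka a g k * 2 ^ (z + β) + Kb a g k * (2 ^ β * mz I z) :=
            Nat.add_le_add (Nat.mul_le_mul_right _ const5) (Nat.mul_le_mul const6 (pzz_mass hL z β))
        _ = _ := by rw [pow_add]; ring
    exact Nat.le_of_mul_le_mul_left h4 (by positivity)

lemma covL_exists (hcov : S_COV) (hL : Legal I a g) {r z γ : ℕ} (hz : Ver I k z = true)
    (hγ : Fam I a g k (Bm I k r z) γ = true) : ∃ J, CovL I a g k z (Bm I k r z) γ J = true := by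
  have h := cov_exists hcov hL hz hγ
  refine ⟨Nat.find h, ?_⟩
  rw [CovL, Bool.and_eq_true, ball_iff]
  refine ⟨Nat.find_spec h, fun γ' hγ' => ?_⟩
  have := Nat.find_min h hγ'
  simpa using this

end

end Pool.Agent.H57GWR
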