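import Pool.Agent.H57GWR.Stm

/-!
# Project GWR: basic facts about versions, MASS, NUM, BLK, LAB
-/

set_option autoImplicit false

namespace Pool.Agent.H57GWR

open Finset
open Pool.Agent.H166R3.AT (bex ball bex_iff ball_iff)

/-! ### Refinement of the resolution -/

lemma sum_mod (f : ℕ → ℕ) (s d : ℕ) :
    ∑ w ∈ range (2 ^ (s + d)), f (w % 2 ^ s) = 2 ^ d * ∑ w ∈ range (2 ^ s), f w := by
  induction d with
  | zero =>
    simp only [add_zero, pow_zero, one_mul]
    exact sum_congr rfl fun w hw => by rw [Nat.mod_eq_of_lt (mem_range.1 hw)]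
  | succ d ih =>
    have h1 : 2 ^ (s + (d + 1)) = 2 ^ (s + d) + 2 ^ (s + d) := by rw [← add_assoc, pow_succ]; ring
    have h2 : ∀ x, f ((2 ^ (s + d) + x) % 2 ^ s) = f (x % 2 ^ s) := by
      intro x
      rw [pow_add, Nat.mul_add_mod]
    rw [h1, sum_range_add]
    simp only [h2, ih]
    rw [pow_succ]; ring

lemma sum_res (f : ℕ → ℕ) (m S S' : ℕ) (hf : ∀ w, f w = f (w % 2 ^ m)) (h : m ≤ S) (h' : m ≤ S') :
    2 ^ S' * ∑ w ∈ range (2 ^ S), f w = 2 ^ S * ∑ w ∈ range (2 ^ S'), f w := by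
  obtain ⟨d, rfl⟩ := Nat.exists_eq_add_of_le h
  obtain ⟨d', rfl⟩ := Nat.exists_eq_add_of_le h'
  have key : ∀ d, ∑ w ∈ range (2 ^ (m + d)), f w = 2 ^ d * ∑ w ∈ range (2 ^ m), f w := by
    intro d
    rw [← sum_mod]
    exact sum_congr rfl fun w _ => hf w
  rw [key, key, pow_add, pow_add]; ring

lemma count_res (p : ℕ → Prop) [DecidablePred p] (m S S' : ℕ) (hp : ∀ w, p w ↔ p (w % 2 ^ m)) (h : m ≤ S) (h' : m ≤ S') :
    2 ^ S' * ((range (2 ^ S)).filter p).card = 2 ^ S * ((range (2 ^ S')).filter p).card := by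
  rw [card_filter, card_filter]
  exact sum_res (fun w => if p w then 1 else 0) m S S' (fun w => by simp only [← hp w]) h h'

section

variable {I : ℕ → ℕ → ℕ → Bool → ℕ → Bool} {a : Bool → ℕ} {g k : ℕ}

lemma Legal.up (hL : Legal I a g) {s S w q : ℕ} {i : Bool} {e : ℕ} (h : s ≤ S) (hw : w < 2 ^ S)
    (hI : I s (w % 2 ^ s) q i e = true) : I S w q i e = true := by
  induction S, h using Nat.le_induction generalizing w with
  | base => rwa [Nat.mod_eq_of_lt hw] at hI
  | succ S hS ih =>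
    have h2 : w % 2 ^ S < 2 ^ S := Nat.mod_lt _ (by positivity)
    have h3 : I S (w % 2 ^ S) q i e = true := by
      apply ih h2
      rwa [Nat.mod_mod_of_dvd _ (pow_dvd_pow 2 hS)]
    obtain ⟨h4, h5⟩ := hL.mono S (w % 2 ^ S) q i e h2 h3
    have h6 : w / 2 ^ S < 2 := by
      rw [Nat.div_lt_iff_lt_mul (by positivity)]; rw [pow_succ] at hw; linarith
    have h7 : 2 ^ S * (w / 2 ^ S) + w % 2 ^ S = w := Nat.div_add_mod w (2 ^ S)
    have h9 : w / 2 ^ S = 0 ∨ w / 2 ^ S = 1 := by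
      generalize w / 2 ^ S = t at h6
      omega
    rcases h9 with h8 | h8
    · rw [h8] at h7
      have : w % 2 ^ S = w := by omega
      rwa [this] at h4
    · rw [h8] at h7
      have : w % 2 ^ S + 2 ^ S = w := by omega
      rwa [this] at h5

lemma Legal.up' (hL : Legal I a g) {s S w q : ℕ} {i : Bool} {e : ℕ} (h : s ≤ S)
    (hI : I s (w % 2 ^ s) q i e = true) : I S (w % 2 ^ S) q i e = true := by
  apply hL.up h (Nat.mod_lt _ (by positivity))
  rwa [Nat.mod_mod_of_dvd _ (pow_dvd_pow 2 h)]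

/-- `cnt` at a finer resolution -/
lemma cnt_up (s d : ℕ) (i : Bool) (e : ℕ) :
    ∑ w ∈ range (2 ^ (s + d)), ((range s).filter fun q => I s (w % 2 ^ s) q i e = true).card = 2 ^ d * cnt I s i e :=
  sum_mod (fun w => ((range s).filter fun q => I s w q i e = true).card) s d

lemma cnt_mono (hL : Legal I a g) (s d : ℕ) (i : Bool) (e : ℕ) : 2 ^ d * cnt I s i e ≤ cnt I (s + d) i e := by
  rw [← cnt_up, cnt]
  apply sum_le_sum
  intro w hw
  apply card_le_card
  intro q hq
  rw [mem_filter, mem_range] at hq ⊢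
  exact ⟨by omega, hL.up (by omega) (mem_range.1 hw) hq.2⟩

lemma rch_iff {n s : ℕ} {i : Bool} {e : ℕ} : rch I k n s i e = true ↔ n * 2 ^ s ≤ cnt I s i e * 2 ^ (k + 3) := by
  simp [rch]

lemma rch_le {n n' s : ℕ} {i : Bool} {e : ℕ} (h : n' ≤ n) (hr : rch I k n s i e = true) : rch I k n' s i e = true := by
  rw [rch_iff] at *
  exact le_trans (Nat.mul_le_mul_right _ h) hr

lemma rch_up (hL : Legal I a g) {n s S : ℕ} {i : Bool} {e : ℕ} (h : s ≤ S) (hr : rch I k n s i e = true) :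
    rch I k n S i e = true := by
  rw [rch_iff] at *
  obtain ⟨d, rfl⟩ := Nat.exists_eq_add_of_le h
  calc n * 2 ^ (s + d) = 2 ^ d * (n * 2 ^ s) := by rw [pow_add]; ring
    _ ≤ 2 ^ d * (cnt I s i e * 2 ^ (k + 3)) := Nat.mul_le_mul_left _ hr
    _ = 2 ^ d * cnt I s i e * 2 ^ (k + 3) := by ring
    _ ≤ cnt I (s + d) i e * 2 ^ (k + 3) := Nat.mul_le_mul_right _ (cnt_mono hL s d i e)

lemma fst_iff {n s : ℕ} {i : Bool} {e : ℕ} :
    fst I k n s i e = true ↔ rch I k n s i e = true ∧ ∀ s' < s, ¬ rch I k n s' i e = true := by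
  simp [fst, ball_iff]

lemma fst_unique {n s s' : ℕ} {i : Bool} {e : ℕ} (h : fst I k n s i e = true) (h' : fst I k n s' i e = true) :
    s = s' := by
  rw [fst_iff] at h h'
  by_contra hne
  rcases lt_or_gt_of_ne hne with hlt | hlt
  · exact h'.2 s hlt h.1
  · exact h.2 s' hlt h'.1

lemma fst_le {n n' s s' : ℕ} {i : Bool} {e : ℕ} (hn : n ≤ n') (h : fst I k n s i e = true)
    (h' : fst I k n' s' i e = true) : s ≤ s' := by
  rw [fst_iff] at h h'
  by_contra hlt
  exact h.2 s' (by omega) (rch_le hn h'.1)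

lemma fst_exists {n s : ℕ} {i : Bool} {e : ℕ} (h : rch I k n s i e = true) : ∃ s' ≤ s, fst I k n s' i e = true := by
  have hex : ∃ s', rch I k n s' i e = true := ⟨s, h⟩
  exact ⟨Nat.find hex, Nat.find_min' hex h, fst_iff.2 ⟨Nat.find_spec hex, fun s' hs' => Nat.find_min hex hs'⟩⟩

lemma fst_zero {i : Bool} {e : ℕ} : fst I k 0 0 i e = true := by
  rw [fst_iff, rch_iff]; simp

/-! ### Codes of versions -/

lemma vf_le (v : ℕ) : vf v ≤ v :=
  le_trans (le_trans (Nat.unpair_right_le _) (le_trans (Nat.unpair_right_le _) (le_trans (Nat.unpair_right_le _)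
    (Nat.unpair_right_le _)))) (Nat.div_le_self _ _)

lemma vb_le (v : ℕ) : vb v ≤ v :=
  le_trans (le_trans (Nat.unpair_left_le _) (le_trans (Nat.unpair_right_le _) (le_trans (Nat.unpair_right_le _)
    (Nat.unpair_right_le _)))) (Nat.div_le_self _ _)

lemma code_eq (v : ℕ) : v = 2 * (Nat.pair (ve v) (Nat.pair (vj v) (Nat.pair (vl v) (Nat.pair (vb v) (vf v))))) +
    (if vi v = true then 1 else 0) := by
  simp only [ve, vj, vl, vb, vf, Nat.pair_unpair, vi]
  by_cases h : v % 2 = 1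
  · simp [h]; omega
  · simp [h]; omega

/-- the code with given components -/
def code (i : Bool) (e j l b f : ℕ) : ℕ :=
  2 * (Nat.pair e (Nat.pair j (Nat.pair l (Nat.pair b f)))) + (if i = true then 1 else 0)

lemma code_div (i : Bool) (e j l b f : ℕ) :
    code i e j l b f / 2 = Nat.pair e (Nat.pair j (Nat.pair l (Nat.pair b f))) := by
  rw [code]; split_ifs <;> omega

lemma vi_code (i : Bool) (e j l b f : ℕ) : vi (code i e j l b f) = i := by
  rw [vi, code]
  cases i
  · simp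
  · simp

lemma ve_code (i : Bool) (e j l b f : ℕ) : ve (code i e j l b f) = e := by simp [ve, code_div]
lemma vj_code (i : Bool) (e j l b f : ℕ) : vj (code i e j l b f) = j := by simp [vj, code_div]
lemma vl_code (i : Bool) (e j l b f : ℕ) : vl (code i e j l b f) = l := by simp [vl, code_div]
lemma vb_code (i : Bool) (e j l b f : ℕ) : vb (code i e j l b f) = b := by simp [vb, code_div]
lemma vf_code (i : Bool) (e j l b f : ℕ) : vf (code i e j l b f) = f := by simp [vf, code_div]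

lemma Ver_iff {v : ℕ} : Ver I k v = true ↔
    fst I k ((vl v + 1) * 2 ^ vj v) (vf v) (vi v) (ve v) = true ∧ fst I k (vl v * 2 ^ vj v) (vb v) (vi v) (ve v) = true := by
  simp [Ver]

lemma Ver_ext {v v' : ℕ} (h : Ver I k v = true) (h' : Ver I k v' = true) (hi : vi v = vi v') (he : ve v = ve v')
    (hj : vj v = vj v') (hl : vl v = vl v') : v = v' := by
  rw [Ver_iff] at h h'
  rw [hi, he, hj, hl] at h
  have h1 := fst_unique h.1 h'.1
  have h2 := fst_unique h.2 h'.2
  rw [code_eq v, code_eq v', hi, he, hj, hl, h1, h2]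

lemma prof_iff {v w q : ℕ} : prof I v w q = true ↔
    I (vf v) (w % 2 ^ vf v) q (vi v) (ve v) = true ∧ ¬ I (vb v) (w % 2 ^ vb v) q (vi v) (ve v) = true := by
  simp [prof]

lemma Ver.vb_le_vf {v : ℕ} (h : Ver I k v = true) : vb v ≤ vf v := by
  rw [Ver_iff] at h
  exact fst_le (Nat.mul_le_mul_right _ (by omega)) h.2 h.1

lemma prof_lt (hL : Legal I a g) {v w q : ℕ} (h : prof I v w q = true) : q < vf v ∧ ve v < vf v :=
  hL.small _ _ _ _ _ (prof_iff.1 h).1

lemma prof_I (hL : Legal I a g) {v w q S : ℕ} (h : prof I v w q = true) (hS : vf v ≤ S) (hw : w < 2 ^ S) :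
    I S w q (vi v) (ve v) = true := hL.up hS hw (prof_iff.1 h).1

/-- dependence on a prefix -/
lemma prof_mod {v w q S : ℕ} (hf : vf v ≤ S) (hb : vb v ≤ S) : prof I v (w % 2 ^ S) q = prof I v w q := by
  rw [prof, prof, Nat.mod_mod_of_dvd _ (pow_dvd_pow 2 hf), Nat.mod_mod_of_dvd _ (pow_dvd_pow 2 hb)]

lemma prof_disj (hL : Legal I a g) {v v' w q : ℕ} (h : Ver I k v = true) (h' : Ver I k v' = true) (hi : vi v = vi v')
    (he : ve v = ve v') (hj : vj v = vj v') (hp : prof I v w q = true) (hp' : prof I v' w q = true) : v = v' := by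
  apply Ver_ext h h' hi he hj
  by_contra hne
  have key : ∀ {u u' : ℕ}, Ver I k u = true → Ver I k u' = true → vi u = vi u' → ve u = ve u' → vj u = vj u' →
      prof I u w q = true → prof I u' w q = true → vl u < vl u' → False := by
    intro u u' h h' hi he hj hp hp' hlt
    rw [Ver_iff] at h h'
    rw [prof_iff] at hp hp'
    rw [hi, he, hj] at h
    have h1 : vf u ≤ vb u' := fst_le (Nat.mul_le_mul_right _ hlt) h.1 h'.2
    apply hp'.2
    have h2 := hp.1
    rw [hi, he] at h2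
    exact hL.up' h1 h2
  rcases lt_or_gt_of_ne hne with hlt | hlt
  · exact key h h' hi he hj hp hp' hlt
  · exact key h' h hi.symm he.symm hj.symm hp' hp hlt

/-! ### Counting -/

lemma label_card (hL : Legal I a g) {s w : ℕ} (hw : w < 2 ^ s) (i : Bool) (e : ℕ) :
    ((range s).filter fun q => I s w q i e = true).card ≤ 2 ^ g := by
  refine le_trans (card_le_card ?_) (hL.labels s w hw)
  intro q hq
  rw [mem_filter] at hq ⊢
  exact ⟨hq.1, i, e, (hL.small _ _ _ _ _ hq.2).2, hq.2⟩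

lemma cnt_le (hL : Legal I a g) (s : ℕ) (i : Bool) (e : ℕ) : cnt I s i e ≤ 2 ^ s * 2 ^ g := by
  rw [cnt]
  calc _ ≤ ∑ w ∈ range (2 ^ s), 2 ^ g := sum_le_sum fun w hw => label_card hL (mem_range.1 hw) i e
    _ = 2 ^ s * 2 ^ g := by simp

/-- for each oracle, the total number of memberships is at most `2 ^ (g + a i)` -/
lemma memb_card (hL : Legal I a g) {S w : ℕ} (hw : w < 2 ^ S) (i : Bool) :
    ∑ q ∈ range S, ((range S).filter fun e => I S w q i e = true).card ≤ 2 ^ (g + a i) := by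
  have h1 : ∑ q ∈ range S, ((range S).filter fun e => I S w q i e = true).card =
      ∑ q ∈ (range S).filter (fun q => ∃ i, ∃ e < S, I S w q i e = true),
        ((range S).filter fun e => I S w q i e = true).card := by
    symm
    apply sum_subset (filter_subset _ _)
    intro q hq hq'
    rw [card_eq_zero, filter_eq_empty_iff]
    intro e he hI
    exact hq' (mem_filter.2 ⟨hq, i, e, mem_range.1 he, hI⟩)
  rw [h1]
  calc _ ≤ ∑ q ∈ (range S).filter (fun q => ∃ i, ∃ e < S, I S w q i e = true), 2 ^ a i :=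
        sum_le_sum fun q _ => hL.elems S w q i hw
    _ = ((range S).filter (fun q => ∃ i, ∃ e < S, I S w q i e = true)).card * 2 ^ a i := by simp
    _ ≤ 2 ^ g * 2 ^ a i := Nat.mul_le_mul_right _ (hL.labels S w hw)
    _ = 2 ^ (g + a i) := by rw [pow_add]

lemma sum_cnt_le (hL : Legal I a g) (S : ℕ) (i : Bool) : ∑ e ∈ range S, cnt I S i e ≤ 2 ^ S * 2 ^ (g + a i) := by
  calc ∑ e ∈ range S, cnt I S i e
      = ∑ w ∈ range (2 ^ S), ∑ q ∈ range S, ((range S).filter fun e => I S w q i e = true).card := by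
        simp only [cnt]
        rw [sum_comm]
        apply sum_congr rfl
        intro w _
        simp only [card_filter]
        rw [sum_comm]
    _ ≤ ∑ w ∈ range (2 ^ S), 2 ^ (g + a i) := sum_le_sum fun w hw => memb_card hL (mem_range.1 hw) i
    _ = 2 ^ S * 2 ^ (g + a i) := by simp

lemma Ver.rch_vf {v : ℕ} (h : Ver I k v = true) :
    (vl v + 1) * 2 ^ vj v * 2 ^ vf v ≤ cnt I (vf v) (vi v) (ve v) * 2 ^ (k + 3) :=
  rch_iff.1 (fst_iff.1 (Ver_iff.1 h).1).1

lemma Ver.vj_lt (hL : Legal I a g) {v : ℕ} (h : Ver I k v = true) : vj v < NN a g k := by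
  have h1 := Ver.rch_vf h
  have h2 := cnt_le hL (vf v) (vi v) (ve v)
  have h3 : (vl v + 1) * 2 ^ vj v * 2 ^ vf v ≤ 2 ^ vf v * 2 ^ g * 2 ^ (k + 3) := le_trans h1 (Nat.mul_le_mul_right _ h2)
  have h4 : 2 ^ vj v * 2 ^ vf v ≤ 2 ^ (g + (k + 3)) * 2 ^ vf v := by
    calc 2 ^ vj v * 2 ^ vf v ≤ (vl v + 1) * 2 ^ vj v * 2 ^ vf v := by
          have : 1 * 2 ^ vj v ≤ (vl v + 1) * 2 ^ vj v := Nat.mul_le_mul_right _ (by omega)
          rw [one_mul] at this
          exact Nat.mul_le_mul_right _ this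
      _ ≤ 2 ^ vf v * 2 ^ g * 2 ^ (k + 3) := h3
      _ = 2 ^ (g + (k + 3)) * 2 ^ vf v := by rw [pow_add]; ring
  have h5 : 2 ^ vj v ≤ 2 ^ (g + (k + 3)) := Nat.le_of_mul_le_mul_right h4 (by positivity)
  have h6 : vj v ≤ g + (k + 3) := (Nat.pow_le_pow_iff_right (by norm_num)).1 h5
  unfold NN
  omega

/-- the versions that contain `(w, q)` -/
lemma prof_card (hL : Legal I a g) {i : Bool} {F : Finset ℕ} (hF : ∀ v ∈ F, Ver I k v = true ∧ vi v = i) {S w : ℕ} (q : ℕ)
    (hw : w < 2 ^ S) (hS : ∀ v ∈ F, vf v ≤ S) :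
    (F.filter fun v => prof I v w q = true).card ≤
      NN a g k * ((range S).filter fun e => I S w q i e = true).card := by
  rw [← card_range (NN a g k), ← card_product]
  apply card_le_card_of_injOn (fun v => (vj v, ve v))
  · intro v hv
    rw [mem_coe, mem_filter] at hv
    obtain ⟨hv1, hv2⟩ := hv
    obtain ⟨h1, h2⟩ := hF v hv1
    have h3 := prof_lt hL hv2
    have h4 := prof_I hL hv2 (hS v hv1) hw
    rw [h2] at h4
    simp only [coe_product, Set.mem_prod, mem_coe, mem_range, mem_filter]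
    have := hS v hv1
    exact ⟨Ver.vj_lt hL h1, by omega, h4⟩
  · intro v hv v' hv' heq
    rw [mem_coe, mem_filter] at hv hv'
    obtain ⟨hv1, hv2⟩ := hv
    obtain ⟨hv1', hv2'⟩ := hv'
    obtain ⟨h1, h2⟩ := hF v hv1
    obtain ⟨h1', h2'⟩ := hF v' hv1'
    simp only [Prod.mk.injEq] at heq
    exact prof_disj hL h1 h1' (by rw [h2, h2']) heq.2 heq.1 hv2 hv2'

theorem blk : S_BLK := by
  intro I a g k hL i F S w q hF hw
  refine le_trans (prof_card hL (fun v hv => ⟨(hF v hv).1, (hF v hv).2.1⟩) q hw (fun v hv => (hF v hv).2.2)) ?_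
  exact Nat.mul_le_mul_left _ (hL.elems S w q i hw)

theorem lab : S_LAB := by
  intro I a g k hL F S w hF hw
  refine le_trans (card_le_card ?_) (hL.labels S w hw)
  intro q hq
  simp only [mem_filter, mem_range] at hq ⊢
  obtain ⟨hq1, v, hv, hp⟩ := hq
  have h1 := hF v hv
  have h2 := prof_lt hL hp
  exact ⟨hq1, vi v, ve v, by omega, prof_I hL hp h1 hw⟩

/-- mass of a version at the resolution `S` -/
def mS (I : ℕ → ℕ → ℕ → Bool → ℕ → Bool) (S v : ℕ) : ℕ :=
  ∑ w ∈ range (2 ^ S), ((range S).filter fun q => prof I v w q = true).card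

lemma card_range_prof (hL : Legal I a g) {v w S S' : ℕ} (h : vf v ≤ S) (h' : vf v ≤ S') :
    ((range S).filter fun q => prof I v w q = true).card = ((range S').filter fun q => prof I v w q = true).card := by
  congr 1
  ext q
  simp only [mem_filter, mem_range]
  constructor
  · rintro ⟨_, h2⟩
    exact ⟨lt_of_lt_of_le (prof_lt hL h2).1 h', h2⟩
  · rintro ⟨_, h2⟩
    exact ⟨lt_of_lt_of_le (prof_lt hL h2).1 h, h2⟩

lemma mS_eq (hL : Legal I a g) {v S : ℕ} (hf : vf v ≤ S) (hb : vb v ≤ S) : 2 ^ v * mS I S v = 2 ^ S * mz I v := by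
  have h1 : mS I S v = ∑ w ∈ range (2 ^ S), ((range v).filter fun q => prof I v w q = true).card := by
    apply sum_congr rfl
    intro w _
    exact card_range_prof hL hf (vf_le v)
  rw [h1, mz]
  apply sum_res (fun w => ((range v).filter fun q => prof I v w q = true).card) (max (vf v) (vb v)) S v
  · intro w
    simp only [prof_mod (I := I) (le_max_left (vf v) (vb v)) (le_max_right (vf v) (vb v))]
  · exact max_le hf hb
  · exact max_le (vf_le v) (vb_le v)

lemma mass_nat (hL : Legal I a g) {i : Bool} {F : Finset ℕ} (hF : ∀ v ∈ F, Ver I k v = true ∧ vi v = i) (S : ℕ)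
    (hS : ∀ v ∈ F, vf v ≤ S) : ∑ v ∈ F, mS I S v ≤ 2 ^ S * (NN a g k * 2 ^ (g + a i)) := by
  calc ∑ v ∈ F, mS I S v
      = ∑ w ∈ range (2 ^ S), ∑ q ∈ range S, (F.filter fun v => prof I v w q = true).card := by
        simp only [mS]
        rw [sum_comm]
        apply sum_congr rfl
        intro w _
        simp only [card_filter]
        rw [sum_comm]
    _ ≤ ∑ w ∈ range (2 ^ S), ∑ q ∈ range S, NN a g k * ((range S).filter fun e => I S w q i e = true).card := by
        apply sum_le_sum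
        intro w hw
        apply sum_le_sum
        intro q _
        exact prof_card hL hF q (mem_range.1 hw) hS
    _ = ∑ w ∈ range (2 ^ S), NN a g k * ∑ q ∈ range S, ((range S).filter fun e => I S w q i e = true).card := by
        simp only [mul_sum]
    _ ≤ ∑ w ∈ range (2 ^ S), NN a g k * 2 ^ (g + a i) := by
        apply sum_le_sum
        intro w hw
        exact Nat.mul_le_mul_left _ (memb_card hL (mem_range.1 hw) i)
    _ = 2 ^ S * (NN a g k * 2 ^ (g + a i)) := by simp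

theorem mass : S_MASS := by
  intro I a g k hL i F hF
  obtain ⟨S, hS⟩ : ∃ S, ∀ v ∈ F, v ≤ S := ⟨F.sup id, fun v hv => le_sup (f := id) hv⟩
  have h1 := mass_nat hL hF S (fun v hv => le_trans (vf_le v) (hS v hv))
  have h2 : ∀ v ∈ F, (mz I v : ℝ) / 2 ^ v = (mS I S v : ℝ) / 2 ^ S := by
    intro v hv
    have h3 := mS_eq hL (le_trans (vf_le v) (hS v hv)) (le_trans (vb_le v) (hS v hv))
    rw [div_eq_div_iff (by positivity) (by positivity)]
    have h4 : ((2 ^ v * mS I S v : ℕ) : ℝ) = ((2 ^ S * mz I v : ℕ) : ℝ) := by rw [h3]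
    push_cast at h4
    linarith
  rw [sum_congr rfl h2, ← sum_div, div_le_iff₀ (by positivity)]
  have h5 : ((∑ v ∈ F, mS I S v : ℕ) : ℝ) ≤ ((2 ^ S * (NN a g k * 2 ^ (g + a i)) : ℕ) : ℝ) := by exact_mod_cast h1
  push_cast at h5
  linarith

theorem num : S_NUM := by
  intro I a g k hL i F hF
  obtain ⟨S, hS⟩ : ∃ S, ∀ v ∈ F, v ≤ S := ⟨F.sup id, fun v hv => le_sup (f := id) hv⟩
  -- the target
  have h1 : F.card ≤ (range (NN a g k) ×ˢ
      ((range S).sigma fun e => range (cnt I S i e * 2 ^ (k + 3) / 2 ^ S))).card := by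
    apply card_le_card_of_injOn (fun v => (vj v, ⟨ve v, vl v⟩))
    · intro v hv
      obtain ⟨h1, h2⟩ := hF v hv
      have h3 := Ver.rch_vf h1
      have h4 : rch I k ((vl v + 1) * 2 ^ vj v) S (vi v) (ve v) = true :=
        rch_up hL (le_trans (vf_le v) (hS v hv)) (rch_iff.2 h3)
      rw [rch_iff, h2] at h4
      have h5 : (vl v + 1) * 2 ^ S ≤ cnt I S i (ve v) * 2 ^ (k + 3) := by
        refine le_trans ?_ h4
        apply Nat.mul_le_mul_right
        exact Nat.le_mul_of_pos_right _ (by positivity)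
      have h6 : ve v < S := by
        by_contra hge
        have h7 : cnt I S i (ve v) = 0 := by
          rw [cnt]
          apply sum_eq_zero
          intro w _
          rw [card_eq_zero, filter_eq_empty_iff]
          intro q _ hI
          exact hge (hL.small _ _ _ _ _ hI).2
        rw [h7, zero_mul] at h5
        have : 0 < (vl v + 1) * 2 ^ S := by positivity
        omega
      simp only [coe_product, Set.mem_prod, mem_coe, mem_range, mem_sigma]
      refine ⟨Ver.vj_lt hL h1, h6, ?_⟩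
      have h7 : vl v + 1 ≤ cnt I S i (ve v) * 2 ^ (k + 3) / 2 ^ S := by
        rw [Nat.le_div_iff_mul_le (by positivity)]; exact h5
      omega
    · intro v hv v' hv' heq
      obtain ⟨h1, h2⟩ := hF v hv
      obtain ⟨h1', h2'⟩ := hF v' hv'
      simp only [Prod.mk.injEq, Sigma.mk.injEq, heq_eq_eq] at heq
      exact Ver_ext h1 h1' (by rw [h2, h2']) heq.2.1 heq.1 heq.2.2
  have h2 : ∑ e ∈ range S, (cnt I S i e * 2 ^ (k + 3) / 2 ^ S) ≤ 2 ^ (k + 3) * 2 ^ (g + a i) := by
    have h3 : 2 ^ S * ∑ e ∈ range S, (cnt I S i e * 2 ^ (k + 3) / 2 ^ S) ≤ 2 ^ S * (2 ^ (k + 3) * 2 ^ (g + a i)) := by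
      calc 2 ^ S * ∑ e ∈ range S, (cnt I S i e * 2 ^ (k + 3) / 2 ^ S)
          = ∑ e ∈ range S, 2 ^ S * (cnt I S i e * 2 ^ (k + 3) / 2 ^ S) := by rw [mul_sum]
        _ ≤ ∑ e ∈ range S, cnt I S i e * 2 ^ (k + 3) := sum_le_sum fun e _ => Nat.mul_div_le _ _
        _ = (∑ e ∈ range S, cnt I S i e) * 2 ^ (k + 3) := by rw [sum_mul]
        _ ≤ 2 ^ S * 2 ^ (g + a i) * 2 ^ (k + 3) := Nat.mul_le_mul_right _ (sum_cnt_le hL S i)
        _ = 2 ^ S * (2 ^ (k + 3) * 2 ^ (g + a i)) := by ring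
    exact Nat.le_of_mul_le_mul_left h3 (by positivity)
  refine le_trans h1 ?_
  rw [card_product, card_range, card_sigma]
  simp only [card_range]
  calc _ ≤ NN a g k * (2 ^ (k + 3) * 2 ^ (g + a i)) := Nat.mul_le_mul_left _ h2
    _ = _ := by ring

end

end Pool.Agent.H57GWR
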